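import Pool.Agent.Lib.MP_1a91b9_ntX.DK.XQa

/-!
# Local expansion of the units `xQ`
-/

set_option autoImplicit false

namespace Pool.Agent.Lib.MP_1a91b9_ntX.DK

open NumberField IsDedekindDomain WeierstrassCurve Pool.Agent.Lib.MP_1a91b9_ntT
open Pool.Agent.Lib.MP_1a91b9_ntX.DB
open Pool.Agent.Lib.MP_1a91b9_ntX.DG

noncomputable section

variable [DD] [KP]

theorem loc_mul {N : Type} [Field N] {Γ : Type*} [LinearOrderedCommGroupWithZero Γ]
    (v : Valuation N Γ) {g : Γ} (hg : g ≤ 1) {x x' α α' : N} (h1 : v α ≤ g)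
    (h2 : v (x - 1 - α) ≤ g ^ 2) (h1' : v α' ≤ g) (h2' : v (x' - 1 - α') ≤ g ^ 2) :
    v (α + α') ≤ g ∧ v (x * x' - 1 - (α + α')) ≤ g ^ 2 := by
  refine ⟨Valuation.map_add_le v h1 h1', ?_⟩
  have hx' : v x' ≤ 1 := by
    have e1 : x' = (x' - 1 - α') + (1 + α') := by ring
    rw [e1]
    refine Valuation.map_add_le v (h2'.trans (pow_le_one' hg 2)) ?_
    exact Valuation.map_add_le v (by rw [map_one]) (h1'.trans hg)
  have e2 : x * x' - 1 - (α + α') = (x - 1 - α) * x' + ((1 + α) * (x' - 1 - α') + α * α') := by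
    ring
  rw [e2]
  refine Valuation.map_add_le v ?_ (Valuation.map_add_le v ?_ ?_)
  · rw [map_mul]
    exact (mul_le_mul' h2 hx').trans (by rw [mul_one])
  · rw [map_mul]
    have h3 : v (1 + α) ≤ 1 := Valuation.map_add_le v (by rw [map_one]) (h1.trans hg)
    exact (mul_le_mul' h3 h2').trans (by rw [one_mul])
  · rw [map_mul, sq]
    exact mul_le_mul' h1 h1'

theorem loc_prod {N : Type} [Field N] {Γ : Type*} [LinearOrderedCommGroupWithZero Γ]
    (v : Valuation N Γ) {g : Γ} (hg : g ≤ 1) {ι : Type*} (s : Finset ι) (x α : ι → N)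
    (h1 : ∀ i ∈ s, v (α i) ≤ g ∧ v (x i - 1 - α i) ≤ g ^ 2) :
    v (∑ i ∈ s, α i) ≤ g ∧ v (∏ i ∈ s, x i - 1 - ∑ i ∈ s, α i) ≤ g ^ 2 := by
  classical
  induction s using Finset.induction_on with
  | empty => simp
  | insert a s ha ih =>
    have h2 := ih fun i hi => h1 i (Finset.mem_insert_of_mem hi)
    have h3 := h1 a (Finset.mem_insert_self a s)
    rw [Finset.sum_insert ha, Finset.prod_insert ha]
    exact loc_mul v hg h3.1 h3.2 h2.1 h2.2

section
variable {N : Type} [Field N] [NumberField N] [Algebra K N] [DecidableEq N]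
  {ϖ : 𝓞 K} {ℓ q : ℕ} (h : PD ϖ ℓ q) {T : Finset (𝓞 K)} {iv : 𝓞 K → 𝓞 K} {n : 𝓞 K → ℤ}
  (hT : TrD ϖ ℓ T iv n) {P : Pt N} (hP : Ord ϖ P) {μ : 𝓞 K}
  (hμϖ : ¬ ϖ ∣ μ) {Q : Pt N} (hQ : sm N μ Q = 0) (hQ0 : sm N pk Q ≠ 0)

include h hP hμϖ hQ hQ0 in
theorem lamQ_val {Γ : Type*} [LinearOrderedCommGroupWithZero Γ] (v : Valuation N Γ)
    (hv : v (algebraMap K N (ϖ : K)) < 1) : v (lamQ Q) ≤ 1 := by
  unfold lamQ
  refine Valuation.map_sum_le v fun j hj => ?_
  rw [map_mul]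
  exact mul_le_one' (v_alg_le v _) (DG.lamQ_val h (ord_pj h hP j) hμϖ (kill_pj hQ j)
    (sm_pj hQ0 (Finset.mem_range.1 hj)) v hv)

include h hT hP hμϖ hQ hQ0

theorem xQ_loc {Γ : Type*} [LinearOrderedCommGroupWithZero Γ] (v : Valuation N Γ)
    (hv : v (algebraMap K N (ϖ : K)) < 1) (c : 𝓞 K) :
    v (xQ T iv n P Q c - 1 + algebraMap K N (c : K) * lamQ Q * tc P) ≤ v (tc P) ^ 2 := by
  have hb := bad_of_pi h v hv
  have hK : Ker v P := ker_of_val v h.prime h.one hP hv hb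
  have ht := (ker_tc_lt v hK).le
  have hval : ∀ j ∈ Finset.range KP.k, v (DG.lamQ (sm N (pi3 ^ j) Q)) ≤ 1 := fun j hj =>
    DG.lamQ_val h (ord_pj h hP j) hμϖ (kill_pj hQ j) (sm_pj hQ0 (Finset.mem_range.1 hj)) v hv
  have hfac := loc_prod v ht (Finset.range KP.k)
    (fun j => DG.xQ T iv n (sm N (pi3 ^ j) P) (sm N (pi3 ^ j) Q) c)
    (fun j => -(algebraMap K N (c : K) * DG.lamQ (sm N (pi3 ^ j) Q) *
      (algebraMap K N ((pi3 ^ j : 𝓞 K) : K) * tc P))) (fun j hj => by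
      have h1 := DG.xQ_loc h hT (ord_pj h hP j) hμϖ (kill_pj hQ j)
        (sm_pj hQ0 (Finset.mem_range.1 hj)) v hv c
      have h2 := hval j hj
      have h3 := ker_sm_t v hK (pi3 ^ j)
      have h4 := ker_sm_le v hK (pi3 ^ j)
      constructor
      · rw [Valuation.map_neg, map_mul, map_mul, map_mul]
        refine (mul_le_mul' (mul_le_one' (v_alg_le v c) h2)
          (mul_le_mul' (v_alg_le v (pi3 ^ j)) le_rfl)).trans ?_
        rw [one_mul, one_mul]
      · have e1 : DG.xQ T iv n (sm N (pi3 ^ j) P) (sm N (pi3 ^ j) Q) c - 1 -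
            -(algebraMap K N (c : K) * DG.lamQ (sm N (pi3 ^ j) Q) *
              (algebraMap K N ((pi3 ^ j : 𝓞 K) : K) * tc P)) =
            (DG.xQ T iv n (sm N (pi3 ^ j) P) (sm N (pi3 ^ j) Q) c - 1 +
              algebraMap K N (c : K) * DG.lamQ (sm N (pi3 ^ j) Q) * tc (sm N (pi3 ^ j) P)) -
            algebraMap K N (c : K) * DG.lamQ (sm N (pi3 ^ j) Q) *
              (tc (sm N (pi3 ^ j) P) - algebraMap K N ((pi3 ^ j : 𝓞 K) : K) * tc P) := by
          ring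
        rw [e1]
        refine Valuation.map_sub_le v (h1.trans (pow_le_pow_left' h4 2)) ?_
        rw [map_mul, map_mul]
        refine (mul_le_mul' (mul_le_one' (v_alg_le v c) h2) h3).trans ?_
        rw [one_mul]
        exact pow_le_pow_right_of_le_one' ht (by norm_num))
  have e2 : xQ T iv n P Q c - 1 + algebraMap K N (c : K) * lamQ Q * tc P =
      ∏ j ∈ Finset.range KP.k, DG.xQ T iv n (sm N (pi3 ^ j) P) (sm N (pi3 ^ j) Q) c - 1 -
        ∑ j ∈ Finset.range KP.k, -(algebraMap K N (c : K) * DG.lamQ (sm N (pi3 ^ j) Q) *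
          (algebraMap K N ((pi3 ^ j : 𝓞 K) : K) * tc P)) := by
    have e3 : ∑ j ∈ Finset.range KP.k, -(algebraMap K N (c : K) * DG.lamQ (sm N (pi3 ^ j) Q) *
          (algebraMap K N ((pi3 ^ j : 𝓞 K) : K) * tc P)) =
        -(algebraMap K N (c : K) * lamQ Q * tc P) := by
      unfold lamQ
      rw [Finset.sum_neg_distrib, Finset.mul_sum, Finset.sum_mul]
      congr 1
      refine Finset.sum_congr rfl fun j _ => ?_
      ring
    rw [e3]
    unfold xQ
    ring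
  rw [e2]
  exact hfac.2

end

end

end Pool.Agent.Lib.MP_1a91b9_ntX.DK
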