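import Pool.Agent.Lib.MP_1a91b9_ntX.DK.Defs
import Pool.Agent.Lib.MP_1a91b9_ntX.DG.GalU

/-!
# `Gal(F/K)` as a quotient of the group `H`

As in `MP_1a91b9_ntX/DG/GalU.lean`, with `KP`.
-/

set_option autoImplicit false

namespace Pool.Agent.Lib.MP_1a91b9_ntX.DK

open NumberField IsDedekindDomain WeierstrassCurve Pool.Agent.Lib.MP_1a91b9_ntT
open Pool.Agent.Lib.MP_1a91b9_ntX.DB
open Pool.Agent.Lib.MP_1a91b9_ntX.DG

noncomputable section

variable [DD] [KP]

section
variable {μ : 𝓞 K} {H : Subgroup (CU μ)} {F L' : Type} [Field F] [NumberField F] [Algebra K F]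
  [Field L'] [NumberField L'] [Algebra K L'] [Algebra F L'] [IsScalarTower K F L']
  [DecidableEq L'] {J' : Pt L'} (hAB : AB H F L' J')
include hAB

private theorem GALU_act (σ : Gal(L'/K)) : ∃ u : U H, ga σ J' = smU J' u := hAB.mem σ

private theorem GALU_surj (u : U H) : ∃ σ : Gal(L'/K), ga σ J' = smU J' u := hAB.surj u

private theorem GALU_inj {σ τ : Gal(L'/K)} (h : ga σ J' = ga τ J') : σ = τ := by
  have h1 : ga (τ⁻¹ * σ) J' = J' := by rw [ga_mul, h, ← ga_mul, inv_mul_cancel, ga_one]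
  exact (inv_mul_eq_one.1 (hAB.gen _ h1)).symm

private theorem GALU_mul {σ τ : Gal(L'/K)} {u v : U H} (h1 : ga σ J' = smU J' u)
    (h2 : ga τ J' = smU J' v) : ga (σ * τ) J' = smU J' (u * v) := by
  rw [ga_mul, h2, mul_comm u v, ← smU_mul hAB.ord, ← h1]
  unfold smU
  rw [ga_sm]

private theorem GALU_comm (σ τ : Gal(L'/K)) : σ * τ = τ * σ := by
  obtain ⟨u, hu⟩ := GALU_act hAB σ
  obtain ⟨v, hv⟩ := GALU_act hAB τ
  refine GALU_inj hAB ?_
  rw [GALU_mul hAB hu hv, GALU_mul hAB hv hu, mul_comm]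

private theorem GALU_lift (g : Gal(F/K)) : ∃ σ : Gal(L'/K), ∀ x : F,
    algebraMap F L' (g x) = σ (algebraMap F L' x) := by
  have := hAB.gal
  have := hAB.galF
  obtain ⟨σ, rfl⟩ := AlgEquiv.restrictNormalHom_surjective (F := K) (K₁ := F) L' g
  exact ⟨σ, fun x => AlgEquiv.restrictNormal_commutes σ F x⟩

omit [Field F] [NumberField F] [Algebra K F] [Algebra F L'] [IsScalarTower K F L'] hAB in
private theorem GALU_lam (σ : Gal(L'/K)) (Q : Pt L') : σ (lamQ Q) = lamQ (ga σ Q) := by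
  exact (lamQ_ga σ Q).symm

theorem trace_res [Fintype (U H)] {res : U H →* Gal(F/K)}
    (hres : ∀ (σ : Gal(L'/K)) (u : U H), ga σ J' = smU J' u →
      ∀ x : F, algebraMap F L' (res u x) = σ (algebraMap F L' x)) (g : Gal(F/K)) :
    algebraMap F L' (g (Algebra.trace F L' (lamQ J'))) =
      ∑ u : U H, haveI := Classical.dec (res u = g); if res u = g then lamQ (smU J' u) else 0 := by
  classical
  have := hAB.gal
  have : IsGalois F L' := IsGalois.tower_top_of_isGalois K F L'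
  obtain ⟨σ1, hσ1⟩ := GALU_lift hAB g
  have hR : (∑ u : U H, haveI := Classical.dec (res u = g); if res u = g then lamQ (smU J' u) else 0) =
      ∑ u ∈ Finset.univ.filter (fun u : U H => res u = g), lamQ (smU J' u) := by
    rw [Finset.sum_filter]
  rw [hR, hσ1, trace_eq_sum_automorphisms, map_sum]
  choose cl hcl using GALU_act hAB
  refine Finset.sum_bij (fun (τ : Gal(L'/F)) _ => cl (σ1 * AlgEquiv.restrictScalars K τ)) ?_ ?_ ?_ ?_
  · intro τ _
    rw [Finset.mem_filter]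
    refine ⟨Finset.mem_univ _, AlgEquiv.ext fun x => (algebraMap F L').injective ?_⟩
    rw [hres _ _ (hcl (σ1 * AlgEquiv.restrictScalars K τ)) x, hσ1, AlgEquiv.mul_apply,
      AlgEquiv.restrictScalars_apply, τ.commutes]
  · intro τ _ τ' _ h
    have h1 : σ1 * AlgEquiv.restrictScalars K τ = σ1 * AlgEquiv.restrictScalars K τ' :=
      GALU_inj hAB (by rw [hcl, hcl, h])
    have h2 := mul_left_cancel h1
    refine AlgEquiv.ext fun x => ?_
    exact congrArg (fun ρ : Gal(L'/K) => ρ x) h2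
  · intro u hu
    rw [Finset.mem_filter] at hu
    obtain ⟨σ, hσ⟩ := GALU_surj hAB u
    have h9 : ∀ x : F, (σ1⁻¹ * σ) (algebraMap F L' x) = algebraMap F L' x := by
      intro x
      rw [AlgEquiv.mul_apply, ← hres σ u hσ x, hu.2, hσ1, ← AlgEquiv.mul_apply, inv_mul_cancel,
        AlgEquiv.one_apply]
    refine ⟨AlgEquiv.ofRingEquiv (f := (σ1⁻¹ * σ : Gal(L'/K)).toRingEquiv) h9, Finset.mem_univ _, ?_⟩
    refine smU_inj hAB.ord ?_
    rw [← hcl, ← hσ]
    have h10 : σ1 * AlgEquiv.restrictScalars K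
        (AlgEquiv.ofRingEquiv (f := (σ1⁻¹ * σ : Gal(L'/K)).toRingEquiv) h9) = σ := by
      refine AlgEquiv.ext fun x => ?_
      show σ1 ((σ1⁻¹ * σ) x) = σ x
      rw [← AlgEquiv.mul_apply, mul_inv_cancel_left]
    rw [h10]
  · intro τ _
    rw [← hcl, ← GALU_lam]
    rfl

end

end

end Pool.Agent.Lib.MP_1a91b9_ntX.DK
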