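import Pool.Agent.Lib.MP_1a91b9_ntX.DK.E1L
import Pool.Agent.Lib.MP_1a91b9_ntX.DG.Hps

/-!
# The sums of the values of `E1` at the levels `pi3 ^ i * m0`
-/

set_option autoImplicit false

namespace Pool.Agent.Lib.MP_1a91b9_ntX.DK

open NumberField IsDedekindDomain WeierstrassCurve Pool.Agent.Lib.MP_1a91b9_ntT
open Pool.Agent.Lib.MP_1a91b9_ntX.DB
open Pool.Agent.Lib.MP_1a91b9_ntX.DG

noncomputable section

/-- the sum of the values of `E1` twisted by a character -/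
def SE {μ : 𝓞 K} {H : Subgroup (CU μ)} [Fintype (U H)] (θ : U H →* ℂ) (ν : 𝓞 K) : ℂ :=
  ∑ u : U H, θ u * E1 (embK ((rp u : 𝓞 K) : K) / embK (ν : K))

section
variable {μ : 𝓞 K} {H : Subgroup (CU μ)} [Fintype (U H)] {θ : U H →* ℂ}
  (hθ : ∀ u, ‖θ u‖ = 1)
include hθ

private theorem rec_th (u : U H) : θ u ≠ 0 := by
  intro h
  have h1 := hθ u
  rw [h, norm_zero] at h1
  exact zero_ne_one h1

theorem SE_shift {ν : 𝓞 K} (hν : ν ≠ 0) (hd : ν ∣ μ) {a : 𝓞 K} {η : (𝓞 K)ˣ} {h : U H}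
    (ha : μ ∣ a - η * rp h) :
    ∑ u : U H, θ u * E1 (embK ((rp u * a : 𝓞 K) : K) / embK (ν : K)) =
      (embK ((η : 𝓞 K) : K) * θ h)⁻¹ * SE θ ν := by
  have hη0 : embK ((η : 𝓞 K) : K) ≠ 0 := MP_1a91b9_ntT.DG.zc_ne η.ne_zero
  have hh := rec_th hθ h
  have e1 : ∀ u : U H, θ u * E1 (embK ((rp u * a : 𝓞 K) : K) / embK (ν : K)) =
      (embK ((η : 𝓞 K) : K) * θ h)⁻¹ *
        (θ (u * h) * E1 (embK ((rp (u * h) : 𝓞 K) : K) / embK (ν : K))) := by
    intro u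
    have e3 : μ ∣ rp u * a - (η : 𝓞 K) * rp (u * h) := by
      have e4 : rp u * a - (η : 𝓞 K) * rp (u * h) =
          rp u * (a - η * rp h) - η * (rp (u * h) - rp u * rp h) := by ring
      rw [e4]
      exact dvd_sub (Dvd.dvd.mul_left ha _) (Dvd.dvd.mul_left (rp_mul u h) _)
    rw [E1_cong hν (hd.trans e3), ← E1_mulu η (rp (u * h)), map_mul]
    field_simp
  rw [Finset.sum_congr rfl fun u _ => e1 u, ← Finset.mul_sum]
  congr 1
  exact Equiv.sum_comp (Equiv.mulRight h) fun u : U H =>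
    θ u * E1 (embK ((rp u : 𝓞 K) : K) / embK (ν : K))

theorem SE_fix {ν : 𝓞 K} (hν : ν ≠ 0) (hd : ν ∣ μ) {a : 𝓞 K} {η : (𝓞 K)ˣ} {h : U H}
    (ha : μ ∣ a - η * rp h) (h1 : ν ∣ a - 1) (hS : SE θ ν ≠ 0) :
    embK ((η : 𝓞 K) : K) * θ h = 1 := by
  have h2 := SE_shift hθ hν hd ha
  have h3 : ∑ u : U H, θ u * E1 (embK ((rp u * a : 𝓞 K) : K) / embK (ν : K)) = SE θ ν := by
    refine Finset.sum_congr rfl fun u _ => ?_
    rw [E1_cong hν (b := rp u)]
    have e : rp u * a - rp u = rp u * (a - 1) := by ring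
    rw [e]
    exact Dvd.dvd.mul_left h1 _
  rw [h3] at h2
  have h4 : (embK ((η : 𝓞 K) : K) * θ h)⁻¹ = 1 := by
    have h5 : ((embK ((η : 𝓞 K) : K) * θ h)⁻¹ - 1) * SE θ ν = 0 := by
      linear_combination -h2
    exact sub_eq_zero.1 ((mul_eq_zero.1 h5).resolve_right hS)
  rwa [inv_eq_one] at h4

end

private theorem rec_cop {a c : 𝓞 K} (h : c ∣ a - 1) : IsCoprime a c := by
  obtain ⟨d, hd⟩ := h
  exact ⟨1, -d, by linear_combination hd⟩

private theorem rec_uniq (i j : Fin 3) (h : pi3 ∣ ((i : ℕ) : 𝓞 K) - ((j : ℕ) : 𝓞 K)) : i = j := by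
  have h1 : ¬ pi3 ∣ (1 : 𝓞 K) := fun h => prime_pi3.not_isUnit (isUnit_of_dvd_one h)
  have h2 : ¬ pi3 ∣ (2 : 𝓞 K) := by
    intro h
    have h3 := dvd_sub pi3_dvd_three h
    have e : (3 : 𝓞 K) - 2 = 1 := by norm_num
    rw [e] at h3
    exact h1 h3
  have key : ∀ m : ℕ, m < 3 → m ≠ 0 → ¬ pi3 ∣ (m : 𝓞 K) := by
    intro m hm hm0
    interval_cases m
    · exact absurd rfl hm0
    · simpa using h1
    · simpa using h2
  apply Fin.ext
  rcases lt_trichotomy (i : ℕ) (j : ℕ) with hlt | heq | hgt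
  · exfalso
    have e : ((j : ℕ) : 𝓞 K) - ((i : ℕ) : 𝓞 K) = (((j : ℕ) - (i : ℕ) : ℕ) : 𝓞 K) := by
      rw [Nat.cast_sub hlt.le]
    rw [← dvd_neg, neg_sub, e] at h
    have := j.2
    exact key _ (by omega) (by omega) h
  · exact heq
  · exfalso
    have e : ((i : ℕ) : 𝓞 K) - ((j : ℕ) : 𝓞 K) = (((i : ℕ) - (j : ℕ) : ℕ) : 𝓞 K) := by
      rw [Nat.cast_sub hgt.le]
    rw [e] at h
    have := i.2
    exact key _ (by omega) (by omega) h

/-- the absolute value of the image of a unit -/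
theorem norm_embu (η : (𝓞 K)ˣ) : ‖embK ((η : 𝓞 K) : K)‖ = 1 := by
  have h1 : ∃ n : ℕ, 0 < n ∧ (η : 𝓞 K) ^ n = 1 := by
    have h2 := IsCyclotomicExtension.Rat.Three.Units.mem om_spec η
    obtain ⟨ζ, hζ⟩ : ∃ ζ : (𝓞 K)ˣ, ζ =
      (IsPrimitiveRoot.isUnit (om_spec.toInteger_isPrimitiveRoot) (by decide)).unit := ⟨_, rfl⟩
    rw [← hζ] at h2
    have h3 : ζ ^ 3 = 1 := by
      ext
      rw [Units.val_pow_eq_pow_val, hζ, IsUnit.unit_spec, om_spec.toInteger_cube_eq_one,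
        Units.val_one]
    have h6 : ζ ^ 6 = 1 := by
      rw [show 6 = 3 * 2 by rfl, pow_mul, h3, one_pow]
    have h7 : η ^ 6 = 1 := by
      simp only [List.mem_cons, List.not_mem_nil, or_false] at h2
      rcases h2 with h | h | h | h | h | h
      · rw [h, one_pow]
      · rw [h, Even.neg_pow (by decide), one_pow]
      · rw [h, h6]
      · rw [h, Even.neg_pow (by decide), h6]
      · rw [h, ← pow_mul, mul_comm, pow_mul, h6, one_pow]
      · rw [h, Even.neg_pow (by decide), ← pow_mul, mul_comm, pow_mul, h6, one_pow]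
    refine ⟨6, by norm_num, ?_⟩
    have h8 := congrArg (Units.val) h7
    rwa [Units.val_pow_eq_pow_val, Units.val_one] at h8
  obtain ⟨n, hn, h2⟩ := h1
  have h3 : (embK ((η : 𝓞 K) : K)) ^ n = 1 := by
    rw [← map_pow]
    have e : ((η : 𝓞 K) : K) ^ n = (((η : 𝓞 K) ^ n : 𝓞 K) : K) := rfl
    rw [e, h2]
    exact map_one _
  have h4 : ‖embK ((η : 𝓞 K) : K)‖ ^ n = 1 := by
    rw [← norm_pow, h3, norm_one]
  exact (pow_eq_one_iff_of_nonneg (norm_nonneg _) hn.ne').1 h4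

theorem norm_pi3_sq : ‖embK ((pi3 : 𝓞 K) : K)‖ ^ 2 = 3 := by
  have h1 : embK ((pi3 : 𝓞 K) : K) = 1 - zt := by
    have e : ((pi3 : 𝓞 K) : K) = 1 - om := rfl
    rw [e, map_sub, map_one, embK_om]
  have h2 : pi3 ^ 2 = -3 * S3.omO := by
    rw [pi3_sq]
    ring
  have h3 : (embK ((pi3 : 𝓞 K) : K)) ^ 2 = -3 * embK ((S3.omO : 𝓞 K) : K) := by
    rw [← map_pow]
    have e : ((pi3 : 𝓞 K) : K) ^ 2 = ((pi3 ^ 2 : 𝓞 K) : K) := rfl
    rw [e, h2]
    have e2 : ((-3 * S3.omO : 𝓞 K) : K) = -3 * ((S3.omO : 𝓞 K) : K) := by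
      have e3 : (-3 * S3.omO : 𝓞 K) = -(3 * S3.omO) := by ring
      rw [e3]
      have e4 : ((-(3 * S3.omO) : 𝓞 K) : K) = -(((3 : 𝓞 K) : K) * ((S3.omO : 𝓞 K) : K)) := rfl
      rw [e4]
      have e5 : ((3 : 𝓞 K) : K) = 3 := by
        rw [RingOfIntegers.coe_eq_algebraMap, map_ofNat]
      rw [e5]
      ring
    rw [e2, map_mul, map_neg, map_ofNat]
  have hu : IsUnit (S3.omO : 𝓞 K) := by
    have e : S3.omO * (S3.omO * S3.omO) = 1 := by
      have h := omO_quad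
      linear_combination (S3.omO - 1) * h
    exact IsUnit.of_mul_eq_one _ e
  obtain ⟨η, hη⟩ := hu
  have h5 := norm_embu η
  rw [hη] at h5
  rw [← norm_pow, h3, norm_mul, h5, mul_one, norm_neg]
  norm_num

section
variable [DD] [HC] {μ : 𝓞 K} {H : Subgroup (CU μ)} {F L' : Type} [Field F] [NumberField F]
  [Algebra K F] [Field L'] [NumberField L'] [Algebra K L'] [Algebra F L'] [IsScalarTower K F L']
  [DecidableEq L'] {J' : Pt L'} (hAB : AB H F L' J') (hM : Md μ) [Fintype (U H)] {θ : U H →* ℂ}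
  (hθ : ∀ u, ‖θ u‖ = 1) {k : ℕ} {m0 : 𝓞 K} (hμ : μ = pi3 ^ k * m0) (hk : 0 < k)
include hAB hM hθ hμ

omit hθ [Fintype (U H)] in
private theorem rec_m0 : m0 ≠ 0 := by
  rintro rfl
  exact hM.ne (by rw [hμ, mul_zero])

/-- the relation between two levels divisible by `pi3` -/
theorem SE_step {i : ℕ} (hi : i + 2 ≤ k) (hS : SE θ (pi3 ^ (i + 1) * m0) ≠ 0) :
    embK ((pi3 : 𝓞 K) : K) * SE θ (pi3 ^ (i + 1) * m0) = 3 * SE θ (pi3 ^ (i + 2) * m0) := by
  have hm0 := rec_m0 hAB hM hμ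
  have hpi0 : (pi3 : 𝓞 K) ≠ 0 := prime_pi3.ne_zero
  obtain ⟨ν', hν'⟩ : ∃ ν' : 𝓞 K, ν' = pi3 ^ (i + 1) * m0 := ⟨_, rfl⟩
  obtain ⟨ν, hν⟩ : ∃ ν : 𝓞 K, ν = pi3 ^ (i + 2) * m0 := ⟨_, rfl⟩
  rw [← hν'] at hS ⊢
  rw [← hν]
  have hν'0 : ν' ≠ 0 := by
    rw [hν']
    exact mul_ne_zero (pow_ne_zero _ hpi0) hm0
  have hν0 : ν ≠ 0 := by
    rw [hν]
    exact mul_ne_zero (pow_ne_zero _ hpi0) hm0
  have hνν : ν = pi3 * ν' := by
    rw [hν, hν']
    ring
  have hνμ : ν ∣ μ := by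
    rw [hν, hμ]
    exact mul_dvd_mul_right (pow_dvd_pow _ hi) _
  have hν'μ : ν' ∣ μ := (Dvd.intro_left _ hνν.symm).trans hνμ
  have hpν' : pi3 ∣ ν' := by
    rw [hν', pow_succ']
    exact (dvd_mul_right _ _).mul_right _
  have hm0ν' : m0 ∣ ν' := by
    rw [hν']
    exact dvd_mul_left _ _
  have hpμ : pi3 ∣ μ := hpν'.trans hν'μ
  obtain ⟨y, hy⟩ : ∃ y : Fin 3 → 𝓞 K, y = fun j : Fin 3 => 1 + ((j : ℕ) : 𝓞 K) * ν' :=
    ⟨_, rfl⟩
  have hy1 : ∀ j, ν' ∣ y j - 1 := fun j => ⟨((j : ℕ) : 𝓞 K), by rw [hy]; ring⟩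
  have hyc : ∀ j, IsCoprime (y j) μ := by
    intro j
    have h1 := rec_cop (hy1 j)
    rw [hμ]
    exact ((h1.of_isCoprime_of_dvd_right hpν').pow_right).mul_right
      (h1.of_isCoprime_of_dvd_right hm0ν')
  choose η h hh using fun j => hAB.unit_mul hM (hyc j)
  have hlift : ∀ u : U H, ∑ j : Fin 3, E1 (embK ((rp u * y j : 𝓞 K) : K) / embK (ν : K)) =
      embK ((pi3 : 𝓞 K) : K) * E1 (embK ((rp u : 𝓞 K) : K) / embK (ν' : K)) := by
    intro u
    refine E1_lift hν'0 hνν (rp u) (fun j => rp u * y j) (fun j => ?_) (fun j j' hjj => ?_)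
    · have e : rp u * y j - rp u = rp u * (y j - 1) := by ring
      rw [e]
      exact (hy1 j).mul_left _
    · have e : rp u * y j - rp u * y j' =
          (rp u * (((j : ℕ) : 𝓞 K) - ((j' : ℕ) : 𝓞 K))) * ν' := by
        rw [hy]
        ring
      rw [e, hνν] at hjj
      have h1 : pi3 ∣ rp u * (((j : ℕ) : 𝓞 K) - ((j' : ℕ) : 𝓞 K)) :=
        (mul_dvd_mul_iff_right hν'0).1 hjj
      have h2 : ¬ pi3 ∣ rp u := by
        intro h3
        exact prime_pi3.not_isUnit ((rp_cop u).isUnit_of_dvd' h3 hpμ)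
      exact rec_uniq _ _ ((prime_pi3.dvd_or_dvd h1).resolve_left h2)
  have e1 : embK ((pi3 : 𝓞 K) : K) * SE θ ν' = ∑ j : Fin 3, ∑ u : U H,
      θ u * E1 (embK ((rp u * y j : 𝓞 K) : K) / embK (ν : K)) := by
    unfold SE
    rw [Finset.mul_sum, Finset.sum_comm]
    refine Finset.sum_congr rfl fun u _ => ?_
    rw [← Finset.mul_sum, hlift u]
    ring
  have e2 : ∀ j : Fin 3, ∑ u : U H, θ u * E1 (embK ((rp u * y j : 𝓞 K) : K) / embK (ν : K)) =
      SE θ ν := by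
    intro j
    rw [SE_shift hθ hν0 hνμ (hh j), SE_fix hθ hν'0 hν'μ (hh j) (hy1 j) hS, inv_one, one_mul]
  rw [e1, Finset.sum_congr rfl fun j _ => e2 j, Finset.sum_const, Finset.card_univ,
    Fintype.card_fin, nsmul_eq_mul]
  norm_num

include hk in
/-- the relation between the levels `m0` and `pi3 * m0` -/
theorem SE_last (h3 : ¬ pi3 ∣ m0) : ∃ ρ : ℂ, ‖ρ‖ = 1 ∧ (SE θ m0 ≠ 0 →
    (embK ((pi3 : 𝓞 K) : K) - ρ) * SE θ m0 = 2 * SE θ (pi3 ^ 1 * m0)) := by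
  have hm0 := rec_m0 hAB hM hμ
  have hpi0 : (pi3 : 𝓞 K) ≠ 0 := prime_pi3.ne_zero
  have hpid : IsPrincipalIdealRing (𝓞 K) := IsCyclotomicExtension.Rat.three_pid K
  have hcop : IsCoprime pi3 m0 := (prime_pi3.irreducible.coprime_iff_not_dvd).2 h3
  obtain ⟨a, b, hab⟩ := hcop
  have hpμ : pi3 ∣ μ := by
    rw [hμ]
    exact (dvd_pow_self _ hk.ne').mul_right _
  have hmμ : m0 ∣ μ := by
    rw [hμ]
    exact dvd_mul_left _ _
  have hν0 : pi3 * m0 ≠ 0 := mul_ne_zero hpi0 hm0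
  have hνμ : pi3 * m0 ∣ μ := by
    rw [hμ]
    exact mul_dvd_mul_right (dvd_pow_self _ hk.ne') _
  -- the inverse of `pi3`
  obtain ⟨w, hw1, hw2⟩ : ∃ w : 𝓞 K, m0 ∣ pi3 * w - 1 ∧ ¬ pi3 ∣ w := by
    by_cases ha : pi3 ∣ a
    · refine ⟨a + m0, ⟨pi3 - b, by linear_combination hab⟩, fun h => ?_⟩
      have h4 := dvd_sub h ha
      rw [add_sub_cancel_left] at h4
      exact h3 h4
    · exact ⟨a, ⟨-b, by linear_combination hab⟩, ha⟩
  have hwc : IsCoprime w μ := by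
    rw [hμ]
    refine IsCoprime.mul_right (IsCoprime.pow_right ?_) ?_
    · exact ((prime_pi3.irreducible.coprime_iff_not_dvd).2 hw2).symm
    · exact (rec_cop hw1).of_isCoprime_of_dvd_left (dvd_mul_left _ _)
  obtain ⟨y1, hy1⟩ : ∃ y1 : 𝓞 K, y1 = 1 - 2 * b * m0 := ⟨_, rfl⟩
  have hy1m : m0 ∣ y1 - 1 := ⟨-2 * b, by rw [hy1]; ring⟩
  have hy1p : pi3 ∣ y1 + 1 := ⟨2 * a, by rw [hy1]; linear_combination (-2) * hab⟩
  have hone : ¬ pi3 ∣ (1 : 𝓞 K) := fun h => prime_pi3.not_isUnit (isUnit_of_dvd_one h)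
  have hy1n : ¬ pi3 ∣ y1 := by
    intro h
    have h4 := dvd_sub hy1p h
    rw [add_sub_cancel_left] at h4
    exact hone h4
  have hy1c : IsCoprime y1 μ := by
    rw [hμ]
    exact IsCoprime.mul_right (IsCoprime.pow_right
      ((prime_pi3.irreducible.coprime_iff_not_dvd).2 hy1n).symm) (rec_cop hy1m)
  obtain ⟨η1, u1, h1⟩ := hAB.unit_mul hM hy1c
  obtain ⟨η2, u2, h2⟩ := hAB.unit_mul hM hwc
  have hu2 : θ u2 ≠ 0 := rec_th hθ u2
  refine ⟨(embK ((η2 : 𝓞 K) : K) * θ u2)⁻¹, ?_, fun hS => ?_⟩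
  · rw [norm_inv, norm_mul, norm_embu, hθ, one_mul, inv_one]
  have htwo : ¬ pi3 ∣ (2 : 𝓞 K) := by
    intro h
    have h4 := dvd_sub pi3_dvd_three h
    have e : (3 : 𝓞 K) - 2 = 1 := by norm_num
    rw [e] at h4
    exact hone h4
  obtain ⟨y, hy⟩ : ∃ y : Fin 3 → 𝓞 K, y = ![1, y1, pi3 * w] := ⟨_, rfl⟩
  have hym : ∀ j, m0 ∣ y j - 1 := by
    intro j
    fin_cases j
    · rw [hy]
      simp
    · rw [hy]
      exact hy1m
    · rw [hy]
      exact hw1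
  have hyp : ∀ i j, pi3 ∣ y i - y j → i = j := by
    have k01 : ¬ pi3 ∣ 1 - y1 := by
      intro h
      have h4 := dvd_add h hy1p
      have e : 1 - y1 + (y1 + 1) = 2 := by ring
      rw [e] at h4
      exact htwo h4
    have k02 : ¬ pi3 ∣ 1 - pi3 * w := by
      intro h
      have h4 := dvd_add h (dvd_mul_right pi3 w)
      rw [sub_add_cancel] at h4
      exact hone h4
    have k12 : ¬ pi3 ∣ y1 - pi3 * w := by
      intro h
      have h4 := dvd_add h (dvd_mul_right pi3 w)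
      rw [sub_add_cancel] at h4
      exact hy1n h4
    intro i j h
    rw [hy] at h
    fin_cases i <;> fin_cases j
    · rfl
    · exact absurd h k01
    · exact absurd h k02
    · exact absurd (by rw [← dvd_neg, neg_sub]; exact h) k01
    · rfl
    · exact absurd h k12
    · exact absurd (by rw [← dvd_neg, neg_sub]; exact h) k02
    · exact absurd (by rw [← dvd_neg, neg_sub]; exact h) k12
    · rfl
  have hlift : ∀ u : U H, ∑ j : Fin 3, E1 (embK ((rp u * y j : 𝓞 K) : K) /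
      embK ((pi3 * m0 : 𝓞 K) : K)) =
      embK ((pi3 : 𝓞 K) : K) * E1 (embK ((rp u : 𝓞 K) : K) / embK (m0 : K)) := by
    intro u
    refine E1_lift hm0 rfl (rp u) (fun j => rp u * y j) (fun j => ?_) (fun j j' hjj => ?_)
    · have e : rp u * y j - rp u = rp u * (y j - 1) := by ring
      rw [e]
      exact (hym j).mul_left _
    · have e : rp u * y j - rp u * y j' = rp u * (y j - y j') := by ring
      have h5 : pi3 ∣ rp u * (y j - y j') := by
        rw [← e]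
        exact (dvd_mul_right _ _).trans hjj
      have h6 : ¬ pi3 ∣ rp u := by
        intro h7
        exact prime_pi3.not_isUnit ((rp_cop u).isUnit_of_dvd' h7 hpμ)
      exact hyp _ _ ((prime_pi3.dvd_or_dvd h5).resolve_left h6)
  have e1 : embK ((pi3 : 𝓞 K) : K) * SE θ m0 = ∑ j : Fin 3, ∑ u : U H,
      θ u * E1 (embK ((rp u * y j : 𝓞 K) : K) / embK ((pi3 * m0 : 𝓞 K) : K)) := by
    unfold SE
    rw [Finset.mul_sum, Finset.sum_comm]
    refine Finset.sum_congr rfl fun u _ => ?_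
    rw [← Finset.mul_sum, hlift u]
    ring
  have f0 : ∑ u : U H, θ u * E1 (embK ((rp u * y 0 : 𝓞 K) : K) /
      embK ((pi3 * m0 : 𝓞 K) : K)) = SE θ (pi3 * m0) := by
    have e : y 0 = 1 := by rw [hy]; rfl
    rw [e]
    unfold SE
    exact Finset.sum_congr rfl fun u _ => by rw [mul_one]
  have f1 : ∑ u : U H, θ u * E1 (embK ((rp u * y 1 : 𝓞 K) : K) /
      embK ((pi3 * m0 : 𝓞 K) : K)) = SE θ (pi3 * m0) := by
    have e : y 1 = y1 := by rw [hy]; rfl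
    rw [e, SE_shift hθ hν0 hνμ h1, SE_fix hθ hm0 hmμ h1 hy1m hS, inv_one, one_mul]
  have f2 : ∑ u : U H, θ u * E1 (embK ((rp u * y 2 : 𝓞 K) : K) /
      embK ((pi3 * m0 : 𝓞 K) : K)) = (embK ((η2 : 𝓞 K) : K) * θ u2)⁻¹ * SE θ m0 := by
    have e : y 2 = pi3 * w := by rw [hy]; rfl
    rw [e, ← SE_shift hθ hm0 hmμ h2]
    refine Finset.sum_congr rfl fun u _ => ?_
    have hp := MP_1a91b9_ntT.DG.zc_ne hpi0
    have e2 : embK ((rp u * (pi3 * w) : 𝓞 K) : K) / embK ((pi3 * m0 : 𝓞 K) : K) =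
        embK ((rp u * w : 𝓞 K) : K) / embK (m0 : K) := by
      have e3 : rp u * (pi3 * w) = pi3 * (rp u * w) := by ring
      rw [e3, MP_1a91b9_ntT.DG.zc_mul pi3, MP_1a91b9_ntT.DG.zc_mul pi3, mul_div_mul_left _ _ hp]
    rw [e2]
  rw [Fin.sum_univ_three, f0, f1, f2] at e1
  rw [pow_one]
  linear_combination e1

end

/-- **The combination of the levels does not vanish.** -/
theorem comb_ne {k : ℕ} (hk : 0 < k) (a : ℕ → ℂ) {p ρ : ℂ} (hp : ‖p‖ ^ 2 = 3) (hρ : ‖ρ‖ = 1)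
    (h0 : a 0 ≠ 0) (h1 : ∀ j, j + 1 < k → a (j + 1) ≠ 0 → a (j + 1) = 3 * a j)
    (h2 : a k ≠ 0 → (p - ρ) * a k = 2 * p * a (k - 1)) :
    ∑ j ∈ Finset.range k, (a (j + 1) - 3 * a j) ≠ 0 := by
  have key : ∀ m, m < k → (∑ j ∈ Finset.range m, (a (j + 1) - 3 * a j) = 0 ∧ a m ≠ 0) ∨
      (∑ j ∈ Finset.range m, (a (j + 1) - 3 * a j) ≠ 0 ∧ a m = 0) := by
    intro m
    induction m with
    | zero =>
      intro _
      exact Or.inl ⟨by simp, h0⟩
    | succ m ih =>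
      intro hm
      rw [Finset.sum_range_succ]
      rcases ih (by omega) with ⟨e1, e2⟩ | ⟨e1, e2⟩
      · by_cases h3 : a (m + 1) = 0
        · right
          refine ⟨?_, h3⟩
          rw [e1, h3, zero_sub, zero_add]
          exact neg_ne_zero.2 (mul_ne_zero (by norm_num) e2)
        · left
          refine ⟨?_, h3⟩
          rw [e1, h1 m hm h3]
          ring
      · right
        have h3 : a (m + 1) = 0 := by
          by_contra h4
          apply h4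
          rw [h1 m hm h4, e2, mul_zero]
        refine ⟨?_, h3⟩
        rw [h3, e2, mul_zero, sub_zero, add_zero]
        exact e1
  obtain ⟨m, rfl⟩ : ∃ m, k = m + 1 := ⟨k - 1, by omega⟩
  have hp0 : p ≠ 0 := by
    rintro rfl
    rw [norm_zero] at hp
    norm_num at hp
  rw [Finset.sum_range_succ]
  rw [Nat.add_sub_cancel] at h2
  rcases key m (by omega) with ⟨e1, e2⟩ | ⟨e1, e2⟩
  · rw [e1, zero_add]
    intro h3
    by_cases h4 : a (m + 1) = 0
    · rw [h4, zero_sub, neg_eq_zero] at h3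
      exact mul_ne_zero (by norm_num) e2 h3
    · have h5 := h2 h4
      have h6 : a (m + 1) = 3 * a m := sub_eq_zero.1 h3
      rw [h6] at h5
      have h7 : p * a m = 3 * ρ * a m := by linear_combination h5
      have h8 : p = 3 * ρ := mul_right_cancel₀ e2 h7
      rw [h8, norm_mul, hρ] at hp
      norm_num at hp
  · have h3 : a (m + 1) = 0 := by
      by_contra h4
      have h5 := h2 h4
      rw [e2, mul_zero] at h5
      have h6 : p = ρ := sub_eq_zero.1 ((mul_eq_zero.1 h5).resolve_right h4)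
      rw [h6, hρ] at hp
      norm_num at hp
    rw [h3, e2, mul_zero, sub_zero, add_zero]
    exact e1

end

end Pool.Agent.Lib.MP_1a91b9_ntX.DK
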