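import Pool.Agent.Lib.MP_1a91b9_ntX.DK.LamV
import Pool.Agent.Lib.MP_1a91b9_ntX.DK.Rec
import Pool.Agent.Lib.MP_1a91b9_ntX.DK.GalU
import Pool.Agent.Lib.MP_1a91b9_ntX.DG.DetL

/-!
# The determinant `dL` is not zero
-/

set_option autoImplicit false

namespace Pool.Agent.Lib.MP_1a91b9_ntX.DK

open NumberField IsDedekindDomain WeierstrassCurve Pool.Agent.Lib.MP_1a91b9_ntT
open Pool.Agent.Lib.MP_1a91b9_ntX.DB
open Pool.Agent.Lib.MP_1a91b9_ntX.DG

noncomputable section

private theorem DNE_finU {μ : 𝓞 K} (h : μ ≠ 0) (H : Subgroup (CU μ)) : Finite (U H) := by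
  have h1 : Finite (𝓞 K ⧸ Ideal.span {μ}) := by
    refine Ideal.finiteQuotientOfFreeOfNeBot _ ?_
    rw [Ne, Ideal.span_singleton_eq_bot]
    exact h
  infer_instance

private theorem DNE_pm {s : ℂ} (hs : s = 1 ∨ s = -1) : s ≠ 0 := by
  rcases hs with rfl | rfl
  · exact one_ne_zero
  · exact neg_ne_zero.2 one_ne_zero

variable [DD] [HC] [KP]

section
variable {μ : 𝓞 K} {H : Subgroup (CU μ)} {F L' : Type} [Field F] [NumberField F] [Algebra K F]
  [Field L'] [NumberField L'] [Algebra K L'] [Algebra F L'] [IsScalarTower K F L']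
  [DecidableEq L'] {J' : Pt L'} (hAB : AB H F L' J')
include hAB

theorem dL_ne (hM : Md μ) {m0 : 𝓞 K} (hμ : μ = pi3 ^ KP.k * m0) (h3 : ¬ pi3 ∣ m0)
    (hl : ¬ μ ∣ pk) (hL : AN.LGood F) : dL F L' J' ≠ 0 := by
  have hg : IsGalois K F := hAB.galF
  have hfU : Finite (U H) := DNE_finU hAB.ne H
  have hftU : Fintype (U H) := Fintype.ofFinite (U H)
  let hdec : DecidableEq Gal(F/K) := Classical.decEq _
  obtain ⟨res, -, hres⟩ := hAB.exists_res
  obtain ⟨φ⟩ := exists_emb L'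
  have hnot : ∀ u : U H, ¬ μ ∣ rp u := fun u h =>
    hM.not_unit ((rp_cop u).isUnit_of_dvd' h dvd_rfl)
  choose A hA hA1 hA2 using fun u : U H => exists_Zp hAB.ne (hnot u)
  obtain ⟨L, hLd, hL1, hLne⟩ := hL
  have hBfin : {v : HeightOneSpectrum (𝓞 F) |
      Ideal.span {algebraMap (𝓞 K) (𝓞 F) μ} ≤ v.asIdeal}.Finite := by
    refine (Ideal.finite_factors (I := Ideal.span {algebraMap (𝓞 K) (𝓞 F) μ}) ?_).subset
      fun v hv => ?_
    · rw [Ne, Ideal.zero_eq_bot, Ideal.span_singleton_eq_bot,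
        map_eq_zero_iff _ (FaithfulSMul.algebraMap_injective (𝓞 K) (𝓞 F))]
      exact hAB.ne
    · exact Ideal.dvd_iff_le.mpr hv
  obtain ⟨B, hBdef⟩ : ∃ B, B = hBfin.toFinset := ⟨_, rfl⟩
  have hB : ∀ v, v ∈ B ↔ algebraMap (𝓞 K) (𝓞 F) μ ∈ v.asIdeal := fun v => by
    rw [hBdef, Set.Finite.mem_toFinset]
    exact Ideal.span_singleton_le_iff_mem _
  obtain ⟨ε', hε', hdet⟩ := hAB.det_val hM hres hA hA1 hLd hL1 B hB
  have hdet0 : Matrix.det (Matrix.of fun g h : Gal(F/K) =>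
      ∑ u : U H, if res u = g * h then A u 1 else 0) ≠ 0 := by
    rw [hdet]
    exact mul_ne_zero (DNE_pm hε') (mul_ne_zero hLne
      (Finset.prod_ne_zero_iff.2 fun v _ => AN.euler_ne v))
  obtain ⟨ι, iι, χ, hχ1, ⟨ε, hε, hch⟩, -⟩ := Pool.Agent.Lib.MP_1a91b9_ntT.DG.exists_chars
    (G := Gal(F/K)) hAB.commF
  have hsum : ∀ (y : U H → ℂ) (i : ι), ∑ g : Gal(F/K), χ i g *
      (∑ u : U H, if res u = g then y u else 0) = ∑ u : U H, χ i (res u) * y u := by
    intro y i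
    simp only [Finset.mul_sum, mul_ite, mul_zero]
    rw [Finset.sum_comm]
    refine Finset.sum_congr rfl fun u _ => ?_
    rw [Finset.sum_ite_eq Finset.univ (res u) (fun g => χ i g * y u),
      if_pos (Finset.mem_univ _)]
  have hθ : ∀ i u, ‖(χ i).comp res u‖ = 1 := fun i u => hχ1 i _
  -- the sums at the level `μ`
  have hSE : ∀ i, SE ((χ i).comp res) μ ≠ 0 := by
    intro i h0
    have h1 := hch (fun g => ∑ u : U H, if res u = g then A u 1 else 0)
    beta_reduce at h1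
    rw [h1] at hdet0
    have h2 := Finset.prod_ne_zero_iff.1 (right_ne_zero_of_mul hdet0) i (Finset.mem_univ i)
    apply h2
    rw [hsum (fun u => A u 1) i]
    have e : ∀ u : U H, χ i (res u) * A u 1 = (embK (μ : K))⁻¹ *
        ((χ i).comp res u * E1 (embK ((rp u : 𝓞 K) : K) / embK (μ : K))) := by
      intro u
      rw [hA2]
      change _ = (embK (μ : K))⁻¹ * (χ i (res u) * _)
      ring
    rw [Finset.sum_congr rfl fun u _ => e u, ← Finset.mul_sum]
    change _ * SE ((χ i).comp res) μ = 0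
    rw [h0, mul_zero]
  -- the values
  obtain ⟨δ, y0, hδ, hy0, hval⟩ := lam_val hAB.ne hμ hl φ hAB.ord
  obtain ⟨η, u0, hη⟩ := hAB.unit_mul hM hy0
  have hη0 : embK ((η : 𝓞 K) : K) ≠ 0 := MP_1a91b9_ntT.DG.zc_ne η.ne_zero
  have hpi0 : (pi3 : 𝓞 K) ≠ 0 := prime_pi3.ne_zero
  have hm0 : m0 ≠ 0 := by
    rintro rfl
    exact hM.ne (by rw [hμ, mul_zero])
  have hchar : ∀ i, ∑ g : Gal(F/K), χ i g *
      (Om * φ (algebraMap F L' (g (Algebra.trace F L' (lamQ J'))))) ≠ 0 := by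
    intro i
    have hθi := hθ i
    obtain ⟨θ, hθd⟩ : ∃ θ : U H →* ℂ, θ = (χ i).comp res := ⟨_, rfl⟩
    rw [← hθd] at hθi
    have e0 : ∀ g : Gal(F/K), Om * φ (algebraMap F L' (g (Algebra.trace F L' (lamQ J')))) =
        ∑ u : U H, if res u = g then Om * φ (lamQ (smU J' u)) else 0 := by
      intro g
      rw [trace_res hAB hres g, map_sum, Finset.mul_sum]
      refine Finset.sum_congr rfl fun u _ => ?_
      by_cases hu : res u = g
      · rw [if_pos hu, if_pos hu]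
      · rw [if_neg hu, if_neg hu, map_zero, mul_zero]
    rw [Finset.sum_congr rfl fun g _ => by rw [e0 g], hsum (fun u => Om * φ (lamQ (smU J' u))) i]
    have e1 : ∀ j ∈ Finset.range (KP.k + 1), ∑ u : U H, θ u *
        E1 (embK ((rp u * y0 : 𝓞 K) : K) / embK ((pi3 ^ (KP.k - j) * m0 : 𝓞 K) : K)) =
        (embK ((η : 𝓞 K) : K) * θ u0)⁻¹ * SE θ (pi3 ^ (KP.k - j) * m0) := by
      intro j _
      refine SE_shift hθi (mul_ne_zero (pow_ne_zero _ hpi0) hm0) ?_ hη
      rw [hμ]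
      exact mul_dvd_mul_right (pow_dvd_pow _ (Nat.sub_le _ _)) _
    have e2 : ∑ u : U H, χ i (res u) * (Om * φ (lamQ (smU J' u))) =
        2 * δ * (embK ((η : 𝓞 K) : K) * θ u0)⁻¹ * ∑ j ∈ Finset.range KP.k,
          (embK ((pi3 : 𝓞 K) : K) ^ (j + 1) * SE θ (pi3 ^ (KP.k - (j + 1)) * m0) -
            3 * (embK ((pi3 : 𝓞 K) : K) ^ j * SE θ (pi3 ^ (KP.k - j) * m0))) := by
      have e3 : ∀ u : U H, χ i (res u) * (Om * φ (lamQ (smU J' u))) =
          2 * δ * ∑ j ∈ Finset.range KP.k,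
            (embK ((pi3 : 𝓞 K) : K) ^ (j + 1) * (θ u * E1 (embK ((rp u * y0 : 𝓞 K) : K) /
                embK ((pi3 ^ (KP.k - (j + 1)) * m0 : 𝓞 K) : K))) -
              3 * (embK ((pi3 : 𝓞 K) : K) ^ j * (θ u * E1 (embK ((rp u * y0 : 𝓞 K) : K) /
                embK ((pi3 ^ (KP.k - j) * m0 : 𝓞 K) : K))))) := by
        intro u
        have e4 := hval (rp u) (rp_cop u)
        have e5 : χ i (res u) = θ u := by rw [hθd]; rfl
        unfold smU
        rw [e4, e5, mul_left_comm, Finset.mul_sum]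
        congr 1
        refine Finset.sum_congr rfl fun j _ => ?_
        ring
      rw [Finset.sum_congr rfl fun u _ => e3 u, ← Finset.mul_sum, Finset.sum_comm,
        mul_assoc (2 * δ)]
      congr 1
      rw [Finset.mul_sum]
      refine Finset.sum_congr rfl fun j hj => ?_
      rw [Finset.mem_range] at hj
      rw [Finset.sum_sub_distrib, ← Finset.mul_sum, ← Finset.mul_sum, ← Finset.mul_sum,
        e1 (j + 1) (Finset.mem_range.2 (by omega)), e1 j (Finset.mem_range.2 (by omega))]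
      ring
    rw [e2]
    have hθ0 : θ u0 ≠ 0 := by
      intro h
      have h1 := hθi u0
      rw [h, norm_zero] at h1
      exact zero_ne_one h1
    refine mul_ne_zero (mul_ne_zero (mul_ne_zero two_ne_zero hδ)
      (inv_ne_zero (mul_ne_zero hη0 hθ0))) ?_
    have hpC := MP_1a91b9_ntT.DG.zc_ne hpi0
    obtain ⟨ρ, hρ, hlast⟩ := SE_last hAB hM hθi hμ KP.pos h3
    refine comb_ne KP.pos (fun j => embK ((pi3 : 𝓞 K) : K) ^ j *
      SE θ (pi3 ^ (KP.k - j) * m0)) (p := embK ((pi3 : 𝓞 K) : K)) (ρ := ρ) norm_pi3_sq hρ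
      ?_ ?_ ?_
    · beta_reduce
      rw [pow_zero, one_mul, Nat.sub_zero, ← hμ, hθd]
      exact hSE i
    · intro j hj hne
      beta_reduce at hne ⊢
      have h4 := right_ne_zero_of_mul hne
      obtain ⟨i', hi'⟩ : ∃ i', KP.k - (j + 1) = i' + 1 := ⟨KP.k - (j + 1) - 1, by omega⟩
      have hi2 : KP.k - j = i' + 2 := by omega
      rw [hi'] at h4 ⊢
      rw [hi2]
      have h5 := SE_step hAB hM hθi hμ (i := i') (by omega) h4
      rw [pow_succ, mul_assoc, h5]
      ring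
    · intro hne
      beta_reduce at hne ⊢
      have h4 := right_ne_zero_of_mul hne
      rw [Nat.sub_self, pow_zero, one_mul] at h4 ⊢
      have h5 := hlast h4
      have h6 : KP.k - (KP.k - 1) = 1 := by
        have := KP.pos
        omega
      rw [h6]
      have h7 : embK ((pi3 : 𝓞 K) : K) ^ KP.k =
          embK ((pi3 : 𝓞 K) : K) * embK ((pi3 : 𝓞 K) : K) ^ (KP.k - 1) := by
        rw [← pow_succ']
        congr 1
        have := KP.pos
        omega
      rw [h7]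
      linear_combination (embK ((pi3 : 𝓞 K) : K) * embK ((pi3 : 𝓞 K) : K) ^ (KP.k - 1)) * h5
  -- the determinant
  intro h0
  have h1 := hch (fun g => Om * φ (algebraMap F L' (g (Algebra.trace F L' (lamQ J')))))
  beta_reduce at h1
  have h2 : ε * ∏ i, ∑ g : Gal(F/K), χ i g *
      (Om * φ (algebraMap F L' (g (Algebra.trace F L' (lamQ J'))))) ≠ 0 :=
    mul_ne_zero (DNE_pm hε) (Finset.prod_ne_zero_iff.2 fun i _ => hchar i)
  apply h2
  rw [← h1]
  have e1 : φ (algebraMap F L' (dL F L' J')) =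
      Matrix.det (((φ : L' →+* ℂ).comp (algebraMap F L')).mapMatrix
        (Matrix.of fun g h : Gal(F/K) => (g * h) (Algebra.trace F L' (lamQ J')))) := by
    rw [← RingHom.map_det]
    rfl
  have e2 : Om ^ Fintype.card Gal(F/K) * φ (algebraMap F L' (dL F L' J')) =
      Matrix.det (Matrix.of fun g h : Gal(F/K) =>
        Om * φ (algebraMap F L' ((g * h) (Algebra.trace F L' (lamQ J'))))) := by
    rw [e1, ← Matrix.det_smul]
    refine congrArg Matrix.det ?_
    ext g h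
    rfl
  rw [← e2, h0, map_zero, map_zero, mul_zero]

end

end

end Pool.Agent.Lib.MP_1a91b9_ntX.DK
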