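import Pool.Agent.Lib.MP_1a91b9_ntX.DK.Vt
import Pool.Agent.Lib.MP_1a91b9_ntX.DK.DNe
import Pool.Agent.Lib.MP_1a91b9_ntX.DG.DtD
import Pool.Agent.Lib.MP_1a91b9_ntX.DG.TF
import Pool.Agent.Lib.MP_1a91b9_ntX.DG.NuM

/-!
# The base field without condition on the degree
-/

set_option autoImplicit false

namespace Pool.Agent.Lib.MP_1a91b9_ntX.DK

open NumberField IsDedekindDomain WeierstrassCurve Pool.Agent.Lib.MP_1a91b9_ntT
open Pool.Agent.Lib.MP_1a91b9_ntX.DB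
open Pool.Agent.Lib.MP_1a91b9_ntX.DG

noncomputable section

private theorem base_fin {μ : 𝓞 K} {H : Subgroup (CU μ)} (hμ : μ ≠ 0) : Finite (U H) := by
  have h1 : Finite (𝓞 K ⧸ Ideal.span {μ}) := by
    refine Ideal.finiteQuotientOfFreeOfNeBot _ ?_
    rw [Ne, Ideal.span_singleton_eq_bot]
    exact hμ
  infer_instance

private theorem base_cop {μ : 𝓞 K} {ℓ : ℕ} (hℓ : ℓ.Prime) (hμ : ¬ ℓ ∣ TG.nAb μ) :
    IsCoprime (ℓ : 𝓞 K) μ := by
  have h1 : IsCoprime (ℓ : ℤ) (TG.nAb μ : ℤ) := by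
    rw [Nat.isCoprime_iff_coprime]
    exact (Nat.Prime.coprime_iff_not_dvd hℓ).2 hμ
  have h2 := h1.map (Int.castRingHom (𝓞 K))
  rw [map_natCast, map_natCast] at h2
  exact IsCoprime.of_isCoprime_of_dvd_right h2 (TG.dvd_nAb μ)

private theorem base_dvd {F : Type} [Field F] [NumberField F] (v : HeightOneSpectrum (𝓞 F))
    {ℓ : ℕ} (hℓ : ℓ.Prime) (hv : (ℓ : 𝓞 F) ∈ v.asIdeal) : ℓ ∣ Ideal.absNorm v.asIdeal := by
  by_contra hnd
  have h1 : IsCoprime (ℓ : ℤ) (Ideal.absNorm v.asIdeal : ℤ) := by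
    rw [Nat.isCoprime_iff_coprime]
    exact (Nat.Prime.coprime_iff_not_dvd hℓ).2 hnd
  obtain ⟨a, b, hab⟩ := h1.map (Int.castRingHom (𝓞 F))
  rw [map_natCast, map_natCast] at hab
  apply v.isPrime.ne_top
  rw [Ideal.eq_top_iff_one, ← hab]
  exact v.asIdeal.add_mem (v.asIdeal.mul_mem_left _ hv)
    (v.asIdeal.mul_mem_left _ (Ideal.absNorm_mem v.asIdeal))

variable [DD] [HC]

section
variable {L : Type} [Field L] [NumberField L] [Algebra K L] [DecidableEq L]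

omit [HC] [NumberField L] in
/-- the annihilator of a torsion point -/
private theorem STDF_ann {T : Pt L} {n : ℕ} (hn : n ≠ 0) (h : n • T = 0) :
    ∃ ν : 𝓞 K, ν ≠ 0 ∧ Ord ν T := by
  have hpid : IsPrincipalIdealRing (𝓞 K) := IsCyclotomicExtension.Rat.three_pid K
  let I : Ideal (𝓞 K) :=
    { carrier := {a | sm L a T = 0}
      add_mem' := fun {a b} ha hb => by
        change sm L (a + b) T = 0
        have ha' : sm L a T = 0 := ha
        have hb' : sm L b T = 0 := hb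
        rw [map_add]
        change sm L a T + sm L b T = 0
        rw [ha', hb', add_zero]
      zero_mem' := by
        change sm L 0 T = 0
        rw [map_zero]
        rfl
      smul_mem' := fun c a ha => by
        change sm L (c * a) T = 0
        have ha' : sm L a T = 0 := ha
        rw [← sm_sm, ha', map_zero] }
  have hI : ∀ a, a ∈ I ↔ sm L a T = 0 := fun a => Iff.rfl
  obtain ⟨ν, hν⟩ := (IsPrincipalIdealRing.principal I).principal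
  have hν' : ∀ a, a ∈ I ↔ ν ∣ a := by
    intro a
    rw [hν, Ideal.submodule_span_eq, Ideal.mem_span_singleton]
  refine ⟨ν, ?_, fun c => by rw [← hI, hν']⟩
  rintro rfl
  have h1 : ((n : ℕ) : 𝓞 K) ∈ I := by
    rw [hI, sm_nat, h]
  rw [hν', zero_dvd_iff] at h1
  exact hn (by exact_mod_cast h1)

end

section
variable {μ : 𝓞 K} {H : Subgroup (CU μ)} {F L' : Type} [Field F] [NumberField F] [Algebra K F]
  [Field L'] [NumberField L'] [Algebra K L'] [Algebra F L'] [IsScalarTower K F L']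
  [DecidableEq L'] {J' : Pt L'} (hAB : AB H F L' J')
include hAB

theorem large (hM : Md μ) {k : ℕ} (hk : 0 < k) {m0 : 𝓞 K} (hμ : μ = pi3 ^ k * m0)
    (h3 : ¬ pi3 ∣ m0) (hl : ¬ μ ∣ pi3 ^ k)
    (hL : AN.LGood F) : ∃ B : ℕ, ∀ (ϖ : 𝓞 K) (ℓ q : ℕ), PD ϖ ℓ q → B < ℓ →
      VT ϖ ℓ F ∧ DT ϖ F := by
  classical
  let iK : KP := ⟨k, hk⟩
  obtain ⟨B1, hB1⟩ := dt_large F
  have hd := dL_ne hAB hM (m0 := m0) hμ h3 hl hL
  have hfin : {w : HeightOneSpectrum (𝓞 F) | od w (dL F L' J') ≠ 0}.Finite := od_finite hd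
  have hfU : Finite (U H) := base_fin hAB.ne
  refine ⟨B1 + TG.nAb μ + Nat.card (U H) +
    ∑ w ∈ hfin.toFinset, Ideal.absNorm w.asIdeal, ?_⟩
  intro ϖ ℓ q h hB
  have hℓ := h.hl
  have hcpos : 0 < Nat.card (U H) := Nat.card_pos
  have hcu : ¬ ℓ ∣ Nat.card (U H) := fun hdv =>
    absurd (Nat.le_of_dvd hcpos hdv) (by omega)
  have hnA : ¬ ℓ ∣ TG.nAb μ := fun hdv =>
    absurd (Nat.le_of_dvd (Nat.pos_of_ne_zero (TG.nAb_ne hAB.ne)) hdv) (by omega)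
  have hco := base_cop hℓ hnA
  have hunr := unrF hAB hℓ h.five h.good hco
  have hn : ¬ ϖ ∣ μ := by
    intro hdv
    obtain ⟨a, b, hab⟩ := hco
    refine h.prime.not_isUnit (isUnit_of_dvd_one ?_)
    rw [← hab]
    exact dvd_add (Dvd.dvd.mul_left h.dvd a) (Dvd.dvd.mul_left hdv b)
  have hdt : DT ϖ F := hB1 ϖ ℓ q h (by omega)
  refine ⟨vtG hAB hl h hn hcu hunr hdt fun v hv => ?_, hdt⟩
  by_contra hne
  have hmem : v ∈ hfin.toFinset := by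
    rw [Set.Finite.mem_toFinset]
    intro h0
    exact hne ((val_eq_one_iff v hd).2 h0)
  have hvl : v.valuation F (algebraMap (𝓞 F) F ((ℓ : ℕ) : 𝓞 F)) < 1 := by
    obtain ⟨c, hc⟩ := h.dvd
    have e : algebraMap (𝓞 F) F ((ℓ : ℕ) : 𝓞 F) =
        algebraMap K F (ϖ : K) * algebraMap K F (c : K) := by
      rw [← map_mul]
      have e1 : ((ϖ * c : 𝓞 K) : K) = (ϖ : K) * (c : K) := map_mul _ _ _
      rw [← e1, ← hc]
      have e2 : (((ℓ : ℕ) : 𝓞 K) : K) = (ℓ : K) := map_natCast _ _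
      rw [e2, map_natCast, map_natCast]
    rw [e, map_mul]
    exact mul_lt_one_of_lt_of_le hv (v_alg_le (v.valuation F) c)
  have hlv : ((ℓ : ℕ) : 𝓞 F) ∈ v.asIdeal := (v.valuation_lt_one_iff_mem _).1 hvl
  have hdv := base_dvd v hℓ hlv
  have hpos : 0 < Ideal.absNorm v.asIdeal := by
    rw [Nat.pos_iff_ne_zero, Ne, Ideal.absNorm_eq_zero_iff]
    exact v.ne_bot
  have h1 := Nat.le_of_dvd hpos hdv
  have h2 := Finset.single_le_sum
    (f := fun w : HeightOneSpectrum (𝓞 F) => Ideal.absNorm w.asIdeal)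
    (fun w _ => Nat.zero_le _) hmem
  have h3 : Ideal.absNorm v.asIdeal ≤ ∑ w ∈ hfin.toFinset, Ideal.absNorm w.asIdeal := h2
  omega

end

/-- the field of a torsion point as field `L'` -/
theorem ab_of_tf (F₀ : Type) [Field F₀] [NumberField F₀] [Algebra K F₀] {L1 : Type} [Field L1]
    [NumberField L1] [Algebra K L1] [Algebra F₀ L1] [IsScalarTower K F₀ L1] [DecidableEq L1]
    [IsGalois K L1] {μ : 𝓞 K} (hμ : μ ≠ 0) (hl : ¬ μ ∣ pi3) {R : Pt L1} (hR : Ord μ R)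
    (hgen : ∀ σ : Gal(L1/K), ga σ R = R → σ = 1) : ∃ H : Subgroup (CU μ), AB H F₀ L1 R := by
  have hone : ∀ Q : Pt L1, Ord μ Q → sm L1 (MP_1a91b9_ntT.DG.rp (1 : CU μ)) Q = Q := by
    intro Q hQ
    have h1 := (hQ.sm_eq_iff _ _).2 (MP_1a91b9_ntT.DG.rp_one (μ := μ))
    rw [h1, map_one]
    rfl
  have hmul : ∀ (Q : Pt L1) (u v : CU μ), Ord μ Q →
      sm L1 (MP_1a91b9_ntT.DG.rp (u * v)) Q =
        sm L1 (MP_1a91b9_ntT.DG.rp u) (sm L1 (MP_1a91b9_ntT.DG.rp v) Q) := by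
    intro Q u v hQ
    rw [sm_sm]
    exact (hQ.sm_eq_iff _ _).2 (MP_1a91b9_ntT.DG.rp_mul u v)
  let H' : Subgroup (CU μ) :=
    { carrier := {u | ∃ σ : Gal(L1/K), ga σ R = sm L1 (MP_1a91b9_ntT.DG.rp u) R}
      mul_mem' := fun {u v} hu hv => by
        obtain ⟨σ, hσ⟩ := hu
        obtain ⟨τ, hτ⟩ := hv
        refine ⟨τ * σ, ?_⟩
        rw [ga_mul, hσ, ga_sm, hτ, hmul R u v hR]
      one_mem' := ⟨1, by rw [ga_one, hone R hR]⟩
      inv_mem' := fun {u} hu => by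
        obtain ⟨σ, hσ⟩ := hu
        refine ⟨σ⁻¹, ?_⟩
        have h1 : ga σ⁻¹ (ga σ R) = R := by rw [← ga_mul, inv_mul_cancel, ga_one]
        rw [hσ, ga_sm] at h1
        have h2 : Ord μ (ga σ⁻¹ R) := hR.ga σ⁻¹
        have h5 := hmul (ga σ⁻¹ R) u⁻¹ u h2
        rw [h1, inv_mul_cancel, hone _ h2] at h5
        exact h5 }
  refine ⟨H', inferInstance, hμ, hR, hl, hgen, fun σ => ?_, fun u => u.2⟩
  obtain ⟨c, hc, hcJ⟩ := gal_sm (k := K) hμ hR σ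
  obtain ⟨u, hu⟩ := MP_1a91b9_ntT.DG.rp_ex hc
  have h1 : ga σ R = sm L1 (MP_1a91b9_ntT.DG.rp u) R := by
    rw [hcJ]
    exact (hR.sm_eq_iff _ _).2 hu
  exact ⟨⟨u, σ, h1⟩, h1⟩

/-- the modulus -/
theorem exists_md {m : 𝓞 K} (hm : m ≠ 0) : ∃ (μ m0 : 𝓞 K) (k : ℕ), 0 < k ∧ Md μ ∧
    μ = pi3 ^ k * m0 ∧ ¬ pi3 ∣ m0 ∧ ¬ μ ∣ pi3 ^ k ∧ ¬ μ ∣ pi3 ∧ m ∣ μ := by
  have hb0 : (bO : 𝓞 K) ≠ 0 := by
    show ((6 * DD.D : ℤ) : 𝓞 K) ≠ 0
    rw [Ne, Int.cast_eq_zero]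
    exact mul_ne_zero (by norm_num) DD.ne
  have hc0 : m * bO * HC.f ≠ 0 := mul_ne_zero (mul_ne_zero hm hb0) HC.hd.ne
  obtain ⟨k, m0, hm0, hc⟩ := WfDvdMonoid.max_power_factor hc0 prime_pi3.irreducible
  have hpf : pi3 ∣ (HC.f : 𝓞 K) := pi3_dvd_three.trans HC.hd.three
  have hk : 0 < k := by
    rw [Nat.pos_iff_ne_zero]
    rintro rfl
    apply hm0
    rw [pow_zero, one_mul] at hc
    rw [← hc]
    exact hpf.mul_left _
  have h2μ : (2 : 𝓞 K) ∣ pi3 ^ k * m0 := by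
    rw [← hc]
    refine Dvd.dvd.mul_right (Dvd.dvd.mul_left ?_ _) _
    show (2 : 𝓞 K) ∣ ((6 * DD.D : ℤ) : 𝓞 K)
    exact ⟨((3 * DD.D : ℤ) : 𝓞 K), by push_cast; ring⟩
  have hnk : ¬ pi3 ^ k * m0 ∣ pi3 ^ k := by
    intro hd
    have h2 : (2 : 𝓞 K) ∣ pi3 ^ k := h2μ.trans hd
    have hcop : IsCoprime (2 : 𝓞 K) pi3 := by
      obtain ⟨e, he⟩ := pi3_dvd_three
      exact ⟨-1, e, by linear_combination -he⟩
    have h4 := (hcop.pow_right (n := k)).isUnit_of_dvd' dvd_rfl h2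
    have e3 := S4.u4_absNorm_p (K := K) 2
    have h5 : Ideal.span {(2 : 𝓞 K)} = ⊤ := Ideal.span_singleton_eq_top.2 h4
    rw [Nat.cast_ofNat, h5, Ideal.absNorm_top] at e3
    omega
  refine ⟨pi3 ^ k * m0, m0, k, hk, ⟨?_, ?_, ?_⟩, rfl, hm0, hnk, fun h => hnk ?_, ?_⟩
  · rw [← hc]
    exact hc0
  · intro P hP
    rw [← hc]
    exact P.asIdeal.mul_mem_right _ (P.asIdeal.mul_mem_left _ hP)
  · intro a ha
    refine HC.hd.ray a ?_
    refine Dvd.dvd.trans ?_ ha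
    rw [← hc]
    exact dvd_mul_left _ _
  · exact h.trans (dvd_pow_self _ hk.ne')
  · rw [← hc, mul_assoc]
    exact dvd_mul_right _ _

/-- **The base field of THEOREM G2, without condition on the degree.** -/
theorem base_all {F₀ L : Type} [Field F₀] [NumberField F₀] [Algebra K F₀] [Field L]
    [NumberField L] [Algebra K L] [Algebra F₀ L] [IsScalarTower K F₀ L] [DecidableEq L]
    {T₀ : Pt L} {n : ℕ} (hn : n ≠ 0) (hT : n • T₀ = 0)
    (hgen : IntermediateField.adjoin K {xc T₀, yc T₀} = ⊤) (hL : AN.LGood F₀) :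
    ∃ B : ℕ, ∀ (ϖ : 𝓞 K) (ℓ q : ℕ), PD ϖ ℓ q → B < ℓ → VT ϖ ℓ F₀ ∧ DT ϖ F₀ := by
  obtain ⟨m, hm0, hm⟩ := STDF_ann hn hT
  obtain ⟨μ, m0, k, hk, hM, hμ, hp, hl, hl', hmμ⟩ := exists_md hm0
  obtain ⟨L1, i1, i2, i3, i4, R, hG, hR, -, hg⟩ := exists_tf hM.ne
  obtain ⟨f⟩ := emb_tf hM.ne hmμ ((hm m).2 dvd_rfl) hgen hR
  let f0 : F₀ →+* L1 := (f : L →+* L1).comp (algebraMap F₀ L)
  letI a1 : Algebra F₀ L1 := f0.toAlgebra
  have t1 : IsScalarTower K F₀ L1 := IsScalarTower.of_algebraMap_eq fun x => by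
    change algebraMap K L1 x = f (algebraMap F₀ L (algebraMap K F₀ x))
    rw [← IsScalarTower.algebraMap_apply K F₀ L, f.commutes]
  obtain ⟨H, hAB⟩ := ab_of_tf F₀ hM.ne hl' hR hg
  exact large hAB hM hk hμ hp hl hL

end

end Pool.Agent.Lib.MP_1a91b9_ntX.DK
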