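import Pool.Agent.Lib.MP_1a91b9_ntX.DG.Emb
import Pool.Agent.Lib.MP_1a91b9_ntX.DK.Unr
import Pool.Agent.Lib.MP_1a91b9_ntX.DG.Up
import Pool.Agent.Lib.MP_1a91b9_ntX.DB.Ext

/-!
# the field `L`

As in `MP_1a91b9_ntX/DG/Comp.lean`, with `KP`.
-/

set_option autoImplicit false

namespace Pool.Agent.Lib.MP_1a91b9_ntX.DK

open NumberField IsDedekindDomain WeierstrassCurve Pool.Agent.Lib.MP_1a91b9_ntT
open Pool.Agent.Lib.MP_1a91b9_ntX.DB
open Pool.Agent.Lib.MP_1a91b9_ntX.DG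

noncomputable section

variable [DD] [KP]

open scoped Classical in
private theorem comp_ext (L' : Type) [Field L'] [NumberField L'] [Algebra K L'] [IsGalois K L']
    {ϖ : 𝓞 K} (hϖ : Prime ϖ) (h1 : (3 : 𝓞 K) ∣ ϖ - 1) :
    ∃ (L : Type) (_ : Field L) (_ : NumberField L) (_ : Algebra K L) (_ : Algebra L' L)
      (_ : IsScalarTower K L' L), IsGalois K L ∧ IsGalois L' L ∧
      ∃ R : Pt L, Ord ϖ R ∧ ∀ σ : Gal(L/L'), ga σ R = R → σ = 1 := by
  obtain ⟨L, iF, iN, iK, i0, iL, t1, t2, t3, g1, g2, R, hR, hgen⟩ := exists_ext K L' hϖ h1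
  have e : i0 = iK := by
    refine Algebra.algebra_ext _ _ fun r => ?_
    have h2 := @IsScalarTower.algebraMap_apply K K L _ _ _ _ i0 iK t1 r
    exact h2.symm
  subst e
  exact ⟨L, iF, iN, i0, iL, t2, g1, g2, R, hR, hgen⟩

omit [DD] [KP] in
private theorem comp_place {L : Type} [Field L] [NumberField L] [Algebra K L] {ϖ : 𝓞 K}
    (hϖ : Prime ϖ) :
    ∃ W : HeightOneSpectrum (𝓞 L), W.valuation L (algebraMap K L (ϖ : K)) < 1 := by
  have hp : (Ideal.span {ϖ}).IsPrime := (Ideal.span_singleton_prime hϖ.ne_zero).2 hϖ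
  obtain ⟨v, hv⟩ : ∃ v : HeightOneSpectrum (𝓞 K), v.asIdeal = Ideal.span {ϖ} :=
    ⟨⟨Ideal.span {ϖ}, hp, by
      rw [Ne, Ideal.span_singleton_eq_bot]
      exact hϖ.ne_zero⟩, rfl⟩
  have hm : v.asIdeal.IsMaximal := v.isMaximal
  obtain ⟨Q, hQm, hQ⟩ := Ideal.exists_maximal_ideal_liesOver_of_isIntegral (S := 𝓞 L) v.asIdeal
  have hne : Q ≠ ⊥ := Ideal.ne_bot_of_liesOver_of_ne_bot v.ne_bot Q
  refine ⟨⟨Q, hQm.isPrime, hne⟩, ?_⟩
  have hu : (⟨Q, hQm.isPrime, hne⟩ : HeightOneSpectrum (𝓞 L)).under (𝓞 K) = v := by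
    apply HeightOneSpectrum.ext
    exact hQ.over.symm
  rw [val_map_lt, hu]
  refine (HeightOneSpectrum.valuation_lt_one_iff_mem v ϖ).2 ?_
  rw [hv]
  exact Ideal.mem_span_singleton_self ϖ

section
variable {μ : 𝓞 K} {H : Subgroup (CU μ)} {ϖ : 𝓞 K} {ℓ q : ℕ} {F L' L : Type} [Field F] [NumberField F] [Algebra K F]
  [Field L'] [NumberField L'] [Algebra K L'] [Algebra F L'] [IsScalarTower K F L']
  [DecidableEq L'] [Field L] [NumberField L] [Algebra K L] [Algebra L' L]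
  [IsScalarTower K L' L] [DecidableEq L] {J' : Pt L'} (hAB : AB H F L' J')

omit [NumberField L] [NumberField L'] in
private theorem comp_res [IsGalois K L'] (σ : Gal(L/K)) (Q : Pt L') :
    ga σ (up L Q) = up L (ga (σ.restrictNormal L') Q) := by
  have e : (IsScalarTower.toAlgHom K L' L).comp
      (((σ.restrictNormal L' : L' ≃ₐ[K] L') : L' →ₐ[K] L').restrictScalars K) =
      ((σ : L →ₐ[K] L).restrictScalars K).comp (IsScalarTower.toAlgHom K L' L) := by
    ext x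
    exact σ.restrictNormal_commutes L' x
  unfold up
  rw [Affine.Point.map_map, Affine.Point.map_map, e]

omit [NumberField L] in
include hAB in
private theorem comp_key (σ : Gal(L/K)) (hσ : ga σ (up L J') = up L J') (x : L') :
    σ (algebraMap L' L x) = algebraMap L' L x := by
  have hg : IsGalois K L' := hAB.gal
  have h1 := comp_res (L := L) σ J'
  rw [hσ] at h1
  have h2 : ga (σ.restrictNormal L') J' = J' := (up_inj h1).symm
  have h3 := hAB.gen _ h2
  have h4 := σ.restrictNormal_commutes L' x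
  rw [h3] at h4
  exact h4.symm

omit [DecidableEq L'] [NumberField L'] in
private theorem comp_gen' {R P1 : Pt L} (hϖ : ϖ ≠ 0) (hR : Ord ϖ R)
    (hgen : ∀ σ : Gal(L/L'), ga σ R = R → σ = 1) (hP : Ord ϖ P1) (τ : Gal(L/L'))
    (hτ : ga τ P1 = P1) : τ = 1 := by
  obtain ⟨f⟩ := exists_emb L
  obtain ⟨c, hc⟩ := ord_cases f hϖ hP ((hR ϖ).2 dvd_rfl)
  apply hgen
  rw [hc, ga_sm, hτ]

omit [NumberField L] [DecidableEq L'] [NumberField L'] in
private theorem comp_eq (τ : Gal(L/L')) (σ : Gal(L/K)) (h : ∀ x, τ x = σ x) (Q : Pt L) :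
    ga τ Q = ga σ Q := by
  have e : ((τ : L →ₐ[L'] L).restrictScalars K) = ((σ : L →ₐ[K] L).restrictScalars K) := by
    ext x
    exact h x
  unfold ga
  rw [e]

omit [NumberField L] in
include hAB in
private theorem comp_gen {P1 : Pt L} (hg : ∀ τ : Gal(L/L'), ga τ P1 = P1 → τ = 1)
    (σ : Gal(L/K)) (h1 : ga σ (up L J') = up L J') (h2 : ga σ P1 = P1) : σ = 1 := by
  obtain ⟨τ, hτ⟩ : ∃ τ : Gal(L/L'), ∀ x, τ x = σ x :=
    ⟨AlgEquiv.ofRingEquiv (f := (σ : L ≃+* L)) (comp_key hAB σ h1), fun _ => rfl⟩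
  have h3 := hg τ ((comp_eq τ σ hτ P1).trans h2)
  ext x
  rw [← hτ x, h3]
  rfl

include hAB in
/-- the place `v` of `L'` above `ϖ` -/
private theorem comp_v (h : PD ϖ ℓ q) (hμϖ : ¬ ϖ ∣ μ) (v : HeightOneSpectrum (𝓞 L'))
    (hv1 : v.valuation L' (algebraMap K L' (ϖ : K)) < 1) :
    od v (algebraMap K L' (ϖ : K)) = 1 ∧ v.valuation L' (bD L') = 1 := by
  have hb : v.valuation L' (bD L') = 1 := bad_of_pi h _ hv1
  have hr := unramA hAB v hb (v_cop _ (w_cop h.prime hμϖ) hv1)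
  refine ⟨?_, hb⟩
  rw [od_map (k := K), hr, Nat.cast_one, one_mul]
  exact od_prime_K h.prime _ ((val_map_lt (k := K) v _).1 hv1)

variable {N : Type} [Field N] [NumberField N] [Algebra K N]
  [Algebra F N] [IsScalarTower K F N] [IsGalois F N] [DecidableEq N] [Algebra F L] [Algebra N L]
  [IsScalarTower K F L] [IsScalarTower K N L] [IsScalarTower F N L] [IsScalarTower F L' L]

include hAB in
private theorem comp_main (hk : ¬ μ ∣ pk) (h : PD ϖ ℓ q) (hμϖ : ¬ ϖ ∣ μ)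
    (hcu : ¬ ℓ ∣ Nat.card (U H)) {P : Pt N} (hF : Full F ϖ P) (g1 : IsGalois K L)
    (g2 : IsGalois L' L) {R : Pt L} (hR : Ord ϖ R)
    (hgen : ∀ σ : Gal(L/L'), ga σ R = R → σ = 1) : TopG H ϖ ℓ q F N L P (up L J') := by
  have hg : IsGalois K L' := hAB.gal
  have hϖ0 : ϖ ≠ 0 := h.prime.ne_zero
  have hJ : Ord μ (up L J') := up_ord hAB.ord
  have hP : Ord ϖ (up L P) := up_ord hF.ord
  have hg' := comp_gen' (L' := L') hϖ0 hR hgen hP
  refine ⟨h, g1, hF, hAB.ne, hJ, hk, hμϖ, hcu, comp_gen hAB hg', ?_, ?_, ?_, ?_⟩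
  · intro σ
    obtain ⟨u, hu⟩ := hAB.mem (σ.restrictNormal L')
    refine ⟨u, ?_⟩
    rw [comp_res, hu]
    exact up_sm (L := L) (rp u) J'
  · intro u d hd
    obtain ⟨σ', hσ'⟩ := hAB.surj u
    obtain ⟨σ, hσ⟩ := AlgEquiv.restrictNormalHom_surjective (F := K) (K₁ := L') L σ'
    have hσJ : ga σ (up L J') = smU (up L J') u := by
      rw [comp_res]
      have e1 : σ.restrictNormal L' = σ' := hσ
      rw [e1, hσ']
      exact up_sm (L := L) (rp u) J'
    obtain ⟨c, hc, hcP⟩ := gal_sm (k := K) hϖ0 hP σ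
    have hcn : ¬ ϖ ∣ c := fun h1 => h.prime.not_isUnit (hc.isUnit_of_dvd' h1 dvd_rfl)
    obtain ⟨e, he⟩ := h.inv hcn
    have hen : ¬ ϖ ∣ e := by
      intro h1
      apply h.prime.not_isUnit
      apply isUnit_of_dvd_one
      have h2 := dvd_sub (Dvd.dvd.mul_left h1 c) he
      rwa [sub_sub_cancel] at h2
    obtain ⟨v, hv1⟩ := comp_place (L := L') h.prime
    obtain ⟨ho, hb⟩ := comp_v hAB h hμϖ v hv1
    obtain ⟨τ, hτ⟩ := (ram (k := L') (F := L) h.prime h.one hP hg' v ho hb).2.2 (d * e)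
      (fun h1 => (h.prime.dvd_or_dvd h1).elim hd hen)
    obtain ⟨τ', hτ'⟩ : ∃ τ' : Gal(L/K), ∀ x, τ x = τ' x :=
      ⟨τ.restrictScalars K, fun _ => rfl⟩
    have hττ := comp_eq τ τ' hτ'
    refine ⟨σ * τ', ?_, ?_⟩
    · rw [ga_mul, ← hττ, yyb_fix, hσJ]
    · rw [ga_mul, ← hττ, hτ, ga_sm, hcP, sm_sm, hP.sm_eq_iff]
      obtain ⟨z, hz⟩ := he
      exact ⟨d * z, by linear_combination d * hz⟩
  · intro σ hσ x
    rw [IsScalarTower.algebraMap_apply F L' L x]
    exact comp_key hAB σ hσ _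
  · intro W hW
    obtain ⟨v, hv⟩ : ∃ v : HeightOneSpectrum (𝓞 L'), v = W.under (𝓞 L') := ⟨_, rfl⟩
    have hv1 : v.valuation L' (algebraMap K L' (ϖ : K)) < 1 := by
      rw [hv, ← val_map_lt (k := L') W, ← IsScalarTower.algebraMap_apply K L' L]
      exact hW
    obtain ⟨ho, hb⟩ := comp_v hAB h hμϖ v hv1
    exact ((ram (k := L') (F := L) h.prime h.one hP hg' v ho hb).2.1 W hv.symm).2.2.1

end

theorem exists_top {μ : 𝓞 K} {H : Subgroup (CU μ)} {ϖ : 𝓞 K} {ℓ q : ℕ} {F L' : Type} [Field F] [NumberField F] [Algebra K F]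
    [Field L'] [NumberField L'] [Algebra K L'] [Algebra F L'] [IsScalarTower K F L']
    [DecidableEq L'] {J' : Pt L'} (hAB : AB H F L' J') (hk : ¬ μ ∣ pk) (h : PD ϖ ℓ q) (hμϖ : ¬ ϖ ∣ μ)
    (hcu : ¬ ℓ ∣ Nat.card (U H)) (N : Type) [Field N] [NumberField N] [Algebra K N]
    [Algebra F N] [IsScalarTower K F N] [IsGalois F N] [DecidableEq N] {P : Pt N}
    (hF : Full F ϖ P) :
    ∃ (L : Type) (_ : Field L) (_ : NumberField L) (_ : Algebra K L) (_ : Algebra F L)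
      (_ : Algebra N L) (_ : Algebra L' L) (_ : IsScalarTower K F L) (_ : IsScalarTower K N L)
      (_ : IsScalarTower F N L) (_ : IsScalarTower K L' L) (_ : IsScalarTower F L' L)
      (_ : DecidableEq L), TopG H ϖ ℓ q F N L P (up L J') := by
  classical
  have hg : IsGalois K L' := hAB.gal
  obtain ⟨L, iL, iNL, iK, iL', t1, g1, g2, R, hR, hgen⟩ := comp_ext L' h.prime h.one
  let iFL : Algebra F L := ((algebraMap L' L).comp (algebraMap F L')).toAlgebra
  have tFL' : IsScalarTower F L' L := IsScalarTower.of_algebraMap_eq fun _ => rfl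
  have tKF : IsScalarTower K F L := by
    refine IsScalarTower.of_algebraMap_eq fun x => ?_
    rw [IsScalarTower.algebraMap_apply K L' L, IsScalarTower.algebraMap_apply K F L',
      IsScalarTower.algebraMap_apply F L' L]
  obtain ⟨g⟩ := exists_embN h.prime hF hR
  let iNL2 : Algebra N L := g.toRingHom.toAlgebra
  have tFN : IsScalarTower F N L := by
    refine IsScalarTower.of_algebraMap_eq fun x => ?_
    exact (g.commutes x).symm
  have tKN : IsScalarTower K N L := by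
    refine IsScalarTower.of_algebraMap_eq fun x => ?_
    rw [IsScalarTower.algebraMap_apply K F L, IsScalarTower.algebraMap_apply K F N,
      IsScalarTower.algebraMap_apply F N L]
  exact ⟨L, iL, iNL, iK, iFL, iNL2, iL', tKF, tKN, tFN, t1, tFL', _,
    comp_main hAB hk h hμϖ hcu hF g1 g2 hR hgen⟩

end

end Pool.Agent.Lib.MP_1a91b9_ntX.DK

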