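import Pool.Agent.Lib.MP_1a91b9_ntX.DK.Res

/-!
# cardinalities

As in `MP_1a91b9_ntX/DG/Grc.lean`, with `KP`.
-/

set_option autoImplicit false

namespace Pool.Agent.Lib.MP_1a91b9_ntX.DK

open NumberField IsDedekindDomain WeierstrassCurve Pool.Agent.Lib.MP_1a91b9_ntT
open Pool.Agent.Lib.MP_1a91b9_ntX.DB
open Pool.Agent.Lib.MP_1a91b9_ntX.DG

noncomputable section

variable [DD] [KP]

section
variable {μ : 𝓞 K} {H : Subgroup (CU μ)} {ϖ : 𝓞 K} {ℓ q : ℕ} {F N L : Type} [Field F] [NumberField F] [Algebra K F]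
  [Field N] [NumberField N] [Algebra K N] [Algebra F N] [IsScalarTower K F N] [IsGalois F N]
  [DecidableEq N] [Field L] [NumberField L] [Algebra K L] [Algebra F L] [Algebra N L]
  [IsScalarTower K F L] [IsScalarTower K N L] [IsScalarTower F N L] [DecidableEq L]
  {P : Pt N} {J : Pt L} (hG : TopG H ϖ ℓ q F N L P J)
include hG

theorem TopG.cardNL : Module.finrank N L = Nat.card {b : U H // inB N J b} := by
  have hg : IsGalois K L := hG.gal
  have hg2 : IsGalois N L := IsGalois.tower_top_of_isGalois K N L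
  have hex : ∀ σ : Gal(L/N), ∃ b : {b : U H // inB N J b}, ga σ J = smU J b.1 := by
    intro σ
    obtain ⟨u, d, _, h1, _⟩ := hG.act (AlgEquiv.restrictScalars K σ : Gal(L/K))
    rw [resK_ga] at h1
    exact ⟨⟨u, σ, h1⟩, h1⟩
  choose f hf using hex
  rw [← IsGalois.card_aut_eq_finrank N L]
  refine Nat.card_congr (Equiv.ofBijective f ⟨?_, ?_⟩)
  · intro σ τ hστ
    have h1 : ga σ J = ga τ J := by rw [hf σ, hf τ, hστ]
    have h2 : (AlgEquiv.restrictScalars K σ : Gal(L/K)) = AlgEquiv.restrictScalars K τ := by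
      refine hG.ext' ?_ ?_
      · rw [resK_ga, resK_ga, h1]
      · rw [resK_ga, resK_ga, yyb_fix, yyb_fix]
    exact AlgEquiv.restrictScalars_injective K h2
  · rintro ⟨b, σ, hσ⟩
    refine ⟨σ, Subtype.ext ?_⟩
    have h1 := hf σ
    rw [hσ] at h1
    exact (smU_inj hG.ord h1).symm

theorem TopG.finU : Finite (U H) := by
  have hI : Ideal.span {μ} ≠ ⊥ := by
    rw [Ne, Ideal.span_singleton_eq_bot]
    exact hG.ne
  have hfin : Finite (𝓞 K ⧸ Ideal.span {μ}) := Ideal.finiteQuotientOfFreeOfNeBot _ hI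
  infer_instance

theorem TopG.cardB : Nat.card {b : U H // inB N J b} * Module.finrank K F = Nat.card (U H) := by
  have hg : IsGalois K L := hG.gal
  obtain ⟨T, hT, hcard⟩ := exists_isRes hG.pd.prime.ne_zero
  obtain ⟨e, _⟩ := hG.equiv' hT
  have h1 : Module.finrank K L = Nat.card (U H) * T.card := by
    rw [← IsGalois.card_aut_eq_finrank K L, Nat.card_congr e, Nat.card_prod, Nat.card_eq_fintype_card (α := T),
      Fintype.card_coe]
  have h2 := Full.card hG.pd hG.full
  rw [← hG.pd.norm, ← hcard, Nat.add_right_cancel_iff] at h2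
  have h3 := Module.finrank_mul_finrank K N L
  have h4 := Module.finrank_mul_finrank K F N
  rw [← h4, hG.cardNL, h2, h1] at h3
  have hpos : 0 < T.card := by
    rw [← h2]
    exact Module.finrank_pos
  refine Nat.eq_of_mul_eq_mul_right hpos ?_
  rw [← h3]
  ring

theorem TopG.copN : (Module.finrank N L).Coprime ℓ := by
  have h1 : Module.finrank N L ∣ Nat.card (U H) := by
    rw [hG.cardNL, ← hG.cardB]
    exact dvd_mul_right _ _
  refine ((Nat.Prime.coprime_iff_not_dvd hG.pd.hl).2 fun h2 => hG.cu (h2.trans h1)).symm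

theorem TopG.exists_C : ∃ C : Finset (U H → 𝓞 K), C.card = q ^ Module.finrank K F ∧
    (∀ c ∈ C, BI N ϖ J c) ∧ ∀ c ∈ C, ∀ c' ∈ C, (∀ u, ϖ ∣ c u - c' u) → c = c' := by
  classical
  have hfU : Finite (U H) := hG.finU
  let B : Subgroup (U H) :=
    { carrier := {b | inB N J b}
      mul_mem' := fun ha hb => hG.inB_mul ha hb
      one_mem' := hG.inB_one
      inv_mem' := fun ha => hG.inB_inv ha }
  have hX : Nat.card (U H ⧸ B) = Module.finrank K F := by
    have h1 := Subgroup.card_eq_card_quotient_mul_card_subgroup B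
    have h2 := hG.cardB
    have h3 : Nat.card B = Nat.card {b : U H // inB N J b} := rfl
    have h4 : 0 < Nat.card B := Nat.card_pos
    rw [← h3, h1, mul_comm] at h2
    exact (Nat.eq_of_mul_eq_mul_right h4 h2).symm
  have : Fintype (U H ⧸ B) := Fintype.ofFinite _
  obtain ⟨T, hT, hcard⟩ := exists_isRes hG.pd.prime.ne_zero
  have h0 : (0 : 𝓞 K) ∉ T := fun h => hT.nz 0 h (dvd_zero _)
  have hD : (insert 0 T).card = q := by
    rw [Finset.card_insert_of_notMem h0, hcard, hG.pd.norm]
  have huniq : ∀ x ∈ insert 0 T, ∀ y ∈ insert 0 T, ϖ ∣ x - y → x = y := by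
    intro x hx y hy hxy
    rw [Finset.mem_insert] at hx hy
    rcases hx with rfl | hx <;> rcases hy with rfl | hy
    · rfl
    · rw [zero_sub, dvd_neg] at hxy
      exact absurd hxy (hT.nz y hy)
    · rw [sub_zero] at hxy
      exact absurd hxy (hT.nz x hx)
    · exact hT.uniq x hx y hy hxy
  let φ : ((U H ⧸ B) → {x // x ∈ insert 0 T}) → (U H → 𝓞 K) := fun f u => (f (QuotientGroup.mk u)).1
  have hφ : Function.Injective φ := by
    intro f g hfg
    funext x
    obtain ⟨u, rfl⟩ := QuotientGroup.mk_surjective x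
    exact Subtype.ext (congrFun hfg u)
  refine ⟨Finset.univ.image φ, ?_, ?_, ?_⟩
  · rw [Finset.card_image_of_injective _ hφ, Finset.card_univ, Fintype.card_fun, Fintype.card_coe, hD,
      ← Nat.card_eq_fintype_card, hX]
  · intro c hc b u hb
    obtain ⟨f, _, rfl⟩ := Finset.mem_image.1 hc
    have h5 : (QuotientGroup.mk (u * b) : U H ⧸ B) = QuotientGroup.mk u :=
      QuotientGroup.mk_mul_of_mem u hb
    show ϖ ∣ (f (QuotientGroup.mk (u * b))).1 - (f (QuotientGroup.mk u)).1
    rw [h5, sub_self]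
    exact dvd_zero _
  · intro c hc c' hc' h
    obtain ⟨f, _, rfl⟩ := Finset.mem_image.1 hc
    obtain ⟨f', _, rfl⟩ := Finset.mem_image.1 hc'
    funext u
    exact huniq _ (f (QuotientGroup.mk u)).2 _ (f' (QuotientGroup.mk u)).2 (h u)

end

end

end Pool.Agent.Lib.MP_1a91b9_ntX.DK
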