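import Pool.Agent.Lib.MP_1a91b9_ntX.DK.Defs
import Pool.Agent.Lib.MP_1a91b9_ntX.DG.Up

/-!
# the Galois group of `L/K`

As in `MP_1a91b9_ntX/DG/Grp.lean`, with `KP`.
-/

set_option autoImplicit false

namespace Pool.Agent.Lib.MP_1a91b9_ntX.DK

open NumberField IsDedekindDomain WeierstrassCurve Pool.Agent.Lib.MP_1a91b9_ntT
open Pool.Agent.Lib.MP_1a91b9_ntX.DB
open Pool.Agent.Lib.MP_1a91b9_ntX.DG

noncomputable section

variable [DD] [KP]

section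
variable {μ : 𝓞 K} {H : Subgroup (CU μ)} {ϖ : 𝓞 K} {ℓ q : ℕ} {F N L : Type} [Field F] [NumberField F] [Algebra K F]
  [Field N] [NumberField N] [Algebra K N] [Algebra F N] [IsScalarTower K F N] [IsGalois F N]
  [DecidableEq N] [Field L] [NumberField L] [Algebra K L] [Algebra F L] [Algebra N L]
  [IsScalarTower K F L] [IsScalarTower K N L] [IsScalarTower F N L] [DecidableEq L]
  {P : Pt N} {J : Pt L} (hG : TopG H ϖ ℓ q F N L P J)
include hG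

theorem TopG.copM : IsCoprime μ ϖ := by
  have hpid : IsPrincipalIdealRing (𝓞 K) := IsCyclotomicExtension.Rat.three_pid K
  exact ((hG.pd.prime.irreducible.coprime_iff_not_dvd).2 hG.copw).symm

theorem TopG.ordP : Ord ϖ (up L P) := by
  exact (Ord.map (IsScalarTower.toAlgHom K N L)).2 hG.full.ord

theorem TopG.act (σ : Gal(L/K)) : ∃ (u : U H) (d : 𝓞 K), ¬ ϖ ∣ d ∧ ga σ J = smU J u ∧
    ga σ (up L P) = sm L d (up L P) := by
  obtain ⟨u, hu⟩ := hG.mem σ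
  obtain ⟨d, hd, hdP⟩ := gal_sm hG.pd.prime.ne_zero hG.ordP σ
  refine ⟨u, d, ?_, hu, hdP⟩
  intro hdd
  exact hG.pd.prime.not_isUnit (hd.isUnit_of_dvd' hdd dvd_rfl)

theorem TopG.surj2 (u : U H) {d : 𝓞 K} (hd : ¬ ϖ ∣ d) : ∃ σ : Gal(L/K), ga σ J = smU J u ∧
    ga σ (up L P) = sm L d (up L P) := hG.surj u d hd

theorem TopG.ext' {σ τ : Gal(L/K)} (h1 : ga σ J = ga τ J)
    (h2 : ga σ (up L P) = ga τ (up L P)) : σ = τ := by
  have h3 : τ⁻¹ * σ = 1 := by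
    refine hG.gen _ ?_ ?_
    · rw [ga_mul, h1, ← ga_mul, inv_mul_cancel, ga_one]
    · rw [ga_mul, h2, ← ga_mul, inv_mul_cancel, ga_one]
  exact (inv_mul_eq_one.1 h3).symm

theorem TopG.comm' (σ τ : Gal(L/K)) : σ * τ = τ * σ := by
  obtain ⟨u, d, -, h1, h2⟩ := hG.act σ
  obtain ⟨u', d', -, h3, h4⟩ := hG.act τ
  unfold smU at h1 h3
  refine hG.ext' ?_ ?_
  · rw [ga_mul, ga_mul, h1, h3, ga_sm, ga_sm, h1, h3, sm_sm, sm_sm, mul_comm]
  · rw [ga_mul, ga_mul, h2, h4, ga_sm, ga_sm, h2, h4, sm_sm, sm_sm, mul_comm]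

theorem TopG.equiv' {T : Finset (𝓞 K)} (hT : IsRes ϖ T) : ∃ e : Gal(L/K) ≃ U H × T,
    ∀ σ : Gal(L/K), ga σ J = smU J (e σ).1 ∧
      ga σ (up L P) = sm L ((e σ).2 : 𝓞 K) (up L P) := by
  have key : ∀ σ : Gal(L/K), ∃ p : U H × T, ga σ J = smU J p.1 ∧
      ga σ (up L P) = sm L (p.2 : 𝓞 K) (up L P) := by
    intro σ
    obtain ⟨u, d, hd, h1, h2⟩ := hG.act σ
    obtain ⟨a, ha, hda⟩ := hT.ex d hd
    exact ⟨(u, ⟨a, ha⟩), h1, h2.trans ((hG.ordP.sm_eq_iff d a).2 hda)⟩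
  choose f hf using key
  have hbij : Function.Bijective f := by
    constructor
    · intro σ τ hστ
      refine hG.ext' ?_ ?_
      · rw [(hf σ).1, (hf τ).1, hστ]
      · rw [(hf σ).2, (hf τ).2, hστ]
    · rintro ⟨u, a, ha⟩
      obtain ⟨σ, h1, h2⟩ := hG.surj2 u (hT.nz a ha)
      refine ⟨σ, Prod.ext ?_ (Subtype.ext ?_)⟩
      · exact smU_inj hG.ord ((hf σ).1.symm.trans h1)
      · refine hT.uniq _ (f σ).2.2 _ ha ?_
        exact (hG.ordP.sm_eq_iff _ _).1 ((hf σ).2.symm.trans h2)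
  exact ⟨Equiv.ofBijective f hbij, fun σ => hf σ⟩

end

end

end Pool.Agent.Lib.MP_1a91b9_ntX.DK
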