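import Pool.Agent.Lib.MP_1a91b9_ntX.DK.XXa
import Pool.Agent.Lib.MP_1a91b9_ntX.DK.Grp
import Pool.Agent.Lib.MP_1a91b9_ntX.DG.Dual
import Pool.Agent.Lib.MP_1a91b9_ntX.DK.Grc

/-!
# the convolution vanishes

As in `MP_1a91b9_ntX/DG/Conv.lean`, with `KP`.
-/

set_option autoImplicit false

namespace Pool.Agent.Lib.MP_1a91b9_ntX.DK

open NumberField IsDedekindDomain WeierstrassCurve Pool.Agent.Lib.MP_1a91b9_ntT
open Pool.Agent.Lib.MP_1a91b9_ntX.DB
open Pool.Agent.Lib.MP_1a91b9_ntX.DG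

noncomputable section

variable [DD] [KP]

section
variable {μ : 𝓞 K} {H : Subgroup (CU μ)} {ϖ : 𝓞 K} {ℓ q : ℕ} {F N L : Type} [Field F] [NumberField F] [Algebra K F]
  [Field N] [NumberField N] [Algebra K N] [Algebra F N] [IsScalarTower K F N] [IsGalois F N]
  [DecidableEq N] [Field L] [NumberField L] [Algebra K L] [Algebra F L] [Algebra N L]
  [IsScalarTower K F L] [IsScalarTower K N L] [IsScalarTower F N L] [DecidableEq L]
  {P : Pt N} {J : Pt L} (hG : TopG H ϖ ℓ q F N L P J)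
include hG

theorem TopG.conv_zero [Fintype (U H)] {T : Finset (𝓞 K)} {iv : 𝓞 K → 𝓞 K} {n : 𝓞 K → ℤ}
    (hT : TrD ϖ ℓ T iv n) {lam : HeightOneSpectrum (𝓞 L)} {b : ℤ}
    {f : HeightOneSpectrum (𝓞 L) → ZMod ℓ} {α η : U H → 𝓞 K}
    (hα : ∀ (c : U H → 𝓞 K) (a : ℤ),
      lam.valuation L (XX T iv n (up L P) J c - (b : L) ^ a) < 1 →
        (a : ZMod ℓ) = ∑ v : U H, ((n (α v * c v) : ℤ) : ZMod ℓ))
    (hη : ∀ (σ : Gal(L/K)) (g : U H) (d : 𝓞 K), ga σ J = smU J g →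
      ga σ (up L P) = sm L d (up L P) → f (gpl σ lam) = ((n (η g * d) : ℤ) : ZMod ℓ))
    (hth : ∀ c : U H → 𝓞 K, ∃ a : Gal(L/K) → ℤ, (∀ σ : Gal(L/K),
      (gpl σ lam).valuation L (XX T iv n (up L P) J c - (b : L) ^ a σ) < 1) ∧
      ∑ σ : Gal(L/K), (a σ : ZMod ℓ) * f (gpl σ lam) = 0) (w : U H) : ϖ ∣ conv α η w := by
  classical
  obtain ⟨e, he⟩ := hG.equiv' hT.res
  -- the main identity
  have main : ∀ c : U H → 𝓞 K, ∑ w : U H, ((n (c w * conv α η w) : ℤ) : ZMod ℓ) = 0 := by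
    intro c
    obtain ⟨a, ha, hsum⟩ := hth c
    have hterm : ∀ σ : Gal(L/K), (a σ : ZMod ℓ) * f (gpl σ lam)
        = (fun x : U H × T => (∑ v : U H, ((n (α v * (c (x.1 * v) * iv (x.2 : 𝓞 K))) : ℤ) : ZMod ℓ))
            * ((n (η x.1 * (x.2 : 𝓞 K)) : ℤ) : ZMod ℓ)) (e σ) := by
      intro σ
      obtain ⟨h1, h2⟩ := he σ
      have hd : ¬ ϖ ∣ ((e σ).2 : 𝓞 K) := hT.res.nz _ (e σ).2.2
      have h3 := hη σ (e σ).1 ((e σ).2 : 𝓞 K) h1 h2
      have hX : σ (XX T iv n (up L P) J (fun u => c ((e σ).1 * u) * iv ((e σ).2 : 𝓞 K)))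
          = XX T iv n (up L P) J c := by
        rw [XX_ga hG.pd hT hG.ordP hG.copw hG.nlam hG.ord hd h1 h2]
        apply XX_cong hG.pd hT hG.ordP hG.copw hG.nlam hG.ord
        intro u
        rw [mul_inv_cancel_left]
        obtain ⟨z, hz⟩ := hT.inv _ hd
        exact ⟨c u * z, by linear_combination (c u) * hz⟩
      have h4 : (a σ : ZMod ℓ) = ∑ v : U H,
          ((n (α v * (c ((e σ).1 * v) * iv ((e σ).2 : 𝓞 K))) : ℤ) : ZMod ℓ) := by
        apply hα (fun u => c ((e σ).1 * u) * iv ((e σ).2 : 𝓞 K)) (a σ)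
        rw [← gpl_val σ lam, map_sub, map_zpow₀, map_intCast, hX]
        exact ha σ
      change _ = (∑ v : U H, ((n (α v * (c ((e σ).1 * v) * iv ((e σ).2 : 𝓞 K))) : ℤ) : ZMod ℓ))
            * ((n (η (e σ).1 * ((e σ).2 : 𝓞 K)) : ℤ) : ZMod ℓ)
      rw [h3, h4]
    rw [Finset.sum_congr rfl (fun σ _ => hterm σ)] at hsum
    have hsum2 : ∑ x : U H × T, (∑ v : U H, ((n (α v * (c (x.1 * v) * iv (x.2 : 𝓞 K))) : ℤ) : ZMod ℓ))
            * ((n (η x.1 * (x.2 : 𝓞 K)) : ℤ) : ZMod ℓ) = 0 := by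
      rw [← hsum]
      exact (Fintype.sum_equiv e _ _ (fun σ => rfl)).symm
    rw [Fintype.sum_prod_type] at hsum2
    have hinner : ∀ g : U H, ∑ d : T, (∑ v : U H, ((n (α v * (c (g * v) * iv (d : 𝓞 K))) : ℤ) : ZMod ℓ))
            * ((n (η g * (d : 𝓞 K)) : ℤ) : ZMod ℓ)
          = - ∑ v : U H, ((n (α v * c (g * v) * η g) : ℤ) : ZMod ℓ) := by
      intro g
      simp only [Finset.sum_mul]
      rw [Finset.sum_comm, ← Finset.sum_neg_distrib]
      refine Finset.sum_congr rfl (fun v _ => ?_)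
      rw [← n_orth hG.pd hT (α v * c (g * v)) (η g), ← Finset.sum_coe_sort T]
      refine Finset.sum_congr rfl (fun d _ => ?_)
      rw [mul_assoc (α v) (c (g * v)) (iv (d : 𝓞 K))]
    simp only [hinner, Finset.sum_neg_distrib, neg_eq_zero] at hsum2
    rw [← hsum2]
    have hre : ∀ g : U H, ∑ v : U H, ((n (α v * c (g * v) * η g) : ℤ) : ZMod ℓ)
        = ∑ w : U H, ((n (α (g⁻¹ * w) * c w * η g) : ℤ) : ZMod ℓ) := by
      intro g
      refine Fintype.sum_equiv (Equiv.mulLeft g) _ _ (fun v => ?_)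
      simp only [Equiv.coe_mulLeft, inv_mul_cancel_left]
    simp only [hre]
    rw [Finset.sum_comm]
    refine Finset.sum_congr rfl (fun w _ => ?_)
    rw [← n_sum hG.pd hT]
    congr 2
    rw [conv, Finset.mul_sum]
    refine Finset.sum_congr rfl (fun g _ => ?_)
    ring
  apply n_nondeg hG.pd hT
  intro y
  have h1 := main (fun u => if u = w then y else 0)
  rw [Finset.sum_eq_single w] at h1
  · simp only [if_true] at h1
    rw [mul_comm]
    exact h1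
  · intro u _ hu
    simp only [if_neg hu, zero_mul]
    rw [TrD.zero hG.pd.toPD hT (dvd_zero _), Int.cast_zero]
  · intro hw
    exact absurd (Finset.mem_univ w) hw

end

end

end Pool.Agent.Lib.MP_1a91b9_ntX.DK
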