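import Pool.Agent.Lib.MP_1a91b9_ntX.DG.Defs

/-!
# The base field without condition on the degree: definitions

As in `MP_1a91b9_ntX/DG/Defs.lean`; the abscissa `x (Q)` is replaced by the product of the
`x (pi3 ^ j Q)`, `j < k` (`KP`).
-/

set_option autoImplicit false

namespace Pool.Agent.Lib.MP_1a91b9_ntX.DK

open NumberField IsDedekindDomain WeierstrassCurve Pool.Agent.Lib.MP_1a91b9_ntT
open Pool.Agent.Lib.MP_1a91b9_ntX.DB
open Pool.Agent.Lib.MP_1a91b9_ntX.DG

noncomputable section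

/-- the number of the factors -/
class KP where
  k : ℕ
  pos : 0 < k

/-- the power `pi3 ^ k` -/
def pk [KP] : 𝓞 K := pi3 ^ KP.k

theorem pk_eq [KP] {j : ℕ} (hj : j < KP.k) : (pk : 𝓞 K) = pi3 ^ (KP.k - 1 - j) * (pi3 * pi3 ^ j) := by
  unfold pk
  rw [← pow_succ', ← pow_add]
  congr 1
  omega

theorem pi3_dvd_pk [KP] : (pi3 : 𝓞 K) ∣ pk := dvd_pow_self _ KP.pos.ne'

variable [DD]

section
variable {F : Type*} [Field F] [Algebra K F] [DecidableEq F]

/-- the multiples of a point which is not killed by `pi3 ^ k` -/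
theorem sm_pj [KP] {Q : Pt F} (h : sm F pk Q ≠ 0) {j : ℕ} (hj : j < KP.k) :
    sm F pi3 (sm F (pi3 ^ j) Q) ≠ 0 := by
  intro e
  apply h
  rw [pk_eq hj, ← sm_sm, ← sm_sm, e, map_zero]

variable {μ : 𝓞 K} {H : Subgroup (CU μ)} {J : Pt F} (hJ : Ord μ J)
include hJ

theorem smU_lam [KP] (hl : ¬ μ ∣ pk) (u : U H) : sm F pk (smU J u) ≠ 0 :=
  fun e => hl ((smU_ord hJ u pk).1 e)

end

/-- the elliptic unit of index `c` at the torsion point `Q` -/
def xQ [KP] {N : Type} [Field N] [NumberField N] [Algebra K N] [DecidableEq N]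
    (T : Finset (𝓞 K)) (iv : 𝓞 K → 𝓞 K) (n : 𝓞 K → ℤ) (P Q : Pt N) (c : 𝓞 K) : N :=
  ∏ j ∈ Finset.range KP.k, DG.xQ T iv n (sm N (pi3 ^ j) P) (sm N (pi3 ^ j) Q) c

/-- the elliptic unit attached to a function on the residue classes -/
def XX [KP] {N : Type} [Field N] [NumberField N] [Algebra K N] [DecidableEq N] {μ : 𝓞 K}
    {H : Subgroup (CU μ)} [Fintype (U H)] (T : Finset (𝓞 K)) (iv : 𝓞 K → 𝓞 K) (n : 𝓞 K → ℤ)
    (P J : Pt N) (c : U H → 𝓞 K) : N := ∏ u : U H, xQ T iv n P (smU J u) (c u)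

/-- the logarithmic derivative at `Q` -/
def lamQ [KP] {N : Type} [Field N] [NumberField N] [Algebra K N] [DecidableEq N] (Q : Pt N) : N :=
  ∑ j ∈ Finset.range KP.k, algebraMap K N ((pi3 ^ j : 𝓞 K) : K) * DG.lamQ (sm N (pi3 ^ j) Q)

/-- the field `L = N(J)`, `N = F(P)` -/
structure TopG [KP] {μ : 𝓞 K} (H : Subgroup (CU μ)) (ϖ : 𝓞 K) (ℓ q : ℕ) (F N L : Type) [Field F]
    [NumberField F] [Algebra K F] [Field N] [NumberField N] [Algebra K N] [Algebra F N]
    [IsScalarTower K F N] [IsGalois F N] [DecidableEq N] [Field L] [NumberField L] [Algebra K L]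
    [Algebra F L] [Algebra N L] [IsScalarTower K F L] [IsScalarTower K N L] [IsScalarTower F N L]
    [DecidableEq L] (P : Pt N) (J : Pt L) : Prop where
  pd : PD ϖ ℓ q
  gal : IsGalois K L
  full : Full F ϖ P
  ne : μ ≠ 0
  ord : Ord μ J
  nlam : ¬ μ ∣ pk
  copw : ¬ ϖ ∣ μ
  cu : ¬ ℓ ∣ Nat.card (U H)
  gen : ∀ σ : Gal(L/K), ga σ J = J → ga σ (up L P) = up L P → σ = 1
  mem : ∀ σ : Gal(L/K), ∃ u : U H, ga σ J = smU J u
  surj : ∀ (u : U H) (d : 𝓞 K), ¬ ϖ ∣ d →
    ∃ σ : Gal(L/K), ga σ J = smU J u ∧ ga σ (up L P) = sm L d (up L P)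
  fixF : ∀ σ : Gal(L/K), ga σ J = J → ∀ x : F, σ (algebraMap F L x) = algebraMap F L x
  odP : ∀ W : HeightOneSpectrum (𝓞 L), W.valuation L (algebraMap K L (ϖ : K)) < 1 →
    od W (tc (up L P)) = 1

section
variable {L : Type} [Field L] [NumberField L] [Algebra K L] [DecidableEq L]

/-- non-degeneracy at `ϖ`: the condition on the values `lamQ (u J)` -/
def ND [KP] (N : Type) [Field N] [NumberField N] [Algebra K N] [Algebra N L]
    [IsScalarTower K N L] {μ : 𝓞 K} (H : Subgroup (CU μ)) (ϖ : 𝓞 K) (J : Pt L) : Prop :=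
  ∀ c : U H → 𝓞 K, BI N ϖ J c → (∀ W : HeightOneSpectrum (𝓞 L),
    W.valuation L (algebraMap K L (ϖ : K)) < 1 →
      W.valuation L (∑ᶠ u : U H, algebraMap K L (c u : K) * lamQ (smU J u)) < 1) →
    ∀ u, ϖ ∣ c u

end

/-- the determinant of the traces of `lamQ J` (an element of the base field) -/
def dL [KP] (F L : Type) [Field F] [NumberField F] [Algebra K F] [Field L]
    [NumberField L] [Algebra K L] [Algebra F L] [IsScalarTower K F L] [DecidableEq L]
    (J : Pt L) : F :=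
  haveI : DecidableEq Gal(F/K) := Classical.decEq _
  Matrix.det (Matrix.of fun g h : Gal(F/K) => (g * h) (Algebra.trace F L (lamQ J)))

section
variable [KP] {F : Type} [Field F] [NumberField F] [Algebra K F] [DecidableEq F]

/-- `lamQ` commutes with embeddings -/
theorem lamQ_pm {F' : Type} [Field F'] [NumberField F'] [Algebra K F'] [DecidableEq F']
    (f : F →ₐ[K] F') (Q : Pt F) : lamQ (pm f Q) = f (lamQ Q) := by
  unfold lamQ
  rw [map_sum]
  refine Finset.sum_congr rfl fun j _ => ?_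
  rw [map_mul, AlgHom.commutes, ← pm_sm]
  congr 1
  unfold DG.lamQ
  rw [map_div₀, map_mul, map_ofNat, xc_pm, yc_pm]

theorem lamQ_ga {k : Type} [Field k] [Algebra K k] [Algebra k F] [IsScalarTower K k F]
    (σ : Gal(F/k)) (Q : Pt F) : lamQ (ga σ Q) = σ (lamQ Q) := by
  unfold lamQ
  rw [map_sum]
  refine Finset.sum_congr rfl fun j _ => ?_
  have e : σ (algebraMap K F ((pi3 ^ j : 𝓞 K) : K)) = algebraMap K F ((pi3 ^ j : 𝓞 K) : K) := by
    rw [IsScalarTower.algebraMap_apply K k F]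
    exact σ.commutes _
  rw [map_mul, e, ← ga_sm]
  congr 1
  unfold DG.lamQ
  rw [map_div₀, map_mul, map_ofNat, xc_ga, yc_ga]

end

end

end Pool.Agent.Lib.MP_1a91b9_ntX.DK
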