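import Pool.Agent.Lib.MP_1a91b9_ntX.DG.Zp
import Pool.Agent.Lib.MP_1a91b9_ntX.DG.LamV

/-!
# The distribution relation of `E1` for any system of lifts
-/

set_option autoImplicit false

namespace Pool.Agent.Lib.MP_1a91b9_ntX.DK

open NumberField IsDedekindDomain WeierstrassCurve Pool.Agent.Lib.MP_1a91b9_ntT
open Pool.Agent.Lib.MP_1a91b9_ntX.DB
open Pool.Agent.Lib.MP_1a91b9_ntX.DG

noncomputable section

/-- every element is congruent to `0`, `1` or `2` modulo `pi3` -/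
theorem pi3_res (b : 𝓞 K) : ∃ j : Fin 3, pi3 ∣ b - ((j : ℕ) : 𝓞 K) := by
  obtain ⟨m, n, hmn⟩ := S3.exists_coords b
  have hb : b = (m : 𝓞 K) + (n : 𝓞 K) * S3.omO := by
    apply RingOfIntegers.ext
    rw [hmn]
    push_cast
    rfl
  subst hb
  have hnn := Int.emod_nonneg (m + n) (show (3 : ℤ) ≠ 0 by norm_num)
  have hlt := Int.emod_lt_of_pos (m + n) (show (0 : ℤ) < 3 by norm_num)
  refine ⟨⟨((m + n) % 3).toNat, by omega⟩, ?_⟩
  obtain ⟨e, he⟩ : pi3 ∣ (3 : 𝓞 K) := pi3_dvd_three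
  have h4 : ((((m + n) % 3).toNat : ℕ) : 𝓞 K) = (((m + n) % 3 : ℤ) : 𝓞 K) := by
    have h5 : ((((m + n) % 3).toNat : ℕ) : ℤ) = (m + n) % 3 := Int.toNat_of_nonneg hnn
    calc ((((m + n) % 3).toNat : ℕ) : 𝓞 K) = (((((m + n) % 3).toNat : ℕ) : ℤ) : 𝓞 K) :=
          (Int.cast_natCast _).symm
      _ = _ := by rw [h5]
  have h6 : (((m + n) % 3 : ℤ) : 𝓞 K) = (m : 𝓞 K) + (n : 𝓞 K) - 3 * (((m + n) / 3 : ℤ) : 𝓞 K) := by
    have h7 : (m + n) % 3 = m + n - 3 * ((m + n) / 3) := by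
      have h3 := Int.emod_add_mul_ediv (m + n) 3
      linarith
    rw [h7]
    push_cast
    ring
  change pi3 ∣ (m : 𝓞 K) + (n : 𝓞 K) * S3.omO - ((((m + n) % 3).toNat : ℕ) : 𝓞 K)
  rw [h4, h6]
  refine ⟨e * (((m + n) / 3 : ℤ) : 𝓞 K) - (n : 𝓞 K), ?_⟩
  have h8 : S3.omO = 1 - pi3 := by
    unfold MP_1a91b9_ntT.TG.pi3
    ring
  rw [h8]
  linear_combination (((m + n) / 3 : ℤ) : 𝓞 K) * he

/-- the values of `E1` at congruent numbers -/
theorem E1_cong {ν a b : 𝓞 K} (hν : ν ≠ 0) (h : ν ∣ a - b) :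
    E1 (embK (a : K) / embK (ν : K)) = E1 (embK (b : K) / embK (ν : K)) := by
  obtain ⟨e, he⟩ := h
  have h1 : a = b + ν * e := by linear_combination he
  have h2 : embK (a : K) / embK (ν : K) = embK (b : K) / embK (ν : K) + embK (e : K) := by
    rw [h1, MP_1a91b9_ntT.DG.zc_add, MP_1a91b9_ntT.DG.zc_mul, add_div,
      mul_div_cancel_left₀ _ (MP_1a91b9_ntT.DG.zc_ne hν)]
  rw [h2, E1_period]

theorem E1_mulu {ν : 𝓞 K} (η : (𝓞 K)ˣ) (a : 𝓞 K) :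
    embK ((η : 𝓞 K) : K) * E1 (embK (((η : 𝓞 K) * a : 𝓞 K) : K) / embK (ν : K)) =
      E1 (embK (a : K) / embK (ν : K)) := by
  rw [MP_1a91b9_ntT.DG.zc_mul, mul_div_assoc, MP_1a91b9_ntT.DG.zc_unit]

/-- **The distribution relation** for any three lifts. -/
theorem E1_lift {c c' : 𝓞 K} (hc' : c' ≠ 0) (hc : c = pi3 * c') (x : 𝓞 K) (r : Fin 3 → 𝓞 K)
    (h1 : ∀ i, c' ∣ r i - x) (h2 : ∀ i j, c ∣ r i - r j → i = j) :
    ∑ i : Fin 3, E1 (embK (r i : K) / embK (c : K)) =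
      embK ((pi3 : 𝓞 K) : K) * E1 (embK (x : K) / embK (c' : K)) := by
  have hc0 : c ≠ 0 := by
    rw [hc]
    exact mul_ne_zero prime_pi3.ne_zero hc'
  have hex : ∀ i, ∃ j : Fin 3, c ∣ r i - (x + ((j : ℕ) : 𝓞 K) * c') := by
    intro i
    obtain ⟨b, hb⟩ := h1 i
    obtain ⟨j, hj⟩ := pi3_res b
    obtain ⟨e, he⟩ := hj
    refine ⟨j, e, ?_⟩
    rw [hc]
    linear_combination hb + c' * he
  choose s hs using hex
  have hinj : Function.Injective s := by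
    intro i j hij
    apply h2
    have h3 := dvd_sub (hs i) (hs j)
    rw [hij] at h3
    have e : r i - (x + ((s j : ℕ) : 𝓞 K) * c') - (r j - (x + ((s j : ℕ) : 𝓞 K) * c')) =
        r i - r j := by ring
    rwa [e] at h3
  have hbij : Function.Bijective s := Finite.injective_iff_bijective.1 hinj
  rw [← E1_pi3 hc' hc x]
  refine Fintype.sum_bijective s hbij _ _ fun i => ?_
  exact E1_cong hc0 (hs i)

end

end Pool.Agent.Lib.MP_1a91b9_ntX.DK
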