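import Pool.Agent.Lib.MP_1a91b9_ntX.DK.Defs
import Pool.Agent.Lib.MP_1a91b9_ntX.DK.E1L

/-!
# The values `lamQ (a J)` in terms of `E1`
-/

set_option autoImplicit false

namespace Pool.Agent.Lib.MP_1a91b9_ntX.DK

open NumberField IsDedekindDomain WeierstrassCurve Pool.Agent.Lib.MP_1a91b9_ntT
open Pool.Agent.Lib.MP_1a91b9_ntX.DB
open Pool.Agent.Lib.MP_1a91b9_ntX.DG
open Pool.Agent.Lib.MP_1a91b9_ntT.DG (zb_fix zc_mul zc_add)

noncomputable section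

private theorem lamv_pi : embK ((pi3 : 𝓞 K) : K) = 1 - zt := by
  have e : ((pi3 : 𝓞 K) : K) = 1 - om := rfl
  rw [e, map_sub, map_one, embK_om]

theorem lam_val [DD] [KP] {μ m0 : 𝓞 K} (hμ0 : μ ≠ 0) (he : μ = pi3 ^ KP.k * m0)
    (hl : ¬ μ ∣ pk) {L : Type}
    [Field L] [NumberField L] [Algebra K L] [DecidableEq L] (φ : L →ₐ[K] ℂ) {J : Pt L}
    (hJ : Ord μ J) : ∃ (δ : ℂ) (y0 : 𝓞 K), δ ≠ 0 ∧ IsCoprime y0 μ ∧ ∀ a : 𝓞 K, IsCoprime a μ →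
      Om * φ (lamQ (sm L a J)) = 2 * δ * ∑ j ∈ Finset.range KP.k,
        (embK ((pi3 : 𝓞 K) : K) ^ (j + 1) * E1 (embK ((a * y0 : 𝓞 K) : K) /
            embK ((pi3 ^ (KP.k - (j + 1)) * m0 : 𝓞 K) : K)) -
          3 * (embK ((pi3 : 𝓞 K) : K) ^ j * E1 (embK ((a * y0 : 𝓞 K) : K) /
            embK ((pi3 ^ (KP.k - j) * m0 : 𝓞 K) : K)))) := by
  classical
  obtain ⟨δ, hδ⟩ := exists_delta
  obtain ⟨un, hsurj, h0, hc, hzt, hsm⟩ := exists_uni_delta δ hδ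
  have hδ0 : δ ≠ 0 := delta_ne ℂ hδ
  have hμC := MP_1a91b9_ntT.DG.zc_ne hμ0
  have hpi0 : (pi3 : 𝓞 K) ≠ 0 := prime_pi3.ne_zero
  have hpC := MP_1a91b9_ntT.DG.zc_ne hpi0
  have hm0 : m0 ≠ 0 := by
    rintro rfl
    exact hμ0 (by rw [he, mul_zero])
  -- the point of order three
  obtain ⟨s0, hs0⟩ := hsurj (mkPt 0 (4 * δ ^ 3) (by linear_combination hδ))
  have hs0n : s0 ∉ PP.lattice := by
    rw [← h0, hs0]
    exact mk_ne_zero _ _ _
  have hY0 : S3.Y s0 = 1 := by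
    have h1 := (hc s0 hs0n).2
    rw [hs0] at h1
    have h2 : 4 * δ ^ 3 = 4 * δ ^ 3 * S3.Y s0 := h1
    have h3 : (4 * δ ^ 3 : ℂ) ≠ 0 := mul_ne_zero (by norm_num) (pow_ne_zero _ hδ0)
    apply mul_left_cancel₀ h3
    rw [← h2, mul_one]
  have hpis : embK ((pi3 : 𝓞 K) : K) * s0 ∈ PP.lattice := by
    have hfix := neg_mem (zb_fix hs0n hY0)
    have e : -(zt * s0 - s0) = embK ((pi3 : 𝓞 K) : K) * s0 := by
      rw [lamv_pi]
      ring
    rwa [e] at hfix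
  -- the point `J`
  obtain ⟨zJ, hzJ⟩ := hsurj (pm φ J)
  have hJm : embK (μ : K) * zJ ∈ PP.lattice := by
    rw [← h0, hsm, hzJ, ← pm_sm, (hJ μ).2 dvd_rfl, map_zero]
  obtain ⟨y0, hy0⟩ := S3.mem_PP_iff.1 hJm
  have hzt' : embK (y0 : K) / embK (μ : K) = zJ := by
    rw [hy0]
    field_simp
  have hycop : IsCoprime y0 μ := by
    refine MP_1a91b9_ntT.DG.zc_cop_of hμ0 fun a ha => ?_
    rw [← hJ a]
    apply pm_inj φ
    rw [pm_sm, map_zero, ← hzJ, ← hsm, h0, S3.mem_PP_iff]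
    obtain ⟨e, he⟩ := ha
    refine ⟨e, ?_⟩
    rw [← hzt', eq_comm, mul_div_assoc', div_eq_iff hμC, ← zc_mul, ← zc_mul, he, mul_comm]
  refine ⟨δ, y0, hδ0, hycop, fun a ha => ?_⟩
  have hterm : ∀ j ∈ Finset.range KP.k, Om * φ (algebraMap K L ((pi3 ^ j : 𝓞 K) : K) *
      DG.lamQ (sm L (pi3 ^ j) (sm L a J))) = 2 * δ *
      (embK ((pi3 : 𝓞 K) : K) ^ (j + 1) * E1 (embK ((a * y0 : 𝓞 K) : K) /
          embK ((pi3 ^ (KP.k - (j + 1)) * m0 : 𝓞 K) : K)) -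
        3 * (embK ((pi3 : 𝓞 K) : K) ^ j * E1 (embK ((a * y0 : 𝓞 K) : K) /
          embK ((pi3 ^ (KP.k - j) * m0 : 𝓞 K) : K)))) := by
    intro j hj
    rw [Finset.mem_range] at hj
    obtain ⟨ν, hν⟩ : ∃ ν : 𝓞 K, ν = pi3 ^ (KP.k - j) * m0 := ⟨_, rfl⟩
    obtain ⟨ν', hν'⟩ : ∃ ν' : 𝓞 K, ν' = pi3 ^ (KP.k - (j + 1)) * m0 := ⟨_, rfl⟩
    have hνν : ν = pi3 * ν' := by
      have e : KP.k - j = (KP.k - (j + 1)) + 1 := by omega
      rw [hν, hν', e, pow_succ']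
      ring
    have hν0 : ν ≠ 0 := by
      rw [hν]
      exact mul_ne_zero (pow_ne_zero _ hpi0) hm0
    have hνC := MP_1a91b9_ntT.DG.zc_ne hν0
    have hμν : μ = pi3 ^ j * ν := by
      rw [he, hν, ← mul_assoc, ← pow_add]
      congr 2
      omega
    obtain ⟨z, hz⟩ : ∃ z : ℂ, z = embK ((a * y0 : 𝓞 K) : K) / embK (ν : K) := ⟨_, rfl⟩
    have hunz : un z = pm φ (sm L (pi3 ^ j) (sm L a J)) := by
      have e : z = embK ((pi3 ^ j * a : 𝓞 K) : K) * zJ := by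
        have hpjC := MP_1a91b9_ntT.DG.zc_ne (pow_ne_zero j hpi0)
        rw [hz, ← hzt', hμν, zc_mul (pi3 ^ j) ν, zc_mul (pi3 ^ j) a, zc_mul a y0]
        field_simp
      rw [e, hsm, hzJ, ← pm_sm, sm_sm]
    have hpz : embK ((pi3 : 𝓞 K) : K) * z ∉ PP.lattice := by
      intro h
      obtain ⟨e, he'⟩ := S3.mem_PP_iff.1 h
      rw [hz, mul_div_assoc', eq_div_iff hνC, ← zc_mul, ← zc_mul] at he'
      have h1 := MP_1a91b9_ntT.DG.zc_inj he'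
      have h2 : ν ∣ pi3 * (a * y0) := ⟨e, by rw [← h1, mul_comm]⟩
      have h3 : IsCoprime (a * y0) ν := (ha.mul_left hycop).of_isCoprime_of_dvd_right
        (by rw [hμν]; exact dvd_mul_left _ _)
      have h4 : ν ∣ pi3 := h3.symm.dvd_of_dvd_mul_right h2
      apply hl
      rw [hμν]
      refine (mul_dvd_mul_left _ h4).trans ?_
      rw [← pow_succ]
      exact pow_dvd_pow _ hj
    have hz1 : z ∉ PP.lattice := fun h => hpz (S3.mul_mem (S3.embK_mem _) h)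
    have hz2 : z - s0 ∉ PP.lattice := by
      intro h
      apply hpz
      have h1 := add_mem (S3.mul_mem (S3.embK_mem pi3) h) hpis
      have e : embK ((pi3 : 𝓞 K) : K) * (z - s0) + embK ((pi3 : 𝓞 K) : K) * s0 =
          embK ((pi3 : 𝓞 K) : K) * z := by ring
      rwa [e] at h1
    have hz3 : z + s0 ∉ PP.lattice := by
      intro h
      apply hpz
      have h1 := sub_mem (S3.mul_mem (S3.embK_mem pi3) h) hpis
      have e : embK ((pi3 : 𝓞 K) : K) * (z + s0) - embK ((pi3 : 𝓞 K) : K) * s0 =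
          embK ((pi3 : 𝓞 K) : K) * z := by ring
      rwa [e] at h1
    obtain ⟨hX, hlam⟩ := lam_E1x hs0n hY0 hz1 hz2 hz3
    have hφ : φ (DG.lamQ (sm L (pi3 ^ j) (sm L a J))) = 2 * δ * (S3.Y z / S3.X z) := by
      have h1 := (hc z hz1).1
      have h2 := (hc z hz1).2
      rw [hunz, xc_pm] at h1
      rw [hunz, yc_pm] at h2
      rw [DG.lamQ, map_div₀, map_mul, map_ofNat, h1, h2]
      field_simp
    have hsum := sum_s0 hs0n hY0 hν0 hνν (a * y0)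
    rw [← hz] at hsum
    have hpj : φ (algebraMap K L ((pi3 ^ j : 𝓞 K) : K)) = embK ((pi3 : 𝓞 K) : K) ^ j := by
      rw [AlgHom.commutes]
      change embK ((pi3 ^ j : 𝓞 K) : K) = _
      rw [← map_pow]
      rfl
    rw [← hν, ← hν', map_mul, hpj, hφ, ← hz]
    have e5 : embK ((pi3 : 𝓞 K) : K) ^ (j + 1) * E1 (embK ((a * y0 : 𝓞 K) : K) / embK (ν' : K)) =
        embK ((pi3 : 𝓞 K) : K) ^ j * (E1 (z - s0) + E1 (z + s0) + E1 z) := by
      rw [hsum]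
      ring
    rw [e5]
    linear_combination 2 * δ * embK ((pi3 : 𝓞 K) : K) ^ j * hlam
  unfold lamQ
  rw [map_sum, Finset.mul_sum, Finset.mul_sum]
  exact Finset.sum_congr rfl hterm

end

end Pool.Agent.Lib.MP_1a91b9_ntX.DK
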