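import Pool.Agent.Lib.MP_1a91b9_ntX.DK.Res
import Pool.Agent.Lib.MP_1a91b9_ntX.DK.AddK

/-!
# non-degeneracy from the determinant

As in `MP_1a91b9_ntX/DG/Nd.lean`, with `KP`.
-/

set_option autoImplicit false

namespace Pool.Agent.Lib.MP_1a91b9_ntX.DK

open NumberField IsDedekindDomain WeierstrassCurve Pool.Agent.Lib.MP_1a91b9_ntT
open Pool.Agent.Lib.MP_1a91b9_ntX.DB
open Pool.Agent.Lib.MP_1a91b9_ntX.DG

noncomputable section

variable [DD] [KP]

omit [DD] [KP] in
private theorem nd_place {L : Type} [Field L] [NumberField L] [Algebra K L] {ϖ : 𝓞 K}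
    (hϖ : Prime ϖ) :
    ∃ W : HeightOneSpectrum (𝓞 L), W.valuation L (algebraMap K L (ϖ : K)) < 1 := by
  have hp : (Ideal.span {ϖ}).IsPrime := (Ideal.span_singleton_prime hϖ.ne_zero).2 hϖ
  obtain ⟨v, hv⟩ : ∃ v : HeightOneSpectrum (𝓞 K), v.asIdeal = Ideal.span {ϖ} :=
    ⟨⟨Ideal.span {ϖ}, hp, by
      rw [Ne, Ideal.span_singleton_eq_bot]
      exact hϖ.ne_zero⟩, rfl⟩
  have hm : v.asIdeal.IsMaximal := v.isMaximal
  obtain ⟨Q, hQm, hQ⟩ := Ideal.exists_maximal_ideal_liesOver_of_isIntegral (S := 𝓞 L) v.asIdeal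
  have hne : Q ≠ ⊥ := Ideal.ne_bot_of_liesOver_of_ne_bot v.ne_bot Q
  refine ⟨⟨Q, hQm.isPrime, hne⟩, ?_⟩
  have hu : (⟨Q, hQm.isPrime, hne⟩ : HeightOneSpectrum (𝓞 L)).under (𝓞 K) = v := by
    apply HeightOneSpectrum.ext
    exact hQ.over.symm
  rw [val_map_lt, hu]
  refine (HeightOneSpectrum.valuation_lt_one_iff_mem v ϖ).2 ?_
  rw [hv]
  exact Ideal.mem_span_singleton_self ϖ

omit [DD] [KP] in
private theorem nd_det {G : Type*} [Fintype G] [DecidableEq G] {L : Type*} [Field L] {Γ : Type*}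
    [LinearOrderedCommGroupWithZero Γ] (v : Valuation L Γ) (M : Matrix G G L)
    (hM : ∀ i j, v (M i j) ≤ 1) (hdet : v M.det = 1) (c : G → L)
    (hc : ∀ i, v (∑ j, M i j * c j) < 1) (s : G) : v (c s) < 1 := by
  have hadj : ∀ i j, v (M.adjugate i j) ≤ 1 := by
    intro i j
    obtain ⟨M', h1⟩ : ∃ M' : Matrix G G v.integer, M = v.integer.subtype.mapMatrix M' :=
      ⟨Matrix.of fun i j => ⟨M i j, hM i j⟩, by
        ext i j
        rfl⟩
    rw [h1, ← RingHom.map_adjugate]
    exact (M'.adjugate i j).2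
  have h1 : (M.adjugate * M).mulVec c = M.det • c := by
    rw [Matrix.adjugate_mul, Matrix.smul_mulVec, Matrix.one_mulVec]
  have h2 : M.det * c s = ∑ i, M.adjugate s i * ∑ j, M i j * c j := by
    have h3 := congrFun h1 s
    rw [← Matrix.mulVec_mulVec] at h3
    exact h3.symm
  have h3 : v (M.det * c s) < 1 := by
    rw [h2]
    refine Valuation.map_sum_lt v one_ne_zero (fun i _ => ?_)
    rw [map_mul]
    exact (mul_le_of_le_one_left' (hadj s i)).trans_lt (hc i)
  rwa [map_mul, hdet, one_mul] at h3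

private theorem nd_lam {A B : Type} [Field A] [NumberField A] [Algebra K A] [DecidableEq A]
    [Field B] [NumberField B] [Algebra K B] [DecidableEq B] (f : A →ₐ[K] B) (Q : Pt A) :
    lamQ (pm f Q) = f (lamQ Q) := by
  exact lamQ_pm f Q

private theorem nd_upga {A B : Type} [Field A] [Algebra K A] [DecidableEq A]
    [Field B] [Algebra K B] [DecidableEq B] [Algebra A B] [IsScalarTower K A B]
    (σ : Gal(B/K)) (τ : Gal(A/K)) (h : ∀ x : A, algebraMap A B (τ x) = σ (algebraMap A B x))
    (Q : Pt A) : up B (ga τ Q) = ga σ (up B Q) := by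
  rcases cases_pt Q with rfl | ⟨x, y, hxy, rfl⟩
  · unfold up
    rw [map_zero, map_zero, map_zero]
  · obtain ⟨h1, e1⟩ := pm_mk ((τ : A →ₐ[K] A).restrictScalars K) x y hxy
    obtain ⟨h2, e2⟩ := pm_mk (IsScalarTower.toAlgHom K A B) _ _ h1
    obtain ⟨h3, e3⟩ := pm_mk (IsScalarTower.toAlgHom K A B) x y hxy
    obtain ⟨h4, e4⟩ := pm_mk ((σ : B →ₐ[K] B).restrictScalars K) _ _ h3
    unfold up
    rw [e1, e2, e3, e4, mk_inj]
    exact ⟨h x, h y⟩

section
variable {μ : 𝓞 K} {H : Subgroup (CU μ)} {ϖ : 𝓞 K} {ℓ q : ℕ} {F N L : Type} [Field F] [NumberField F] [Algebra K F]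
  [Field N] [NumberField N] [Algebra K N] [Algebra F N] [IsScalarTower K F N] [IsGalois F N]
  [DecidableEq N] [Field L] [NumberField L] [Algebra K L] [Algebra F L] [Algebra N L]
  [IsScalarTower K F L] [IsScalarTower K N L] [IsScalarTower F N L] [DecidableEq L]
  {P : Pt N} {J : Pt L} (hG : TopG H ϖ ℓ q F N L P J)
include hG

private theorem nd_ab : IsAbelianGalois K L := by
  have h1 : IsGalois K L := hG.gal
  exact { is_comm := ⟨hG.comm'⟩ }

private theorem nd_S : ∃ S : U H →* Gal(L/K), (∀ u, ga (S u) J = smU J u) ∧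
    ∀ u, ga (S u) (up L P) = up L P := by
  have h1 : ∀ u : U H, ∃ σ : Gal(L/K), ga σ J = smU J u ∧ ga σ (up L P) = up L P := by
    intro u
    obtain ⟨σ, h1, h2⟩ := hG.surj2 u (d := 1) hG.pd.prime.not_dvd_one
    refine ⟨σ, h1, ?_⟩
    rw [h2, map_one]
    rfl
  choose S hS1 hS2 using h1
  have hmul : ∀ u v : U H, S (u * v) = S u * S v := by
    intro u v
    refine hG.ext' ?_ ?_
    · rw [ga_mul, hS1, hS1]
      have h2 : ga (S u) (smU J v) = sm L (rp v) (ga (S u) J) := ga_sm (S u) (rp v) J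
      rw [h2, hS1, smU_mul hG.ord, mul_comm]
    · rw [ga_mul, hS2, hS2, hS2]
  exact ⟨MonoidHom.mk' S hmul, hS1, hS2⟩

private theorem nd_act {S : U H →* Gal(L/K)} (hS : ∀ u, ga (S u) J = smU J u) (g u : U H) :
    S g (lamQ (smU J u)) = lamQ (smU J (g * u)) := by
  have h1 : lamQ (ga (S g) (smU J u)) = S g (lamQ (smU J u)) := nd_lam _ _
  have h2 : ga (S g) (smU J u) = sm L (rp u) (ga (S g) J) := ga_sm (S g) (rp u) J
  rw [← h1, h2, hS, smU_mul hG.ord, mul_comm]

private theorem nd_fin : Finite (U H) := by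
  have h1 : Finite (𝓞 K ⧸ Ideal.span {μ}) := by
    refine Ideal.finiteQuotientOfFreeOfNeBot _ ?_
    rw [Ne, Ideal.span_singleton_eq_bot]
    exact hG.ne
  infer_instance

/-- the classes and the automorphisms of `F` -/
private theorem nd_res {S : U H →* Gal(L/K)} (hS : ∀ u, ga (S u) J = smU J u) :
    ∃ res : U H →* Gal(F/K), Function.Surjective res ∧
      (∀ u (x : F), algebraMap F L (res u x) = S u (algebraMap F L x)) ∧
      (∀ u, res u = 1 → inB N J u) ∧
      (∀ u, (∀ x : F, S u (algebraMap F L x) = algebraMap F L x) → res u = 1) := by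
  have hab : IsAbelianGalois K L := nd_ab hG
  have hab' : IsAbelianGalois K F := IsAbelianGalois.tower_bot K F L
  have hc : ∀ (σ : Gal(L/K)) (x : F), algebraMap F L (AlgEquiv.restrictNormalHom F σ x) =
      σ (algebraMap F L x) := fun σ x => AlgEquiv.restrictNormal_commutes σ F x
  refine ⟨(AlgEquiv.restrictNormalHom F).comp S, ?_, fun u x => hc (S u) x, ?_, ?_⟩
  · intro t
    obtain ⟨σ, hσ⟩ := AlgEquiv.restrictNormalHom_surjective (F := K) (K₁ := F) L t
    obtain ⟨u, d, hd, h1, h2⟩ := hG.act σ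
    refine ⟨u, ?_⟩
    have h3 : ga ((S u)⁻¹ * σ) J = J := by
      rw [ga_mul, h1, ← hS, ← ga_mul, inv_mul_cancel, ga_one]
    have h4 : AlgEquiv.restrictNormalHom F ((S u)⁻¹ * σ) = (1 : Gal(F/K)) := by
      apply AlgEquiv.ext
      intro x
      apply (algebraMap F L).injective
      rw [hc, hG.fixF _ h3]
      rfl
    rw [map_mul, map_inv, inv_mul_eq_one, hσ] at h4
    exact h4
  · intro u hu
    refine hG.inB_of_fix (hS u) fun x => ?_
    rw [← hc]
    have h1 : AlgEquiv.restrictNormalHom F (S u) = (1 : Gal(F/K)) := hu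
    rw [h1]
    rfl
  · intro u hu
    apply AlgEquiv.ext
    intro x
    apply (algebraMap F L).injective
    exact (hc (S u) x).trans (hu x)

end

section
variable {μ : 𝓞 K} {H : Subgroup (CU μ)} {ϖ : 𝓞 K} {ℓ q : ℕ} {F N L L' : Type} [Field F] [NumberField F] [Algebra K F]
  [Field N] [NumberField N] [Algebra K N] [Algebra F N] [IsScalarTower K F N] [IsGalois F N]
  [DecidableEq N] [Field L] [NumberField L] [Algebra K L] [Algebra F L] [Algebra N L]
  [IsScalarTower K F L] [IsScalarTower K N L] [IsScalarTower F N L] [DecidableEq L]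
  [Field L'] [NumberField L'] [Algebra K L'] [Algebra F L'] [IsScalarTower K F L']
  [DecidableEq L'] [Algebra L' L] [IsScalarTower K L' L] [IsScalarTower F L' L]
  {P : Pt N} {J' : Pt L'} (hAB : AB H F L' J') (hG : TopG H ϖ ℓ q F N L P (up L J'))
include hAB hG

open scoped Classical in
private theorem nd_trace [Fintype (U H)] {S : U H →* Gal(L/K)}
    (hS : ∀ u, ga (S u) (up L J') = smU (up L J') u) {res : U H →* Gal(F/K)}
    (hres : ∀ u (x : F), algebraMap F L (res u x) = S u (algebraMap F L x))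
    (hres2 : ∀ u, (∀ x : F, S u (algebraMap F L x) = algebraMap F L x) → res u = 1) :
    algebraMap F L (Algebra.trace F L' (lamQ J')) =
      ∑ u ∈ Finset.univ.filter (fun u : U H => res u = 1), lamQ (smU (up L J') u) := by
  have hg1 : IsGalois K L' := hAB.gal
  have hg2 : IsGalois F L' := IsGalois.tower_top_of_isGalois K F L'
  have hg3 : IsGalois K L := hG.gal
  have hup : ∀ u : U H, up L (smU J' u) = smU (up L J') u := fun u =>
    pm_sm (IsScalarTower.toAlgHom K L' L) (rp u) J'
  have hupi : ∀ {A B : Pt L'}, up L A = up L B → A = B := fun h =>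
    pm_inj (IsScalarTower.toAlgHom K L' L) h
  have h0 : ∀ τ : Gal(L'/F), ∃ u : U H, ga τ J' = smU J' u := by
    intro τ
    obtain ⟨u, hu⟩ := hAB.mem (AlgEquiv.restrictScalars K τ : Gal(L'/K))
    refine ⟨u, Eq.trans ?_ hu⟩
    rcases cases_pt J' with h3 | ⟨x, y, hxy, h3⟩
    · rw [h3, map_zero, map_zero]
    · rw [h3]
      rfl
  choose uf huf using h0
  rw [IsScalarTower.algebraMap_apply F L' L, trace_eq_sum_automorphisms, map_sum]
  refine Finset.sum_bij (fun τ _ => uf τ) ?_ ?_ ?_ ?_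
  · -- the image
    intro τ _
    rw [Finset.mem_filter]
    refine ⟨Finset.mem_univ _, hres2 _ fun x => ?_⟩
    obtain ⟨σ, hσ⟩ := AlgEquiv.restrictNormalHom_surjective (F := K) (K₁ := L') L
      (AlgEquiv.restrictScalars K τ)
    have hc : ∀ x : L', algebraMap L' L (τ x) = σ (algebraMap L' L x) := by
      intro x
      have h1 := AlgEquiv.restrictNormal_commutes σ L' x
      have h2 : AlgEquiv.restrictNormal σ L' = AlgEquiv.restrictScalars K τ := hσ
      rw [h2] at h1
      exact h1
    have h1 : up L (ga (AlgEquiv.restrictScalars K τ : Gal(L'/K)) J') = ga σ (up L J') :=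
      nd_upga σ (AlgEquiv.restrictScalars K τ : Gal(L'/K)) hc J'
    have h2 : ga (AlgEquiv.restrictScalars K τ : Gal(L'/K)) J' = ga τ J' := by
      rcases cases_pt J' with h3 | ⟨x, y, hxy, h3⟩
      · rw [h3, map_zero, map_zero]
      · rw [h3]
        rfl
    rw [h2, huf, hup] at h1
    have h3 : ga ((S (uf τ))⁻¹ * σ) (up L J') = up L J' := by
      rw [ga_mul, ← h1, ← hS, ← ga_mul, inv_mul_cancel, ga_one]
    have h4 := hG.fixF _ h3 x
    have h5 : σ (algebraMap F L x) = algebraMap F L x := by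
      rw [IsScalarTower.algebraMap_apply F L' L, ← hc, AlgEquiv.commutes]
    have h6 : S (uf τ) (((S (uf τ))⁻¹ * σ) (algebraMap F L x)) = σ (algebraMap F L x) := by
      rw [← AlgEquiv.mul_apply, mul_inv_cancel_left]
    rw [h4, h5] at h6
    exact h6
  · -- injectivity
    intro τ _ τ' _ h
    have h1 : ga τ J' = ga τ' J' := by
      rw [huf, huf]
      exact congrArg _ h
    have h2 : ga (τ'⁻¹ * τ) J' = J' := by
      rw [ga_mul, h1, ← ga_mul, inv_mul_cancel, ga_one]
    have h3 : ga (AlgEquiv.restrictScalars K (τ'⁻¹ * τ) : Gal(L'/K)) J' = J' := by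
      refine Eq.trans ?_ h2
      rcases cases_pt J' with h3 | ⟨x, y, hxy, h3⟩
      · rw [h3, map_zero, map_zero]
      · rw [h3]
        rfl
    have h4 := hAB.gen _ h3
    have h5 : τ'⁻¹ * τ = 1 := by
      apply AlgEquiv.ext
      intro x
      have h6 := DFunLike.congr_fun h4 x
      exact h6
    exact (inv_mul_eq_one.1 h5).symm
  · -- surjectivity
    intro u hu
    rw [Finset.mem_filter] at hu
    have hc : ∀ x : L', algebraMap L' L (AlgEquiv.restrictNormal (S u) L' x) =
        S u (algebraMap L' L x) := fun x => AlgEquiv.restrictNormal_commutes (S u) L' x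
    have hF : ∀ x : F, AlgEquiv.restrictNormal (S u) L' (algebraMap F L' x) =
        algebraMap F L' x := by
      intro x
      apply (algebraMap L' L).injective
      rw [hc, ← IsScalarTower.algebraMap_apply, ← hres, hu.2]
      rfl
    obtain ⟨τ, hτ⟩ : ∃ τ : Gal(L'/F), ∀ x, τ x = AlgEquiv.restrictNormal (S u) L' x :=
      ⟨{ AlgEquiv.restrictNormal (S u) L' with commutes' := hF }, fun x => rfl⟩
    refine ⟨τ, Finset.mem_univ _, ?_⟩
    have h1 : up L (ga (AlgEquiv.restrictNormal (S u) L') J') = ga (S u) (up L J') :=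
      nd_upga (S u) (AlgEquiv.restrictNormal (S u) L') hc J'
    have h2 : ga (AlgEquiv.restrictNormal (S u) L') J' = ga τ J' := by
      rcases cases_pt J' with h3 | ⟨x, y, hxy, h3⟩
      · rw [h3, map_zero, map_zero]
      · rw [h3]
        obtain ⟨h4, e4⟩ := pm_mk
          (((AlgEquiv.restrictNormal (S u) L' : Gal(L'/K)) : L' →ₐ[K] L').restrictScalars K) x y hxy
        obtain ⟨h5, e5⟩ := pm_mk ((τ : L' →ₐ[F] L').restrictScalars K) x y hxy
        rw [e4, e5, mk_inj]
        exact ⟨(hτ x).symm, (hτ y).symm⟩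
    rw [h2, huf, hS, ← hup] at h1
    exact smU_inj hAB.ord (hupi h1)
  · -- values
    intro τ _
    have h1 : lamQ (ga τ J') = τ (lamQ J') := nd_lam _ _
    rw [← h1, huf, ← hup]
    exact (nd_lam (IsScalarTower.toAlgHom K L' L) _).symm

end

theorem nd_of_dL {μ : 𝓞 K} {H : Subgroup (CU μ)} {ϖ : 𝓞 K} {ℓ q : ℕ} {F N L L' : Type} [Field F] [NumberField F] [Algebra K F]
    [Field N] [NumberField N] [Algebra K N] [Algebra F N] [IsScalarTower K F N] [IsGalois F N]
    [DecidableEq N] [Field L] [NumberField L] [Algebra K L] [Algebra F L] [Algebra N L]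
    [IsScalarTower K F L] [IsScalarTower K N L] [IsScalarTower F N L] [DecidableEq L]
    [Field L'] [NumberField L'] [Algebra K L'] [Algebra F L'] [IsScalarTower K F L']
    [DecidableEq L'] [Algebra L' L] [IsScalarTower K L' L] [IsScalarTower F L' L]
    {P : Pt N} {J' : Pt L'} (hAB : AB H F L' J') (hG : TopG H ϖ ℓ q F N L P (up L J'))
    (hd : ∀ v : HeightOneSpectrum (𝓞 F), v.valuation F (algebraMap K F (ϖ : K)) < 1 →
      v.valuation F (dL F L' J') = 1) : ND N H ϖ (up L J') := by
  classical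
  have hfin : Finite (U H) := nd_fin hG
  have hft : Fintype (U H) := Fintype.ofFinite _
  obtain ⟨S, hS1, hS2⟩ := nd_S hG
  obtain ⟨res, hsur, hres, hres1, hres2⟩ := nd_res hG hS1
  obtain ⟨θ, hθ⟩ : ∃ θ, θ = Algebra.trace F L' (lamQ J') := ⟨_, rfl⟩
  obtain ⟨W, hW⟩ := nd_place (L := L) hG.pd.prime
  intro c hc hw
  -- values of `lam`
  have hlam : ∀ u : U H, W.valuation L (lamQ (smU (up L J') u)) ≤ 1 := fun u =>
    lamQ_val hG.pd hG.ordP hG.copw (smU_kill hG.ord u) (smU_lam hG.ord hG.nlam u) (W.valuation L) hW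
  -- the sums over the fibres
  have hT1 := nd_trace hAB hG hS1 hres hres2
  rw [← hθ] at hT1
  have hfib : ∀ s t : Gal(F/K), ∀ g : U H, res g = t →
      ∑ u ∈ Finset.univ.filter (fun u : U H => res u = s), lamQ (smU (up L J') (g * u)) =
        algebraMap F L ((t * s) θ) := by
    intro s t g hg
    obtain ⟨a, ha⟩ := hsur s
    have h1 : algebraMap F L ((t * s) θ) = S (g * a) (algebraMap F L θ) := by
      rw [← hres, map_mul, hg, ha]
    rw [h1, hT1, map_sum]
    symm
    refine Finset.sum_bij (fun u _ => a * u) ?_ ?_ ?_ ?_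
    · intro u hu
      rw [Finset.mem_filter] at hu ⊢
      exact ⟨Finset.mem_univ _, by rw [map_mul, hu.2, mul_one, ha]⟩
    · intro u _ v _ h
      exact mul_left_cancel h
    · intro v hv
      rw [Finset.mem_filter] at hv
      refine ⟨a⁻¹ * v, ?_, mul_inv_cancel_left a v⟩
      rw [Finset.mem_filter]
      exact ⟨Finset.mem_univ _, by rw [map_mul, map_inv, hv.2, ha, inv_mul_cancel]⟩
    · intro u _
      rw [nd_act hG hS1, mul_assoc]
  -- the translates of the relation
  have hrel : ∀ g : U H,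
      W.valuation L (∑ u : U H, algebraMap K L (c u : K) * lamQ (smU (up L J') (g * u))) < 1 := by
    intro g
    have h1 : (gpl (S g)⁻¹ W).valuation L (algebraMap K L (ϖ : K)) < 1 := by
      have h2 := gpl_val (S g)⁻¹ W (algebraMap K L (ϖ : K))
      rw [AlgEquiv.commutes] at h2
      rw [h2]
      exact hW
    have h2 := hw _ h1
    rw [finsum_eq_sum_of_fintype] at h2
    have h3 := gpl_val (S g)⁻¹ W (S g (∑ u : U H, algebraMap K L (c u : K) * lamQ (smU (up L J') u)))
    have h4 : (S g)⁻¹ (S g (∑ u : U H, algebraMap K L (c u : K) * lamQ (smU (up L J') u))) =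
        ∑ u : U H, algebraMap K L (c u : K) * lamQ (smU (up L J') u) := by
      rw [← AlgEquiv.mul_apply, inv_mul_cancel]
      rfl
    rw [h4] at h3
    rw [h3, map_sum] at h2
    refine lt_of_eq_of_lt (congrArg _ (Finset.sum_congr rfl fun u _ => ?_)) h2
    rw [map_mul, AlgEquiv.commutes, nd_act hG hS1]
  -- a section
  choose r hr using hsur
  have hcr : ∀ u : U H, ϖ ∣ c u - c (r (res u)) := by
    intro u
    have h1 : res ((r (res u))⁻¹ * u) = 1 := by
      rw [map_mul, map_inv, hr, inv_mul_cancel]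
    have h2 := hc _ (r (res u)) (hres1 _ h1)
    rw [mul_inv_cancel_left] at h2
    exact h2
  have hcrv : ∀ u : U H, W.valuation L (algebraMap K L (c u : K) -
      algebraMap K L (c (r (res u)) : K)) < 1 := by
    intro u
    have h1 := (hG.pd.val_iff hW (c u - c (r (res u)))).2 (hcr u)
    have h2 : ((c u - c (r (res u)) : 𝓞 K) : K) = (c u : K) - (c (r (res u)) : K) := by
      change algebraMap (𝓞 K) K (c u - c (r (res u))) = _
      rw [map_sub]
    rw [h2, map_sub] at h1
    exact h1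
  have hmat : ∀ t : Gal(F/K), W.valuation L (∑ s : Gal(F/K), algebraMap F L ((t * s) θ) *
      algebraMap K L (c (r s) : K)) < 1 := by
    intro t
    obtain ⟨g, hg⟩ : ∃ g : U H, res g = t := ⟨r t, hr t⟩
    have h1 : ∑ s : Gal(F/K), algebraMap F L ((t * s) θ) * algebraMap K L (c (r s) : K) =
        ∑ u : U H, algebraMap K L (c (r (res u)) : K) * lamQ (smU (up L J') (g * u)) := by
      rw [← Finset.sum_fiberwise Finset.univ (fun u : U H => res u)]
      refine Finset.sum_congr rfl fun s _ => ?_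
      rw [← hfib s t g hg, Finset.sum_mul]
      refine Finset.sum_congr rfl fun u hu => ?_
      rw [Finset.mem_filter] at hu
      rw [hu.2, mul_comm]
    have h2 : ∑ u : U H, algebraMap K L (c (r (res u)) : K) * lamQ (smU (up L J') (g * u)) =
        ∑ u : U H, algebraMap K L (c u : K) * lamQ (smU (up L J') (g * u)) -
        ∑ u : U H, (algebraMap K L (c u : K) - algebraMap K L (c (r (res u)) : K)) *
          lamQ (smU (up L J') (g * u)) := by
      rw [← Finset.sum_sub_distrib]
      refine Finset.sum_congr rfl fun u _ => ?_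
      ring
    rw [h1, h2]
    refine Valuation.map_sub_lt _ (hrel g) ?_
    refine Valuation.map_sum_lt _ one_ne_zero (fun u _ => ?_)
    rw [map_mul]
    exact (mul_le_of_le_one_right' (hlam _)).trans_lt (hcrv u)
  -- the determinant
  have hdet : W.valuation L (Matrix.det (Matrix.of fun g h : Gal(F/K) =>
      algebraMap F L ((g * h) θ))) = 1 := by
    have h1 : W.valuation L (algebraMap F L (dL F L' J')) = 1 := by
      rw [val_map_eq]
      refine hd _ ?_
      rw [← val_map_lt, ← IsScalarTower.algebraMap_apply]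
      exact hW
    have h2 : algebraMap F L (dL F L' J') = Matrix.det (Matrix.of fun g h : Gal(F/K) =>
        algebraMap F L ((g * h) θ)) := by
      unfold dL
      rw [RingHom.map_det, ← hθ]
      have h3 : ∀ (i1 i2 : DecidableEq Gal(F/K)) (A B : Matrix Gal(F/K) Gal(F/K) L), A = B →
          @Matrix.det _ i1 _ _ _ A = @Matrix.det _ i2 _ _ _ B := by
        intro i1 i2 A B h
        rw [h, Subsingleton.elim i1 i2]
      refine h3 _ _ _ _ ?_
      ext i j
      rfl
    rw [← h2]
    exact h1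
  have hM : ∀ i j : Gal(F/K), W.valuation L (algebraMap F L ((i * j) θ)) ≤ 1 := by
    intro i j
    rw [← hfib j i (r i) (hr i)]
    exact Valuation.map_sum_le _ (fun u _ => hlam _)
  have hfinal := nd_det (W.valuation L) (Matrix.of fun g h : Gal(F/K) =>
      algebraMap F L ((g * h) θ)) hM hdet (fun s => algebraMap K L (c (r s) : K)) hmat
  intro u
  have h1 : ϖ ∣ c (r (res u)) := (hG.pd.val_iff hW _).1 (hfinal (res u))
  have h2 := dvd_add (hcr u) h1
  rwa [sub_add_cancel] at h2

end

end Pool.Agent.Lib.MP_1a91b9_ntX.DK
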