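import Pool.Agent.Lib.MP_1a91b9_ntX.DK.Grc

/-!
# the units `XX c` in `N`

As in `MP_1a91b9_ntX/DG/XIso.lean`, with `KP`.
-/

set_option autoImplicit false

namespace Pool.Agent.Lib.MP_1a91b9_ntX.DK

open NumberField IsDedekindDomain WeierstrassCurve Pool.Agent.Lib.MP_1a91b9_ntT
open Pool.Agent.Lib.MP_1a91b9_ntX.DB
open Pool.Agent.Lib.MP_1a91b9_ntX.DG

noncomputable section

variable [DD] [KP]

section
variable {μ : 𝓞 K} {H : Subgroup (CU μ)} {ϖ : 𝓞 K} {ℓ q : ℕ} {F N L : Type} [Field F] [NumberField F] [Algebra K F]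
  [Field N] [NumberField N] [Algebra K N] [Algebra F N] [IsScalarTower K F N] [IsGalois F N]
  [DecidableEq N] [Field L] [NumberField L] [Algebra K L] [Algebra F L] [Algebra N L]
  [IsScalarTower K F L] [IsScalarTower K N L] [IsScalarTower F N L] [DecidableEq L]
  {P : Pt N} {J : Pt L} (hG : TopG H ϖ ℓ q F N L P J)
include hG

theorem TopG.desc_pow {y : N} (hy0 : y ≠ 0) (hy : ∃ z : L, algebraMap N L y = z ^ ℓ) :
    ∃ z : N, y = z ^ ℓ := by
  by_contra h
  exact not_pow_up hG.copN hy0 h hy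

variable [Fintype (U H)] {T : Finset (𝓞 K)} {iv : 𝓞 K → 𝓞 K} {n : 𝓞 K → ℤ}
  (hT : TrD ϖ ℓ T iv n)
include hT

theorem TopG.ne_pow (hnd : ND N H ϖ J) {c : U H → 𝓞 K} (hc : BI N ϖ J c)
    (hz : ∃ z : L, XX T iv n (up L P) J c = z ^ ℓ) (u : U H) : ϖ ∣ c u := by
  obtain ⟨z, hz⟩ := hz
  refine hnd c hc (fun W hW => ?_) u
  rw [finsum_eq_sum_of_fintype]
  refine XX_pow hG.pd hT hG.ordP hG.copw hG.nlam hG.ord W hW (hG.odP W hW) (z := z) ?_
  rw [hz, sub_self, map_zero]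
  exact zero_le'

theorem TopG.XN_iso {c : U H → 𝓞 K} (hc : BI N ϖ J c) {x : Nˣ}
    (hx : algebraMap N L (x : N) = XX T iv n (up L P) J c) : Iso F ℓ P x := by
  have hBI : ∀ d : 𝓞 K, BI N ϖ J (fun u => c u * d) := by
    intro d b u hb
    have h1 := hc b u hb
    show ϖ ∣ c (u * b) * d - c u * d
    rw [← sub_mul]
    exact dvd_mul_of_dvd_left h1 d
  have hex : ∀ d : 𝓞 K, ∃ y : N, algebraMap N L y = XX T iv n (up L P) J (fun u => c u * d) :=
    fun d => hG.XX_desc hT (hBI d)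
  choose X hX using hex
  have hX0 : ∀ d : 𝓞 K, X d ≠ 0 := by
    intro d h0
    have h1 := hX d
    rw [h0, map_zero] at h1
    exact XX_ne_zero hG.pd hT hG.ordP hG.copw hG.nlam hG.ord (fun u => c u * d) h1.symm
  have hadd : ∀ d d' : 𝓞 K, el ℓ (Units.mk0 (X (d + d')) (hX0 _)) =
      el ℓ (Units.mk0 (X d) (hX0 _)) + el ℓ (Units.mk0 (X d') (hX0 _)) := by
    intro d d'
    obtain ⟨z, hz0, _, hz⟩ := XX_add hG.pd hT hG.ordP hG.copw hG.nlam hG.ord (fun u => c u * d) (fun u => c u * d')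
    have h1 : (fun u => c u * (d + d')) = fun u => c u * d + c u * d' := by
      funext u
      ring
    have h2 := hX (d + d')
    rw [h1, hz, ← hX d, ← hX d', ← map_mul] at h2
    have h3 : algebraMap N L (X (d + d') / (X d * X d')) = z ^ ℓ := by
      rw [map_div₀, h2, mul_div_assoc, mul_comm, div_mul_cancel₀]
      rw [Ne, map_eq_zero]
      exact mul_ne_zero (hX0 _) (hX0 _)
    obtain ⟨w, hw⟩ := hG.desc_pow (div_ne_zero (hX0 _) (mul_ne_zero (hX0 _) (hX0 _))) ⟨z, h3⟩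
    have hw0 : w ≠ 0 := by
      rintro rfl
      rw [zero_pow hG.pd.hl.ne_zero] at hw
      exact div_ne_zero (hX0 _) (mul_ne_zero (hX0 _) (hX0 _)) hw
    rw [← el_mul, el_eq]
    refine ⟨Units.mk0 w hw0, Units.ext ?_⟩
    show X (d + d') = X d * X d' * w ^ ℓ
    rw [← hw, mul_div_cancel₀ _ (mul_ne_zero (hX0 _) (hX0 _))]
  refine ⟨AddMonoidHom.mk' (fun d => el ℓ (Units.mk0 (X d) (hX0 d))) hadd, fun σ d hσ => ?_⟩
  show el ℓ (sg σ x) = el ℓ (Units.mk0 (X d) (hX0 d))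
  have hd : ¬ ϖ ∣ d := Full.c_ne hG.pd hG.full hσ
  have hg : IsGalois K L := hG.gal
  have hg2 : IsGalois F L := IsGalois.tower_top_of_isGalois K F L
  let σ₁ : L ≃ₐ[F] L := AlgEquiv.liftNormal σ L
  let σ' : Gal(L/K) := AlgEquiv.restrictScalars K σ₁
  have hF : ∀ y : F, σ' (algebraMap F L y) = algebraMap F L y := fun y => σ₁.commutes y
  have hN : ∀ y : N, σ' (algebraMap N L y) = algebraMap N L (σ y) := fun y =>
    AlgEquiv.liftNormal_commutes σ L y
  obtain ⟨τ, h1, h2⟩ := hG.restr hF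
  have h3 : τ = σ := by
    ext y
    refine (algebraMap N L).injective ?_
    rw [h1, hN]
  rw [h3, hσ] at h2
  have h4 : ga σ' (up L P) = sm L d (up L P) := by
    rw [← h2]
    exact pm_sm _ d P
  obtain ⟨b, _, _, h5, _⟩ := hG.act σ'
  have hb : inB N J b := hG.inB_of_fix h5 hF
  have h6 := XX_ga hG.pd hT hG.ordP hG.copw hG.nlam hG.ord hd h5 h4 c
  have h7 : XX T iv n (up L P) J (fun u => c (b⁻¹ * u) * d) = XX T iv n (up L P) J (fun u => c u * d) := by
    refine XX_cong hG.pd hT hG.ordP hG.copw hG.nlam hG.ord fun u => ?_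
    have h8 := hc b (b⁻¹ * u) hb
    rw [mul_comm b⁻¹ u, inv_mul_cancel_right] at h8
    rw [← sub_mul, mul_comm b⁻¹ u, ← neg_sub, neg_mul, dvd_neg]
    exact dvd_mul_of_dvd_left h8 d
  rw [h7, ← hx, ← hX d, hN] at h6
  refine congrArg (el ℓ) (Units.ext ?_)
  rw [sg_coe]
  exact (algebraMap N L).injective h6

end

end

end Pool.Agent.Lib.MP_1a91b9_ntX.DK
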