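import Pool.Agent.Lib.MP_1a91b9_ntX.DK.Defs
import Pool.Agent.Lib.MP_1a91b9_ntX.DG.AddK

/-!
# The units `xQ`: products of the units at the points `pi3 ^ j Q`, `pi3 ^ j P`
-/

set_option autoImplicit false

namespace Pool.Agent.Lib.MP_1a91b9_ntX.DK

open NumberField IsDedekindDomain WeierstrassCurve Pool.Agent.Lib.MP_1a91b9_ntT
open Pool.Agent.Lib.MP_1a91b9_ntX.DB
open Pool.Agent.Lib.MP_1a91b9_ntX.DG

noncomputable section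

variable [DD] [KP]

/-- `pi3 ^ j P` is again a generator -/
theorem ord_pj {F : Type*} [Field F] [Algebra K F] [DecidableEq F] {ϖ : 𝓞 K} {ℓ q : ℕ}
    (h : PD ϖ ℓ q) {P : Pt F} (hP : Ord ϖ P) (j : ℕ) : Ord ϖ (sm F (pi3 ^ j) P) :=
  hP.smul ((pi3_cop h.one).pow_left)

section
variable {N : Type} [Field N] [NumberField N] [Algebra K N] [DecidableEq N]
  {ϖ : 𝓞 K} {ℓ q : ℕ} (h : PD ϖ ℓ q) {T : Finset (𝓞 K)} {iv : 𝓞 K → 𝓞 K} {n : 𝓞 K → ℤ}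
  (hT : TrD ϖ ℓ T iv n) {P : Pt N} (hP : Ord ϖ P) {μ : 𝓞 K}
  (hμϖ : ¬ ϖ ∣ μ) {Q : Pt N} (hQ : sm N μ Q = 0) (hQ0 : sm N pk Q ≠ 0)

omit [KP] in
include hQ in
theorem kill_pj (j : ℕ) : sm N μ (sm N (pi3 ^ j) Q) = 0 := by
  rw [sm_sm, mul_comm, ← sm_sm, hQ, map_zero]

include h hT hP hμϖ hQ hQ0

theorem xQ_val {Γ : Type*} [LinearOrderedCommGroupWithZero Γ] (v : Valuation N Γ) (c : 𝓞 K) :
    v (xQ T iv n P Q c) = 1 := by
  unfold xQ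
  rw [map_prod]
  exact Finset.prod_eq_one fun j hj => DG.xQ_val h hT (ord_pj h hP j) hμϖ (kill_pj hQ j)
    (sm_pj hQ0 (Finset.mem_range.1 hj)) v c

theorem xQ_ne_zero (c : 𝓞 K) : xQ T iv n P Q c ≠ 0 :=
  Finset.prod_ne_zero_iff.2 fun j hj => DG.xQ_ne_zero h hT (ord_pj h hP j) hμϖ (kill_pj hQ j)
    (sm_pj hQ0 (Finset.mem_range.1 hj)) c

theorem xQ_zero {c : 𝓞 K} (hc : ϖ ∣ c) : xQ T iv n P Q c = 1 := by
  unfold xQ
  exact Finset.prod_eq_one fun j hj => DG.xQ_zero h hT (ord_pj h hP j) hμϖ (kill_pj hQ j)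
    (sm_pj hQ0 (Finset.mem_range.1 hj)) hc

theorem xQ_cong {c d : 𝓞 K} (hc : ϖ ∣ c - d) : xQ T iv n P Q c = xQ T iv n P Q d := by
  unfold xQ
  exact Finset.prod_congr rfl fun j hj => DG.xQ_cong h hT (ord_pj h hP j) hμϖ (kill_pj hQ j)
    (sm_pj hQ0 (Finset.mem_range.1 hj)) hc

theorem xQ_neg (c : 𝓞 K) : xQ T iv n P Q (-c) = (xQ T iv n P Q c)⁻¹ := by
  unfold xQ
  rw [← Finset.prod_inv_distrib]
  exact Finset.prod_congr rfl fun j hj => DG.xQ_neg h hT (ord_pj h hP j) hμϖ (kill_pj hQ j)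
    (sm_pj hQ0 (Finset.mem_range.1 hj)) c

theorem xQ_add (c d : 𝓞 K) : ∃ z : N, z ≠ 0 ∧ (∀ w : HeightOneSpectrum (𝓞 N), od w z = 0) ∧
    xQ T iv n P Q (c + d) = xQ T iv n P Q c * xQ T iv n P Q d * z ^ ℓ := by
  have h1 : ∀ j : Finset.range KP.k, ∃ z : N, z ≠ 0 ∧
      (∀ w : HeightOneSpectrum (𝓞 N), od w z = 0) ∧
      DG.xQ T iv n (sm N (pi3 ^ (j : ℕ)) P) (sm N (pi3 ^ (j : ℕ)) Q) (c + d) =
        DG.xQ T iv n (sm N (pi3 ^ (j : ℕ)) P) (sm N (pi3 ^ (j : ℕ)) Q) c *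
          DG.xQ T iv n (sm N (pi3 ^ (j : ℕ)) P) (sm N (pi3 ^ (j : ℕ)) Q) d * z ^ ℓ := fun j =>
    DG.xQ_add h hT (ord_pj h hP j) hμϖ (kill_pj hQ j)
      (sm_pj hQ0 (Finset.mem_range.1 j.2)) c d
  choose z hz1 hz2 hz3 using h1
  refine ⟨∏ j : Finset.range KP.k, z j, Finset.prod_ne_zero_iff.2 fun j _ => hz1 j,
    fun w => ?_, ?_⟩
  · rw [od_prod w _ _ fun j _ => hz1 j]
    exact Finset.sum_eq_zero fun j _ => hz2 j w
  · unfold xQ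
    rw [← Finset.prod_coe_sort (Finset.range KP.k), ← Finset.prod_coe_sort (Finset.range KP.k),
      ← Finset.prod_coe_sort (Finset.range KP.k), ← Finset.prod_mul_distrib, ← Finset.prod_pow,
      ← Finset.prod_mul_distrib]
    exact Finset.prod_congr rfl fun j _ => hz3 j

theorem xQ_ga {k : Type} [Field k] [Algebra K k] [Algebra k N] [IsScalarTower K k N]
    {σ : Gal(N/k)} {d : 𝓞 K} (hd : ¬ ϖ ∣ d) (hσ : ga σ P = sm N d P) (c : 𝓞 K) :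
    σ (xQ T iv n P Q c) = xQ T iv n P (ga σ Q) (c * d) := by
  unfold xQ
  rw [map_prod]
  refine Finset.prod_congr rfl fun j hj => ?_
  have h1 : ga σ (sm N (pi3 ^ j) P) = sm N d (sm N (pi3 ^ j) P) := by
    rw [ga_sm, hσ, sm_sm, sm_sm, mul_comm]
  rw [DG.xQ_ga h hT (ord_pj h hP j) hμϖ (kill_pj hQ j)
    (sm_pj hQ0 (Finset.mem_range.1 hj)) hd h1 c, ga_sm]

end

end

end Pool.Agent.Lib.MP_1a91b9_ntX.DK
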