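import Pool.Agent.Lib.MP_1a91b9_ntX.DK.AddK
import Pool.Agent.Lib.MP_1a91b9_ntX.DK.XXa
import Pool.Agent.Lib.MP_1a91b9_ntX.DG.Dst
import Pool.Agent.Lib.MP_1a91b9_ntX.DG.Up
import Pool.Agent.Lib.MP_1a91b9_ntT.DB.YY

/-!
# the units of the larger field

As in `MP_1a91b9_ntX/DG/YYG.lean`: first for one point `Q`, then the products.
-/

set_option autoImplicit false

namespace Pool.Agent.Lib.MP_1a91b9_ntX.DK

open NumberField IsDedekindDomain WeierstrassCurve Pool.Agent.Lib.MP_1a91b9_ntT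
open Pool.Agent.Lib.MP_1a91b9_ntX.DB
open Pool.Agent.Lib.MP_1a91b9_ntX.DG

noncomputable section

variable [DD] [KP]

section
variable {N L : Type} [Field N] [NumberField N] [Algebra K N] [DecidableEq N] [Field L]
  [NumberField L] [Algebra K L] [DecidableEq L] [Algebra N L] [IsScalarTower K N L]

/-- the elliptic unit of the larger field at one point -/
def yq (T : Finset (𝓞 K)) (iv : 𝓞 K → 𝓞 K) (n : 𝓞 K → ℤ)
    (P Q : Pt N) (R : Pt L) (c : 𝓞 K) : L :=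
  ∏ a ∈ T, xc (up L Q + sm L a (up L P) + R) ^ n (c * iv a)

/-- the elliptic unit of the larger field -/
def yyG {μ : 𝓞 K} {H : Subgroup (CU μ)} [Fintype (U H)] (T : Finset (𝓞 K)) (iv : 𝓞 K → 𝓞 K) (n : 𝓞 K → ℤ)
    (P J : Pt N) (R : Pt L) (c : U H → 𝓞 K) : L :=
  ∏ u : U H, ∏ j ∈ Finset.range KP.k, yq T iv n (sm N (pi3 ^ j) P) (sm N (pi3 ^ j) (smU J u))
    (sm L (pi3 ^ j) R) (c u)

omit [NumberField N] [Algebra K N] [DecidableEq N] [NumberField L] [Algebra K L] [DecidableEq L]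
  [IsScalarTower K N L] [Algebra N L] [DD] [KP] in
private theorem JYYG_zpow {κ : L} (hκ : κ ≠ 0) (s : Finset (𝓞 K)) (g : 𝓞 K → ℤ) :
    ∏ a ∈ s, κ ^ g a = κ ^ (∑ a ∈ s, g a) := by
  classical
  induction s using Finset.induction_on with
  | empty => simp
  | insert a s ha ih =>
    rw [Finset.prod_insert ha, Finset.sum_insert ha, ih, zpow_add₀ hκ]

private theorem JYYG_up0 : up L (0 : Pt N) = 0 := map_zero _

variable {ϖ : 𝓞 K} {ℓ q : ℕ} (h : PD ϖ ℓ q) {T : Finset (𝓞 K)} {iv : 𝓞 K → 𝓞 K} {n : 𝓞 K → ℤ}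
  (hT : TrD ϖ ℓ T iv n) {P : Pt N} (hP : Ord ϖ P) {μ : 𝓞 K}
  (hμϖ : ¬ ϖ ∣ μ) {Q : Pt N} (hQ : sm N μ Q = 0) (hQ0 : sm N pi3 Q ≠ 0) {β β' : 𝓞 K} {p : ℕ}
  (hβ : Deg1 β p) (hβ' : Associated β β') (hβϖ : ¬ β ∣ ϖ) {R : Pt L} (hR : Ord β R)
  (hμβ : μ ∣ β' - 1)

include hβ' hμβ in
omit [DD] [KP] in
private theorem JYYG_copb : IsCoprime μ β := by
  obtain ⟨w, hw⟩ := hβ'
  obtain ⟨c, hc⟩ := hμβ
  refine ⟨-c, (w : 𝓞 K), ?_⟩
  rw [← hw] at hc
  linear_combination hc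

include h hμϖ hβ' hμβ in
private theorem JYYG_cop : IsCoprime μ (β * ϖ) :=
  (JYYG_copb hβ' hμβ).mul_right (w_cop h.prime hμϖ)

include h hβ in
private theorem JYYG_cop3 : IsCoprime pi3 (β * ϖ) :=
  (pi3_cop hβ.one).mul_right (pi3_cop h.one)

include hQ in
private theorem JYYG_kill : sm L μ (up L Q) = 0 := by
  rw [← up_sm, hQ]
  exact JYYG_up0

include hQ0 in
private theorem JYYG_lam : sm L pi3 (up L Q) ≠ 0 := by
  rw [← up_sm]
  intro e
  exact hQ0 (up_inj (e.trans JYYG_up0.symm))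

include hP in
private theorem JYYG_killP (a : 𝓞 K) : sm L ϖ (sm L a (up L P)) = 0 := by
  rw [sm_sm]
  exact (up_ord hP _).2 (dvd_mul_right _ _)

include hP hR in
private theorem JYYG_pk (a : 𝓞 K) : sm L (β * ϖ) (sm L a (up L P) + R) = 0 := by
  have h1 : sm L (β * ϖ) (sm L a (up L P)) = 0 := by
    rw [← sm_sm, JYYG_killP hP, map_zero]
  have h2 : sm L (β * ϖ) R = 0 := (hR _).2 (dvd_mul_right _ _)
  rw [map_add, h1, h2, add_zero]

include hP hR hβϖ in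
private theorem JYYG_pn (a : 𝓞 K) : sm L a (up L P) + R ≠ 0 := by
  intro e
  refine hβϖ ((hR ϖ).1 ?_)
  have e1 := congrArg (sm L ϖ) e
  rw [map_add, map_zero, JYYG_killP hP, zero_add] at e1
  exact e1

include h hP hμϖ hQ hQ0 hβ hβ' hβϖ hR hμβ in
private theorem JYYG_ne (a : 𝓞 K) :
    xc (up L Q + sm L a (up L P) + R) ≠ 0 := by
  rw [add_assoc]
  exact xD_ne (JYYG_cop h hμϖ hβ' hμβ) (JYYG_cop3 h hβ) (JYYG_kill hQ) (JYYG_lam hQ0)
    (JYYG_pk hP hR a) (JYYG_pn hP hβϖ hR a)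

include h in
private theorem JYYG_one : ¬ ϖ ∣ (1 : 𝓞 K) := fun e => h.prime.not_isUnit (isUnit_of_dvd_one e)

include h hT hP hμϖ hQ hQ0 hβ hβ' hβϖ hR hμβ

theorem yq_val {Γ : Type*} [LinearOrderedCommGroupWithZero Γ] (v : Valuation L Γ)
    (c : 𝓞 K) : v (yq T iv n P Q R c) = 1 := by
  unfold yq
  have h1 := JYYG_ne h hP hμϖ hQ hQ0 hβ hβ' hβϖ hR hμβ 1
  have h2 : v (∏ a ∈ T, xc (up L Q + sm L a (up L P) + R) ^ n (c * iv a)) =
      v (∏ a ∈ T, xc (up L Q + sm L 1 (up L P) + R) ^ n (c * iv a)) := by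
    rw [map_prod, map_prod]
    refine Finset.prod_congr rfl fun a _ => ?_
    rw [map_zpow₀, map_zpow₀, add_assoc, add_assoc,
      xD_eq (JYYG_cop h hμϖ hβ' hμβ) (JYYG_cop3 h hβ) (JYYG_kill hQ) (JYYG_lam hQ0)
        (JYYG_pk hP hR a) (JYYG_pn hP hβϖ hR a) v (JYYG_cop h hμϖ hβ' hμβ) (JYYG_cop3 h hβ)
        (JYYG_kill hQ) (JYYG_lam hQ0) (JYYG_pk hP hR 1) (JYYG_pn hP hβϖ hR 1)]
  rw [h2, JYYG_zpow h1, hT.sum_zero h.toPD c, zpow_zero, map_one]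

theorem yq_cong {Γ : Type*} [LinearOrderedCommGroupWithZero Γ] (v : Valuation L Γ)
    (hv : v (algebraMap K L (β : K)) < 1) (hb : v (bD L) = 1) (c : 𝓞 K) :
    v (yq T iv n P Q R c - algebraMap N L (DG.xQ T iv n P Q c)) < 1 ∧
      v (algebraMap N L (DG.xQ T iv n P Q c)) = 1 := by
  have hK : Ker v R := ker_of_val v hβ.isPrime hβ.one hR hv hb
  have hx : algebraMap N L (DG.xQ T iv n P Q c) =
      ∏ a ∈ T, xc (up L Q + sm L a (up L P)) ^ n (c * iv a) := by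
    rw [DG.xQ, map_prod]
    refine Finset.prod_congr rfl fun a _ => ?_
    rw [map_zpow₀, ← xc_up, up_add, up_sm]
  rw [hx]
  unfold yq
  have h4 : v (4 * dD L) = 1 := by
    have e : (4 : L) = 2 * 2 := by norm_num
    rw [e, map_mul, map_mul, v_two v hb, v_dD v hb, one_mul, one_mul]
  have hA : ∀ (a : 𝓞 K), v (xc (up L Q + sm L a (up L P) + R)) = 1 := by
    intro a
    have h1 := xD_val (JYYG_cop h hμϖ hβ' hμβ) (JYYG_cop3 h hβ) (JYYG_kill (L := L) hQ)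
      (JYYG_lam hQ0) (JYYG_pk hP hR a) (JYYG_pn hP hβϖ hR a) v
    rw [h4, ← add_assoc] at h1
    exact (pow_eq_one_iff_of_nonneg zero_le (by norm_num)).1 h1
  have hPn : ∀ a ∈ T, sm L a (up L P) ≠ 0 := fun a ha e => hT.res.nz a ha ((up_ord hP a).1 e)
  have hB : ∀ a ∈ T, v (xc (up L Q + sm L a (up L P))) = 1 := by
    intro a ha
    have h1 := xD_val (w_cop h.prime hμϖ) (pi3_cop h.one) (JYYG_kill (L := L) hQ)
      (JYYG_lam hQ0) (JYYG_killP hP a) (hPn a ha) v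
    rw [h4] at h1
    exact (pow_eq_one_iff_of_nonneg zero_le (by norm_num)).1 h1
  have ht := ker_tc_lt v hK
  refine ⟨?_, ?_⟩
  · refine MP_1a91b9_ntT.DB.yya_prod v T _ _
      (fun a _ => MP_1a91b9_ntT.DB.yya_val_zpow v (hA a) _)
      (fun a ha => MP_1a91b9_ntT.DB.yya_val_zpow v (hB a ha) _)
      fun a ha => MP_1a91b9_ntT.DB.yya_zpow v (hA a) (hB a ha) ?_ _
    have hQ0' : up L Q ≠ 0 := fun e => JYYG_lam (L := L) hQ0 (by rw [e, map_zero])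
    have hnk := not_ker_mixO v (w_cop h.prime hμϖ) (JYYG_kill (L := L) hQ) hQ0'
      (JYYG_killP hP a) (hPn a ha)
    obtain ⟨-, h5, -⟩ := add_ker v hnk hK
    obtain ⟨-, -, hY⟩ := not_ker v hnk
    have e : xc (up L Q + sm L a (up L P) + R) - xc (up L Q + sm L a (up L P)) =
        (xc (up L Q + sm L a (up L P) + R) - xc (up L Q + sm L a (up L P)) -
          2 * yc (up L Q + sm L a (up L P)) * tc R) +
          2 * yc (up L Q + sm L a (up L P)) * tc R := by ring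
    rw [e]
    refine Valuation.map_add_lt v (lt_of_le_of_lt h5 (pow_lt_one₀ zero_le ht two_ne_zero)) ?_
    rw [map_mul, map_mul]
    have h6 : v (2 : L) ≤ 1 := by simpa using v_nat_le v (F := L) 2
    exact lt_of_le_of_lt (mul_le_mul' (mul_le_one' h6 hY) le_rfl) (by rw [one_mul]; exact ht)
  · rw [map_prod]
    exact Finset.prod_eq_one fun a ha => MP_1a91b9_ntT.DB.yya_val_zpow v (hB a ha) _

variable [IsGalois N L] (hPβ : sm N β' P = P) (hgen : ∀ σ : Gal(L/N), ga σ R = R → σ = 1)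
  (hall : ∀ c : 𝓞 K, ¬ β ∣ c → ∃ σ : Gal(L/N), ga σ R = sm L c R)
include hPβ hgen hall

theorem norm_xcQ {a : 𝓞 K} (ha : ¬ ϖ ∣ a) :
    algebraMap N L (Algebra.norm N (xc (up L Q + sm L a (up L P) + R))) =
      algebraMap K L (β' : K) ^ 2 * ∏ j ∈ Finset.Ico 1 p, xc (j • R) := by
  have hβ0 : β ≠ 0 := hβ.isPrime.ne_zero
  have hβ'0 : β' ≠ 0 := hβ'.ne_zero_iff.1 hβ0
  have hRβ : sm L β R = 0 := (hR β).2 dvd_rfl
  have hR0 : R ≠ 0 := by
    intro e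
    refine hβ.isPrime.not_isUnit (isUnit_of_dvd_one ((hR 1).1 ?_))
    rw [e, map_zero]
  have hPn : sm L a (up L P) ≠ 0 := fun e => ha ((up_ord hP a).1 e)
  have hx1 : xc (up L Q + sm L a (up L P)) ≠ 0 :=
    xD_ne (w_cop h.prime hμϖ) (pi3_cop h.one) (JYYG_kill (L := L) hQ)
      (JYYG_lam hQ0) (JYYG_killP hP a) hPn
  have hsmQ : sm N β' Q = Q := by
    obtain ⟨c, hc⟩ := hμβ
    have e1 : β' = c * μ + 1 := by linear_combination hc
    rw [e1, map_add, map_one]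
    have e2 : sm N (c * μ) Q = 0 := by rw [← sm_sm, hQ, map_zero]
    change sm N (c * μ) Q + Q = Q
    rw [e2, zero_add]
  have hsmJ : sm L β' (up L Q) = up L Q := by
    rw [← up_sm, hsmQ]
  have hsmP : sm L β' (sm L a (up L P)) = sm L a (up L P) := by
    rw [sm_sm, mul_comm, ← sm_sm, ← up_sm, hPβ]
  set A := up L Q + sm L a (up L P) with hAd
  have hsm : sm L β' A = A := by
    rw [hAd, map_add, hsmJ, hsmP]
  have hA0 : A ≠ 0 := by
    intro e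
    rw [e] at hx1
    exact hx1 xc_zero
  obtain ⟨f⟩ := exists_emb L
  obtain ⟨T', hT', hT1, hT2⟩ := isRes_deg1 hβ
  have hT'' : IsRes β' T' := ⟨fun c hc hd => hT'.nz c hc (hβ'.dvd_iff_dvd_left.2 hd),
    fun c hc => by
      obtain ⟨d, hd, hcd⟩ := hT'.ex c (fun e => hc (hβ'.dvd_iff_dvd_left.1 e))
      exact ⟨d, hd, hβ'.dvd_iff_dvd_left.1 hcd⟩,
    fun c hc d hd hcd => hT'.uniq c hc d hd (hβ'.dvd_iff_dvd_left.2 hcd)⟩
  have hR' : Ord β' R := fun c => (hR c).trans hβ'.dvd_iff_dvd_left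
  have h3 : IsCoprime β' pi3 := by
    obtain ⟨w, hw⟩ := hβ'
    rw [← hw]
    exact ((isCoprime_mul_unit_right_right w.isUnit pi3 β).2 (pi3_cop hβ.one)).symm
  have hconv : ∀ g : 𝓞 K → L, ∏ a ∈ T', g a = ∏ j ∈ Finset.Ico 1 p, g (j : 𝓞 K) := by
    intro g
    symm
    refine Finset.prod_bij (fun j _ => (j : 𝓞 K)) (fun j hj => hT2 j hj)
      (fun i _ j _ e => Nat.cast_injective e) (fun b hb => ?_) (fun j _ => rfl)
    obtain ⟨m, hm, hm1⟩ := hT1 b hb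
    exact ⟨m, hm, hm1.symm⟩
  have hd := dist0 f hβ'0 h3 hT'' hR' (P := A) (by rw [hsm]; exact hA0) (by rw [hsm]; exact hx1)
  rw [hsm, hconv, hconv] at hd
  simp only [sm_nat] at hd
  have hd1 : ∏ j ∈ Finset.Ico 1 p, xc (A + j • R) =
      algebraMap K L (β' : K) ^ 2 * ∏ j ∈ Finset.Ico 1 p, xc (j • R) := by
    refine mul_left_cancel₀ hx1 ?_
    rw [hd, mul_comm]
  rw [← hd1, Algebra.norm_eq_prod_automorphisms]
  have hex : ∀ σ : Gal(L/N), ∃ j : ℕ, j ∈ Finset.Ico 1 p ∧ ga σ R = j • R := by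
    intro σ
    obtain ⟨c, hc, hc1⟩ := gal_sm hβ0 hR σ
    obtain ⟨k, hk, hk1⟩ := hβ.exists_int c
    refine ⟨k, Finset.mem_Ico.2 ⟨?_, hk⟩, ?_⟩
    · rcases Nat.eq_zero_or_pos k with e | e
      · exfalso
        rw [e, Nat.cast_zero, sub_zero] at hk1
        exact hβ.isPrime.not_isUnit (hc.isUnit_of_dvd' hk1 dvd_rfl)
      · exact e
    · rw [hc1, sm_eq_int hRβ (k := (k : ℤ)) (by rw [Int.cast_natCast]; exact hk1), natCast_zsmul]
  have hinj : ∀ i ∈ Finset.Ico 1 p, ∀ j ∈ Finset.Ico 1 p, i • R = j • R → i = j := by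
    intro i hi j hj hij
    rw [Finset.mem_Ico] at hi hj
    have h3 : ((i : ℤ) - j) • R = 0 := by
      rw [sub_smul, natCast_zsmul, natCast_zsmul, hij, sub_self]
    have h4 := (smul_zero_iff hβ hRβ hR0 _).1 h3
    have h5 : ((i : ℤ) - j) = 0 := Int.eq_zero_of_abs_lt_dvd h4 (by rw [abs_lt]; omega)
    omega
  choose j hj1 hj2 using hex
  refine Finset.prod_bij (fun σ _ => j σ) (fun σ _ => hj1 σ) ?_ ?_ ?_
  · intro σ _ τ _ e
    have e1 : ga σ R = ga τ R := by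
      rw [hj2, hj2, e]
    have e2 : ga (τ⁻¹ * σ) R = R := by
      rw [ga_mul, e1, ← ga_mul, inv_mul_cancel, ga_one]
    have e3 := hgen _ e2
    exact (inv_mul_eq_one.1 e3).symm
  · intro i hi
    have h3 : ¬ β ∣ ((i : ℕ) : 𝓞 K) := by
      intro hd
      rw [← Int.cast_natCast, hβ.dvd_int_iff] at hd
      rw [Finset.mem_Ico] at hi
      have := Int.le_of_dvd (by omega) hd
      omega
    obtain ⟨σ, hσ⟩ := hall _ h3
    refine ⟨σ, Finset.mem_univ _, hinj _ (hj1 σ) _ hi ?_⟩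
    rw [← hj2, hσ, sm_nat]
  · intro σ _
    rw [← xc_ga]
    have h3 : ga σ (A + R) = A + j σ • R := by
      rw [map_add, hj2, hAd, map_add, ga_sm, yyb_fix, yyb_fix]
    rw [← h3]

theorem yq_norm (c : 𝓞 K) : Algebra.norm N (yq T iv n P Q R c) = 1 := by
  have hno := fun (a : 𝓞 K) (ha : ¬ ϖ ∣ a) =>
    norm_xcQ h hT hP hμϖ hQ hQ0 hβ hβ' hβϖ hR hμβ hPβ hgen hall ha
  apply (algebraMap N L).injective
  rw [map_one, Algebra.norm_eq_prod_automorphisms]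
  set CC := algebraMap K L (β' : K) ^ 2 * ∏ j ∈ Finset.Ico 1 p, xc (j • R) with hCC
  have hC0 : CC ≠ 0 := by
    rw [← hno 1 (JYYG_one h)]
    intro e
    have e1 := (map_eq_zero_iff _ (algebraMap N L).injective).1 e
    rw [Algebra.norm_eq_zero_iff] at e1
    exact JYYG_ne h hP hμϖ hQ hQ0 hβ hβ' hβϖ hR hμβ 1 e1
  have h1 : ∏ σ : Gal(L/N), σ (yq T iv n P Q R c) = ∏ a ∈ T, CC ^ n (c * iv a) := by
    unfold yq
    have h2 : ∀ σ : Gal(L/N), σ (∏ a ∈ T,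
        xc (up L Q + sm L a (up L P) + R) ^ n (c * iv a)) =
        ∏ a ∈ T, σ (xc (up L Q + sm L a (up L P) + R)) ^ n (c * iv a) := fun σ => by
      rw [map_prod]
      exact Finset.prod_congr rfl fun a _ => map_zpow₀ σ _ _
    rw [Finset.prod_congr rfl fun σ _ => h2 σ, Finset.prod_comm]
    refine Finset.prod_congr rfl fun a ha => ?_
    rw [Finset.prod_zpow, ← hno a (hT.res.nz a ha), Algebra.norm_eq_prod_automorphisms]
  rw [h1, JYYG_zpow hC0, hT.sum_zero h.toPD, zpow_zero]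

end

section
variable {N L : Type} [Field N] [NumberField N] [Algebra K N] [DecidableEq N] [Field L]
  [NumberField L] [Algebra K L] [DecidableEq L] [Algebra N L] [IsScalarTower K N L]
  {ϖ : 𝓞 K} {ℓ q : ℕ} (h : PD ϖ ℓ q) {T : Finset (𝓞 K)} {iv : 𝓞 K → 𝓞 K} {n : 𝓞 K → ℤ}
  (hT : TrD ϖ ℓ T iv n) {P : Pt N} (hP : Ord ϖ P) {μ : 𝓞 K} {H : Subgroup (CU μ)} [Fintype (U H)]
  (hμϖ : ¬ ϖ ∣ μ) (hl : ¬ μ ∣ pk) {J : Pt N} (hJ : Ord μ J) {β β' : 𝓞 K} {p : ℕ}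
  (hβ : Deg1 β p) (hβ' : Associated β β') (hβϖ : ¬ β ∣ ϖ) {R : Pt L} (hR : Ord β R)
  (hJβ : sm N β' J = J)

include hβ hR in
private theorem ygr (j : ℕ) : Ord β (sm L (pi3 ^ j) R) := hR.smul ((pi3_cop hβ.one).pow_left)

include hJ hJβ in
private theorem ygm : μ ∣ β' - 1 := by
  rw [← hJ.sm_eq_iff, hJβ, map_one]
  rfl

include h hT hP hμϖ hl hJ hβ hβ' hβϖ hR hJβ

theorem yyG_val {Γ : Type*} [LinearOrderedCommGroupWithZero Γ] (v : Valuation L Γ)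
    (c : U H → 𝓞 K) : v (yyG T iv n P J R c) = 1 := by
  unfold yyG
  rw [map_prod]
  refine Finset.prod_eq_one fun u _ => ?_
  rw [map_prod]
  exact Finset.prod_eq_one fun j hj => yq_val h hT (ord_pj h hP j) hμϖ
    (kill_pj (smU_kill hJ u) j) (sm_pj (smU_lam hJ hl u) (Finset.mem_range.1 hj)) hβ hβ' hβϖ
    (ygr hβ hR j) (ygm hJ hJβ) v _

theorem yyG_cong {Γ : Type*} [LinearOrderedCommGroupWithZero Γ] (v : Valuation L Γ)
    (hv : v (algebraMap K L (β : K)) < 1) (hb : v (bD L) = 1) (c : U H → 𝓞 K) :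
    v (yyG T iv n P J R c - algebraMap N L (XX T iv n P J c)) < 1 := by
  have hx : algebraMap N L (XX T iv n P J c) =
      ∏ u : U H, ∏ j ∈ Finset.range KP.k, algebraMap N L
        (DG.xQ T iv n (sm N (pi3 ^ j) P) (sm N (pi3 ^ j) (smU J u)) (c u)) := by
    unfold XX xQ
    rw [map_prod]
    refine Finset.prod_congr rfl fun u _ => ?_
    rw [map_prod]
  rw [hx]
  unfold yyG
  have hc := fun (u : U H) (j : ℕ) (hj : j ∈ Finset.range KP.k) =>
    yq_cong h hT (ord_pj h hP j) hμϖ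
      (kill_pj (smU_kill hJ u) j) (sm_pj (smU_lam hJ hl u) (Finset.mem_range.1 hj)) hβ hβ' hβϖ
      (ygr hβ hR j) (ygm hJ hJβ) v hv hb (c u)
  have hv1 := fun (u : U H) (j : ℕ) (hj : j ∈ Finset.range KP.k) =>
    yq_val h hT (ord_pj h hP j) hμϖ
      (kill_pj (smU_kill hJ u) j) (sm_pj (smU_lam hJ hl u) (Finset.mem_range.1 hj)) hβ hβ' hβϖ
      (ygr hβ hR j) (ygm hJ hJβ) v (c u)
  refine MP_1a91b9_ntT.DB.yya_prod v Finset.univ _ _ (fun u _ => ?_) (fun u _ => ?_)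
    fun u _ => MP_1a91b9_ntT.DB.yya_prod v (Finset.range KP.k) _ _ (fun j hj => hv1 u j hj)
      (fun j hj => (hc u j hj).2) fun j hj => (hc u j hj).1
  · rw [map_prod]
    exact Finset.prod_eq_one fun j hj => hv1 u j hj
  · rw [map_prod]
    exact Finset.prod_eq_one fun j hj => (hc u j hj).2

variable [IsGalois N L] (hPβ : sm N β' P = P) (hgen : ∀ σ : Gal(L/N), ga σ R = R → σ = 1)
  (hall : ∀ c : 𝓞 K, ¬ β ∣ c → ∃ σ : Gal(L/N), ga σ R = sm L c R)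
include hPβ hgen hall

theorem yyG_norm (c : U H → 𝓞 K) : Algebra.norm N (yyG T iv n P J R c) = 1 := by
  unfold yyG
  rw [map_prod]
  refine Finset.prod_eq_one fun u _ => ?_
  rw [map_prod]
  refine Finset.prod_eq_one fun j hj => ?_
  have hcb : IsCoprime (pi3 ^ j) β := (pi3_cop hβ.one).pow_left
  refine yq_norm h hT (ord_pj h hP j) hμϖ
    (kill_pj (smU_kill hJ u) j) (sm_pj (smU_lam hJ hl u) (Finset.mem_range.1 hj)) hβ hβ' hβϖ
    (ygr hβ hR j) (ygm hJ hJβ) ?_ ?_ ?_ (c u)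
  · rw [sm_sm, mul_comm, ← sm_sm, hPβ]
  · intro σ hσ
    apply hgen
    obtain ⟨a, b, hab⟩ := hcb
    have e1 : sm L a (sm L (pi3 ^ j) R) = R := by
      rw [sm_sm]
      have e2 : sm L (a * pi3 ^ j) R = sm L 1 R := by
        rw [hR.sm_eq_iff]
        exact ⟨-b, by linear_combination hab⟩
      rw [e2, map_one]
      rfl
    rw [← e1, ga_sm, hσ]
  · intro d hd
    obtain ⟨σ, hσ⟩ := hall d hd
    exact ⟨σ, by rw [ga_sm, hσ, sm_sm, sm_sm, mul_comm]⟩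

end

end

end Pool.Agent.Lib.MP_1a91b9_ntX.DK
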